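import Pool.Agent.R708.PS.Std

/-!
A continuous function on the path space of an irreducible finite graph whose sums over periodic
orbits never vanish has, up to sign and coboundary, non-negative values.
-/

namespace ParrySullivan

open Path

variable {H : DGraph}

theorem extend_path {u v : H.V}
    (h : Relation.ReflTransGen (fun a b => ∃ e, H.s e = a ∧ H.t e = b) u v)
    (η : Path H) (hη : H.t (η 0) = u) :
    ∃ (n : ℕ) (ζ : Path H), H.t (ζ 0) = v ∧ sh^[n] ζ = η := by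
  induction h with
  | refl => exact ⟨0, η, hη, rfl⟩
  | tail _ he ih =>
    obtain ⟨n, ζ, h1, h2⟩ := ih
    obtain ⟨e, h3, h4⟩ := he
    refine ⟨n + 1, cons e ζ (h3.trans h1.symm), h4, ?_⟩
    rw [Function.iterate_succ_apply, sh_cons, h2]

theorem Irred.conn (hH : Irred H) (ξ η : Path H) (m : ℕ) :
    ∃ n ζ, m ≤ n ∧ agree m ζ ξ ∧ sh^[n] ζ = η := by
  obtain ⟨n, ζ, h1, h2⟩ := extend_path (hH (H.t (η 0)) (H.t (ξ m))) η rfl
  refine ⟨n + m, glue m ξ ζ h1.symm, by omega, fun j hj => glue_lt _ hj, ?_⟩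
  rw [Function.iterate_add_apply, sh_glue, h2]

/-- the weights of the transitions from (the `m`-word of) `ξ` to `η` -/
def AS (f : Path H → ℤ) (m : ℕ) (ξ η : Path H) : Set ℤ :=
  {a | ∃ n ζ, 1 ≤ n ∧ agree m ζ ξ ∧ agree m (sh^[n] ζ) η ∧ birkhoffSum sh f n ζ = a}

section

variable {f : Path H → ℤ} {m : ℕ} (hm : 1 ≤ m) (hf : ∀ ξ η, agree m ξ η → f ξ = f η)

include hf in
theorem birk_agree {n : ℕ} {ζ ζ' : Path H} (h : agree (n + m) ζ ζ') :
    birkhoffSum sh f n ζ = birkhoffSum sh f n ζ' := by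
  refine Finset.sum_congr rfl (fun j hj => hf _ _ (fun i hi => ?_))
  rw [sh_iter, sh_iter]
  exact h _ (by have := Finset.mem_range.1 hj; omega)

include hm hf in
theorem AS_add {ξ η κ : Path H} {a b : ℤ} (ha : a ∈ AS f m ξ η) (hb : b ∈ AS f m η κ) :
    a + b ∈ AS f m ξ κ := by
  obtain ⟨n, ζ, h1, h2, h3, h4⟩ := ha
  obtain ⟨n', ζ', h1', h2', h3', h4'⟩ := hb
  have hg : H.t (ζ n) = H.t (ζ' 0) := by
    have e1 := h3 0 (by omega)
    rw [sh_iter, zero_add] at e1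
    rw [e1, h2' 0 (by omega)]
  have hag : agree (n + m) (glue n ζ ζ' hg) ζ := by
    intro j hj
    rcases Nat.lt_or_ge j n with h | h
    · exact glue_lt hg h
    · rw [glue_ge hg h, h2' _ (by omega)]
      have e1 := h3 (j - n) (by omega)
      rw [sh_iter, Nat.sub_add_cancel h] at e1
      exact e1.symm
  refine ⟨n + n', glue n ζ ζ' hg, by omega, (hag.mono (by omega)).trans h2, ?_, ?_⟩
  · rw [add_comm n n', Function.iterate_add_apply, sh_glue]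
    exact h3'
  · rw [birkhoffSum_add, sh_glue, birk_agree hf hag, h4, h4']

include hm hf in
theorem AS_close {ξ : Path H} {a : ℤ} (ha : a ∈ AS f m ξ ξ) :
    ∃ n ζ, 1 ≤ n ∧ sh^[n] ζ = ζ ∧ birkhoffSum sh f n ζ = a := by
  obtain ⟨n, ζ, h1, h2, h3, h4⟩ := ha
  have hg : H.t (ζ n) = H.t (ζ 0) := by
    have e1 := h3 0 (by omega)
    rw [sh_iter, zero_add] at e1
    rw [e1, h2 0 (by omega)]
  have key : ∀ j, j < n + m → ζ j = ζ (j % n) := by
    intro j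
    induction j using Nat.strong_induction_on with
    | _ j ih =>
      intro hj
      rcases Nat.lt_or_ge j n with h | h
      · rw [Nat.mod_eq_of_lt h]
      · have e1 := h3 (j - n) (by omega)
        rw [sh_iter, Nat.sub_add_cancel h] at e1
        rw [e1, ← h2 _ (by omega), ih (j - n) (by omega) (by omega)]
        conv_rhs => rw [← Nat.sub_add_cancel h, Nat.add_mod_right]
  refine ⟨n, rep n h1 ζ hg, h1, sh_rep h1 hg, ?_⟩
  rw [← h4]
  apply birk_agree hf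
  intro j hj
  rw [rep_apply]
  exact (key j hj).symm

include hm hf in
theorem AS_mul {ξ : Path H} {a : ℤ} (ha : a ∈ AS f m ξ ξ) (k : ℕ) :
    ((k : ℤ) + 1) * a ∈ AS f m ξ ξ := by
  induction k with
  | zero => simpa using ha
  | succ k ih =>
    have := AS_add hm hf ih ha
    convert this using 1
    push_cast; ring

theorem AS_nonempty (hH : Irred H) (hm : 1 ≤ m) (ξ η : Path H) : (AS f m ξ η).Nonempty := by
  obtain ⟨n, ζ, h1, h2, h3⟩ := hH.conn ξ η m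
  exact ⟨_, n, ζ, by omega, h2, by rw [h3]; exact agree_refl _ _, rfl⟩

theorem AS_congr {ξ ξ' η : Path H} (h : agree m ξ ξ') : AS f m ξ η = AS f m ξ' η := by
  ext a
  constructor
  · rintro ⟨n, ζ, h1, h2, h3⟩
    exact ⟨n, ζ, h1, h2.trans h, h3⟩
  · rintro ⟨n, ζ, h1, h2, h3⟩
    exact ⟨n, ζ, h1, h2.trans h.symm, h3⟩

/-- sums over periodic orbits do not vanish -/
def NZ (f : Path H → ℤ) : Prop := ∀ ξ : Path H, IsPer ξ →
  birkhoffSum sh f (Function.minimalPeriod sh ξ) ξ ≠ 0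

theorem NZ.all {f : Path H → ℤ} (h : NZ f) {n : ℕ} (hn : 1 ≤ n) {ξ : Path H}
    (hξ : sh^[n] ξ = ξ) : birkhoffSum sh f n ξ ≠ 0 := by
  have hp : IsPer ξ := isPer_iff.2 ⟨n, hn, hξ⟩
  obtain ⟨j, hj⟩ := Function.IsPeriodicPt.minimalPeriod_dvd (f := sh) (x := ξ) hξ
  rw [hj, birkhoff_mul f (IsPer.sh_min ξ)]
  refine mul_ne_zero ?_ (h ξ hp)
  have : j ≠ 0 := by rintro rfl; simp at hj; omega
  exact_mod_cast this

include hm hf in
theorem sign_alt (hH : Irred H) (hnz : NZ f) :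
    (∀ ξ, ∀ a ∈ AS f m ξ ξ, 0 < a) ∨ (∀ ξ, ∀ a ∈ AS f m ξ ξ, a < 0) := by
  have hne : ∀ ξ, (0 : ℤ) ∉ AS f m ξ ξ := by
    intro ξ h0
    obtain ⟨n, ζ, h1, h2, h3⟩ := AS_close hm hf h0
    exact hnz.all h1 h2 h3
  by_contra hcon
  push Not at hcon
  obtain ⟨⟨ξ, a, ha, ha0⟩, η, b, hb, hb0⟩ := hcon
  have ha1 : a < 0 := lt_of_le_of_ne ha0 (fun h => hne ξ (h ▸ ha))
  have hb1 : 0 < b := lt_of_le_of_ne hb0 (fun h => hne η (h ▸ hb))
  obtain ⟨c, hc⟩ := AS_nonempty (f := f) hH hm ξ η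
  obtain ⟨d, hd⟩ := AS_nonempty (f := f) hH hm η ξ
  -- a positive element at ξ
  let k : ℕ := (c + d).natAbs
  have hP : c + ((k : ℤ) + 1) * b + d ∈ AS f m ξ ξ :=
    AS_add hm hf (AS_add hm hf hc (AS_mul hm hf hb k)) hd
  have hk : -((k : ℤ)) ≤ c + d := by
    have := neg_abs_le (c + d)
    simpa [k] using this
  have hPpos : 0 < c + ((k : ℤ) + 1) * b + d := by nlinarith
  set P := c + ((k : ℤ) + 1) * b + d with hPdef
  obtain ⟨p, hp⟩ := Int.eq_ofNat_of_zero_le (show (0 : ℤ) ≤ P - 1 by omega)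
  obtain ⟨q, hq⟩ := Int.eq_ofNat_of_zero_le (show (0 : ℤ) ≤ -a - 1 by omega)
  have h1 := AS_mul hm hf hP q
  have h2 := AS_mul hm hf ha p
  have h3 := AS_add hm hf h1 h2
  apply hne ξ
  convert h3 using 1
  have e1 : (p : ℤ) + 1 = P := by omega
  have e2 : (q : ℤ) + 1 = -a := by omega
  rw [e1, e2]; ring

end

theorem telescoping (f φ : Path H → ℤ) (n : ℕ) (ξ : Path H) :
    birkhoffSum sh (fun ξ => f ξ + φ (sh ξ) - φ ξ) n ξ =
      birkhoffSum sh f n ξ + φ (sh^[n] ξ) - φ ξ := by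
  induction n with
  | zero => simp
  | succ n ih =>
    rw [birkhoffSum_succ, birkhoffSum_succ, ih, Function.iterate_succ_apply']
    ring

theorem exists_pos_potential {f : Path H → ℤ} {m : ℕ} (hm : 1 ≤ m)
    (hf : ∀ ξ η, agree m ξ η → f ξ = f η) (hH : Irred H)
    (hpos : ∀ ξ, ∀ a ∈ AS f m ξ ξ, 0 < a) :
    ∃ g : Path H → ℤ, (∀ ξ, 0 ≤ g ξ) ∧ (∀ ξ η, agree (m + 1) ξ η → g ξ = g η) ∧
      ∀ ξ n, sh^[n] ξ = ξ → birkhoffSum sh g n ξ = birkhoffSum sh f n ξ := by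
  by_cases hemp : Nonempty (Path H)
  · obtain ⟨ξ₀⟩ := hemp
    let φ : Path H → ℤ := fun ξ => sInf (AS f m ξ ξ₀)
    have hbdd : ∀ ξ, BddBelow (AS f m ξ ξ₀) := by
      intro ξ
      obtain ⟨d, hd⟩ := AS_nonempty (f := f) hH hm ξ₀ ξ
      refine ⟨-d, fun a ha => ?_⟩
      have := hpos ξ _ (AS_add hm hf ha hd)
      linarith
    refine ⟨fun ξ => f ξ + φ (sh ξ) - φ ξ, ?_, ?_, ?_⟩
    · intro ξ
      have h1 : φ (sh ξ) ∈ AS f m (sh ξ) ξ₀ :=
        Int.csInf_mem (AS_nonempty hH hm _ _) (hbdd _)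
      have h2 : f ξ ∈ AS f m ξ (sh ξ) := ⟨1, ξ, le_rfl, agree_refl _ _, agree_refl _ _, by simp⟩
      have h3 : φ ξ ≤ f ξ + φ (sh ξ) := csInf_le (hbdd ξ) (AS_add hm hf h2 h1)
      linarith
    · intro ξ η h
      have h1 : f ξ = f η := hf _ _ (h.mono (by omega))
      have h2 : φ ξ = φ η := by
        show sInf _ = sInf _
        rw [AS_congr (h.mono (by omega))]
      have h3 : φ (sh ξ) = φ (sh η) := by
        show sInf _ = sInf _
        rw [AS_congr (ξ := sh ξ) (ξ' := sh η) (fun j hj => h (j + 1) (by omega))]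
      show f ξ + φ (sh ξ) - φ ξ = f η + φ (sh η) - φ η
      rw [h1, h2, h3]
    · intro ξ n h
      rw [telescoping, h]; ring
  · exact ⟨f, fun ξ => absurd ⟨ξ⟩ hemp, fun ξ => absurd ⟨ξ⟩ hemp, fun ξ => absurd ⟨ξ⟩ hemp⟩

theorem birk_neg (f : Path H → ℤ) (n : ℕ) (ξ : Path H) :
    birkhoffSum sh (fun ξ => -f ξ) n ξ = -birkhoffSum sh f n ξ := by
  simp [birkhoffSum]

theorem exists_nonneg [Finite H.E] (hH : Irred H) {f : Path H → ℤ} (hf : Continuous f)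
    (hnz : NZ f) : ∃ m, 1 ≤ m ∧ ∃ g : Path H → ℕ, (∀ ξ η, agree m ξ η → g ξ = g η) ∧
      ∀ ξ, IsPer ξ → ∑ j ∈ Finset.range (Function.minimalPeriod sh ξ), g (sh^[j] ξ) =
        (birkhoffSum sh f (Function.minimalPeriod sh ξ) ξ).natAbs := by
  obtain ⟨m₀, hm₀⟩ := exists_dep hf
  have hdep : ∀ ξ η, agree (m₀ + 1) ξ η → f ξ = f η := fun ξ η h => hm₀ ξ η (h.mono (by omega))
  have fin : ∀ f' : Path H → ℤ, (∀ ξ η, agree (m₀ + 1) ξ η → f' ξ = f' η) →
      (∀ ξ, ∀ a ∈ AS f' (m₀ + 1) ξ ξ, 0 < a) → ∃ m, 1 ≤ m ∧ ∃ g : Path H → ℕ,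
      (∀ ξ η, agree m ξ η → g ξ = g η) ∧
      ∀ ξ, IsPer ξ → ∑ j ∈ Finset.range (Function.minimalPeriod sh ξ), g (sh^[j] ξ) =
        (birkhoffSum sh f' (Function.minimalPeriod sh ξ) ξ).natAbs := by
    intro f' h1 h2
    obtain ⟨g, hg0, hg1, hg2⟩ := exists_pos_potential (by omega) h1 hH h2
    refine ⟨m₀ + 1 + 1, by omega, fun ξ => (g ξ).toNat, fun ξ η h => congrArg Int.toNat (hg1 _ _ h), ?_⟩
    intro ξ hξ
    rw [← hg2 ξ _ (IsPer.sh_min ξ)]
    zify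
    have h3 : 0 ≤ birkhoffSum sh g (Function.minimalPeriod sh ξ) ξ :=
      Finset.sum_nonneg (fun j _ => hg0 _)
    rw [abs_of_nonneg h3, birkhoffSum]
    refine Finset.sum_congr rfl (fun j _ => ?_)
    exact Int.toNat_of_nonneg (hg0 _)
  rcases sign_alt (by omega) hdep hH hnz with h | h
  · exact fin f hdep h
  · obtain ⟨m, h1, g, h2, h3⟩ := fin (fun ξ => -f ξ) (fun ξ η h => by rw [hdep ξ η h]) (by
      rintro ξ a ⟨n, ζ, h1, h2, h3, h4⟩
      rw [birk_neg] at h4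
      have := h ξ (-a) ⟨n, ζ, h1, h2, h3, by omega⟩
      omega)
    refine ⟨m, h1, g, h2, fun ξ hξ => ?_⟩
    rw [h3 ξ hξ, birk_neg, Int.natAbs_neg]

end ParrySullivan
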