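import Pool.Agent.R708.PS.Zeta
import Pool.Agent.R708.PS.Potential

/-!
Higher block graphs, and the comparison of the determinants of two irreducible graphs whose
categories of `G`-spaces are equivalent.
-/

open Polynomial CategoryTheory

namespace ParrySullivan

open Path

/-- the higher block graph -/
def Blk (H : DGraph) (m : ℕ) : DGraph where
  V := {u : Fin m → H.E // ∃ ξ : Path H, ∀ j : Fin m, ξ j = u j}
  E := {x : Fin (m + 1) → H.E // ∃ ξ : Path H, ∀ j : Fin (m + 1), ξ j = x j}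
  s x := ⟨fun j => x.1 j.succ, by
    obtain ⟨ξ, h⟩ := x.2
    exact ⟨sh ξ, fun j => h j.succ⟩⟩
  t x := ⟨fun j => x.1 j.castSucc, by
    obtain ⟨ξ, h⟩ := x.2
    exact ⟨ξ, fun j => h j.castSucc⟩⟩

noncomputable instance (H : DGraph) (m : ℕ) [Fintype H.E] : Fintype (Blk H m).V := by
  classical
  exact inferInstanceAs (Fintype {u : Fin m → H.E // ∃ ξ : Path H, ∀ j : Fin m, ξ j = u j})

noncomputable instance (H : DGraph) (m : ℕ) [Fintype H.E] : Fintype (Blk H m).E := by
  classical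
  exact inferInstanceAs
    (Fintype {x : Fin (m + 1) → H.E // ∃ ξ : Path H, ∀ j : Fin (m + 1), ξ j = x j})

variable {H : DGraph} {m : ℕ}

/-- the restriction of a path to an edge of the block graph -/
def resE (m : ℕ) (ξ : Path H) : (Blk H m).E := ⟨fun j => ξ j, ξ, fun _ => rfl⟩

/-- the block path of a path -/
def blk (m : ℕ) (ξ : Path H) : Path (Blk H m) :=
  ⟨fun n => resE m (sh^[n] ξ), fun n => by
    apply Subtype.ext
    funext j
    show (sh^[n] ξ) (j.succ : Fin (m + 1)) = (sh^[n + 1] ξ) (j.castSucc : Fin (m + 1))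
    rw [sh_iter, sh_iter]
    have e : ((j.succ : Fin (m + 1)) : ℕ) + n = ((j.castSucc : Fin (m + 1)) : ℕ) + (n + 1) := by
      rw [Fin.val_succ, Fin.val_castSucc]; omega
    rw [e]⟩

theorem blk_apply (ξ : Path H) (n : ℕ) : blk m ξ n = resE m (sh^[n] ξ) := rfl

theorem blk_sh (ξ : Path H) : blk m (sh ξ) = sh (blk m ξ) := by
  apply Path.ext
  intro n
  rw [sh_apply, blk_apply, blk_apply, Function.iterate_succ_apply]

theorem blk_sh_iter (ξ : Path H) (k : ℕ) : blk m (sh^[k] ξ) = sh^[k] (blk m ξ) := by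
  induction k generalizing ξ with
  | zero => rfl
  | succ k ih => rw [Function.iterate_succ_apply, ih, blk_sh, Function.iterate_succ_apply]

theorem blk_injective : Function.Injective (blk m : Path H → Path (Blk H m)) := by
  intro ξ η h
  apply Path.ext
  intro n
  have h1 : (blk m ξ n).1 0 = (blk m η n).1 0 := by rw [h]
  have h2 : (sh^[n] ξ) 0 = (sh^[n] η) 0 := h1
  rwa [sh_iter, sh_iter, zero_add] at h2

theorem blk_surjective (hm : 1 ≤ m) : Function.Surjective (blk m : Path H → Path (Blk H m)) := by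
  intro κ
  have hcomp : ∀ n (j : Fin m), (κ n).1 j.succ = (κ (n + 1)).1 j.castSucc := fun n j =>
    congrFun (congrArg Subtype.val (κ.compat n)) j
  have hval : ∀ n, H.s ((κ n).1 0) = H.t ((κ (n + 1)).1 0) := by
    intro n
    obtain ⟨ξ, hξ⟩ := (κ n).2
    have h1 := hcomp n ⟨0, hm⟩
    have h2 : (κ (n + 1)).1 0 = (κ (n + 1)).1 (Fin.castSucc ⟨0, hm⟩) := rfl
    rw [h2, ← h1, ← hξ, ← hξ]
    exact ξ.compat 0
  refine ⟨⟨fun n => (κ n).1 0, hval⟩, ?_⟩
  apply Path.ext
  intro n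
  apply Subtype.ext
  funext j
  show (sh^[n] (⟨fun n => (κ n).1 0, hval⟩ : Path H)) (j : ℕ) = (κ n).1 j
  rw [sh_iter]
  show (κ ((j : ℕ) + n)).1 0 = (κ n).1 j
  have key : ∀ (i : ℕ) (hi : i < m + 1) (n : ℕ), (κ (i + n)).1 0 = (κ n).1 ⟨i, hi⟩ := by
    intro i
    induction i with
    | zero => intro hi n; rw [zero_add]; rfl
    | succ i ih =>
      intro hi n
      have h1 := hcomp n ⟨i, by omega⟩
      have h2 : (κ n).1 ⟨i + 1, hi⟩ = (κ n).1 (Fin.succ ⟨i, by omega⟩) := rfl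
      rw [h2, h1]
      have h3 := ih (by omega) (n + 1)
      rw [show i + 1 + n = i + (n + 1) by ring, h3]
      rfl
  exact key j.1 j.2 n

theorem isPer_blk {ξ : Path H} : IsPer (blk m ξ) ↔ IsPer ξ := by
  rw [isPer_iff, isPer_iff]
  constructor
  · rintro ⟨n, h1, h2⟩
    exact ⟨n, h1, blk_injective (m := m) (by rw [blk_sh_iter, h2])⟩
  · rintro ⟨n, h1, h2⟩
    exact ⟨n, h1, by rw [← blk_sh_iter, h2]⟩

theorem orb_blk {ξ η : Path H} : Orb (blk m ξ) (blk m η) ↔ Orb ξ η := by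
  constructor
  · rintro ⟨n, h⟩
    exact ⟨n, blk_injective (m := m) (by rw [blk_sh_iter, h])⟩
  · rintro ⟨n, rfl⟩
    exact ⟨n, by rw [← blk_sh_iter]⟩

theorem minPeriod_blk (ξ : Path H) :
    Function.minimalPeriod sh (blk m ξ) = Function.minimalPeriod sh ξ := by
  rw [Function.minimalPeriod_eq_minimalPeriod_iff]
  intro n
  constructor
  · intro h
    exact blk_injective (m := m) (by
      have h' : sh^[n] (blk m ξ) = blk m ξ := h
      rw [blk_sh_iter, h'])
  · intro h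
    have h' : sh^[n] ξ = ξ := h
    show sh^[n] (blk m ξ) = blk m ξ
    rw [← blk_sh_iter, h']

/-- composition of a matching with the block map -/
theorem Matching.blk {G : DGraph} {R : Path G → Path H → Prop} (hR : Matching R) (hm : 1 ≤ m) :
    Matching (fun (ξ : Path G) (κ : Path (Blk H m)) =>
      ∃ η, R ξ η ∧ ParrySullivan.blk m η = κ) where
  left ξ hξ := by
    obtain ⟨η, h1, h2⟩ := hR.left ξ hξ
    exact ⟨_, isPer_blk.2 h1, η, h2, rfl⟩
  right κ hκ := by
    obtain ⟨η, rfl⟩ := blk_surjective hm κ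
    obtain ⟨ξ, h1, h2⟩ := hR.right η (isPer_blk.1 hκ)
    exact ⟨ξ, h1, η, h2, rfl⟩
  orb := by
    rintro ξ _ ξ' _ h1 h2 h3 h4 ⟨η, h5, rfl⟩ ⟨η', h6, rfl⟩
    rw [orb_blk]
    exact hR.orb _ _ _ _ h1 (isPer_blk.1 h2) h3 (isPer_blk.1 h4) h5 h6

theorem matching_eq : Matching (fun (ξ η : Path H) => ξ = η) where
  left ξ h := ⟨ξ, h, rfl⟩
  right ξ h := ⟨ξ, h, rfl⟩
  orb := by
    rintro ξ _ ξ' _ _ _ _ _ rfl rfl
    rfl

theorem noSource_blk : NoSource (Blk H m) := by
  rintro ⟨u, ξ, h⟩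
  refine ⟨resE m ξ, ?_⟩
  apply Subtype.ext
  funext j
  exact h j

theorem posW_one (K : DGraph) : PosW (fun _ : K.E => 1) := by
  intro i ξ hi _
  simpa [sw] using hi

theorem SP_one {K : DGraph} (ξ : Path K) :
    SP (fun _ : K.E => 1) ξ = Function.minimalPeriod sh ξ := by
  simp [SP, sw]

/-- the weight on the block graph defined by a function of `m+1` letters -/
noncomputable def wB (g : Path H → ℕ) (m : ℕ) (x : (Blk H m).E) : ℕ := g (Classical.choose x.2)

theorem wB_resE {g : Path H → ℕ} (hg : ∀ ξ η, agree (m + 1) ξ η → g ξ = g η) (ξ : Path H) :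
    wB g m (resE m ξ) = g ξ := by
  apply hg
  intro j hj
  exact Classical.choose_spec (resE m ξ).2 ⟨j, hj⟩

theorem sw_wB {g : Path H → ℕ} (hg : ∀ ξ η, agree (m + 1) ξ η → g ξ = g η) (n : ℕ) (ξ : Path H) :
    sw (wB g m) n (blk m ξ) = ∑ j ∈ Finset.range n, g (sh^[j] ξ) := by
  refine Finset.sum_congr rfl (fun j _ => ?_)
  rw [blk_apply, wB_resE hg]

theorem posW_of {K : DGraph} {w : K.E → ℕ} (h : ∀ ξ : Path K, IsPer ξ → 0 < SP w ξ) : PosW w := by
  intro i ξ hi hξ
  have hp : IsPer ξ := isPer_iff.2 ⟨i, hi, hξ⟩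
  obtain ⟨j, hj⟩ := Function.IsPeriodicPt.minimalPeriod_dvd (f := sh) (x := ξ) hξ
  rw [hj, sw_mul w (IsPer.sh_min ξ)]
  refine Nat.mul_pos (Nat.pos_of_ne_zero ?_) (h ξ hp)
  rintro rfl
  simp at hj; omega

/-- the transposed adjacency matrix over `ℚ` -/
noncomputable def adjQ (K : DGraph) [Fintype K.V] [DecidableEq K.V] [Fintype K.E] :
    Matrix K.V K.V ℚ := (wMat K (fun _ => 0)).map (Polynomial.evalRingHom 1)

theorem det_eval_one (K : DGraph) [Fintype K.V] [DecidableEq K.V] [Fintype K.E] (w : K.E → ℕ) :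
    (1 - wMat K w).det.eval 1 = (1 - adjQ K).det := by
  have h1 : (1 - wMat K w).det.eval 1 = Polynomial.evalRingHom 1 (1 - wMat K w).det := rfl
  rw [h1, RingHom.map_det, RingHom.mapMatrix_apply]
  congr 1
  rw [← RingHom.mapMatrix_apply, map_sub, map_one]
  congr 1
  ext u v
  simp only [adjQ, RingHom.mapMatrix_apply, Matrix.map_apply, wMat, Matrix.of_apply, map_sum]
  refine Finset.sum_congr rfl (fun e _ => ?_)
  split_ifs <;> simp

/-- main comparison -/
theorem det_eq_of_equiv {G H : DGraph} [Fintype G.V] [DecidableEq G.V] [Fintype G.E]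
    [Fintype H.V] [DecidableEq H.V] [Fintype H.E] (hG : NoSource G) (hH : NoSource H)
    (hirr : Irred H) (F : GS G ⥤ GS H) [F.IsEquivalence] :
    (1 - adjQ G).det = (1 - adjQ H).det := by
  classical
  obtain ⟨f, hf, R, hR, hS⟩ := transfer F
  have hnz : NZ f := by
    intro η hη h0
    obtain ⟨ξ, hξ, hr⟩ := hR.right η hη
    have := hS ξ η hξ hη hr
    rw [h0] at this
    have hp := hξ.minPos
    simp at this
    omega
  obtain ⟨m, hm, g, hg, hgS⟩ := exists_nonneg hirr hf hnz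
  have hg' : ∀ ξ η, agree (m + 1) ξ η → g ξ = g η := fun ξ η h => hg ξ η (h.mono (by omega))
  have hSPB : ∀ η : Path H, IsPer η → SP (wB g m) (blk m η) =
      (birkhoffSum sh f (Function.minimalPeriod sh η) η).natAbs := by
    intro η hη
    rw [SP, minPeriod_blk, sw_wB hg', hgS η hη]
  have hposB : PosW (wB g m) := by
    apply posW_of
    intro κ hκ
    obtain ⟨η, rfl⟩ := blk_surjective hm κ
    rw [hSPB η (isPer_blk.1 hκ)]
    exact Int.natAbs_pos.2 (hnz η (isPer_blk.1 hκ))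
  have e1 : (1 - wMat G (fun _ => 1)).det = (1 - wMat (Blk H m) (wB g m)).det := by
    refine zeta_eq hG noSource_blk (posW_one G) hposB (hR.blk hm) ?_
    rintro ξ _ hξ hκ ⟨η, h1, rfl⟩
    rw [SP_one, hSPB η (isPer_blk.1 hκ), hS ξ η hξ (isPer_blk.1 hκ) h1]
  have e2 : (1 - wMat H (fun _ => 1)).det = (1 - wMat (Blk H m) (fun _ => 1)).det := by
    refine zeta_eq hH noSource_blk (posW_one H) (posW_one _) (matching_eq.blk hm) ?_
    rintro ξ _ hξ hκ ⟨η, rfl, rfl⟩
    rw [SP_one, SP_one, minPeriod_blk]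
  rw [← det_eval_one G (fun _ => 1), e1, det_eval_one, ← det_eval_one H (fun _ => 1), e2,
    det_eval_one]

end ParrySullivan
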