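import Mathlib

/-!
Categorical notions (points, torsors, periods) and their invariance under equivalences.
-/

open CategoryTheory

namespace ParrySullivan

universe v₁ u₁ v₂ u₂

section Defs

variable {D : Type u₁} [Category.{v₁} D]

/-- an object mapping to every object -/
def IsE (Z : D) : Prop := ∀ Y : D, Nonempty (Z ⟶ Y)

/-- terminal objects -/
def IsT (T : D) : Prop := ∀ Y : D, ∃ f : Y ⟶ T, ∀ g : Y ⟶ T, g = f

/-- points -/
def IsPt (U : D) : Prop := ¬ IsE U ∧ ∀ (V : D) (v : V ⟶ U), ¬ IsE V → ∃ s : U ⟶ V, s ≫ v = 𝟙 U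

/-- binary coproducts -/
def IsCop {Y₀ Y₁ Y : D} (j₀ : Y₀ ⟶ Y) (j₁ : Y₁ ⟶ Y) : Prop :=
  ∀ (Z : D) (a : Y₀ ⟶ Z) (b : Y₁ ⟶ Z), ∃! h : Y ⟶ Z, j₀ ≫ h = a ∧ j₁ ≫ h = b

/-- decidable `ℤ`-torsors over the terminal object -/
structure IsTors (X : D) (τ : Aut X) : Prop where
  ne : ∀ U, IsPt U → Nonempty (U ⟶ X)
  tr : ∀ U, IsPt U → ∀ φ ψ : U ⟶ X, ∃! n : ℤ, ψ = φ ≫ (τ ^ n).hom
  dec : ∀ (Y : D) (p q : Y ⟶ X), ∃ (Y₀ Y₁ : D) (j₀ : Y₀ ⟶ Y) (j₁ : Y₁ ⟶ Y), IsCop j₀ j₁ ∧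
    j₀ ≫ p = j₀ ≫ q ∧ ∀ (Z : D) (u : Z ⟶ Y₁), u ≫ j₁ ≫ p = u ≫ j₁ ≫ q → IsE Z
  coeq : ∀ (Y : D) (g : X ⟶ Y), τ.hom ≫ g = g → ∀ T, IsT T → ∃ h : T ⟶ Y, ∀ p : X ⟶ T, p ≫ h = g

/-- the holonomies of a torsor at a point -/
def Pers (X : D) (τ : Aut X) (U : D) : Set ℤ :=
  {n | ∃ (α : U ⟶ U) (φ : U ⟶ X), α ≫ φ = φ ≫ (τ ^ n).hom}

theorem IsE.iso {Z Z' : D} (h : IsE Z) (i : Z ≅ Z') : IsE Z' :=
  fun Y => (h Y).map (fun f => i.inv ≫ f)

theorem IsPt.iso {U U' : D} (h : IsPt U) (i : U ≅ U') : IsPt U' := by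
  refine ⟨fun h' => h.1 (h'.iso i.symm), fun V v hV => ?_⟩
  obtain ⟨s, hs⟩ := h.2 V (v ≫ i.inv) hV
  refine ⟨i.inv ≫ s, ?_⟩
  have : s ≫ v = i.hom := by
    rw [← Category.assoc, Iso.comp_inv_eq, Category.id_comp] at hs
    exact hs
  rw [Category.assoc, this, Iso.inv_hom_id]

theorem Pers.iso {X : D} {τ : Aut X} {U U' : D} (i : U ≅ U') : Pers X τ U ⊆ Pers X τ U' := by
  rintro n ⟨α, φ, h⟩
  refine ⟨i.inv ≫ α ≫ i.hom, i.inv ≫ φ, ?_⟩
  simp [h]

end Defs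

section Transport

variable {D : Type u₁} [Category.{v₁} D] {D' : Type u₂} [Category.{v₂} D'] (F : D ⥤ D')
  [F.IsEquivalence]

theorem isE_iff {Z : D} : IsE (F.obj Z) ↔ IsE Z := by
  constructor
  · intro h Y
    exact (h (F.obj Y)).map F.preimage
  · intro h Y'
    exact (h (F.objPreimage Y')).map (fun f => F.map f ≫ (F.objObjPreimageIso Y').hom)

theorem isT_obj {T : D} (h : IsT T) : IsT (F.obj T) := by
  intro Y'
  obtain ⟨f, hf⟩ := h (F.objPreimage Y')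
  refine ⟨(F.objObjPreimageIso Y').inv ≫ F.map f, fun g => ?_⟩
  rw [← hf (F.preimage ((F.objObjPreimageIso Y').hom ≫ g))]
  simp

theorem isT_of {T : D} (h : IsT (F.obj T)) : IsT T := by
  intro Y
  obtain ⟨f, hf⟩ := h (F.obj Y)
  refine ⟨F.preimage f, fun g => ?_⟩
  apply F.map_injective
  rw [hf (F.map g)]
  simp

theorem IsT.iso {T T' : D} (h : IsT T) (i : T ≅ T') : IsT T' := by
  intro Y
  obtain ⟨f, hf⟩ := h Y
  refine ⟨f ≫ i.hom, fun g => ?_⟩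
  rw [← hf (g ≫ i.inv)]
  simp

theorem isPt_obj {U : D} (h : IsPt U) : IsPt (F.obj U) := by
  refine ⟨fun h' => h.1 ((isE_iff F).1 h'), fun V' v' hV' => ?_⟩
  obtain ⟨s, hs⟩ := h.2 (F.objPreimage V') (F.preimage ((F.objObjPreimageIso V').hom ≫ v'))
    (fun h' => hV' (((isE_iff F).2 h').iso (F.objObjPreimageIso V')))
  refine ⟨F.map s ≫ (F.objObjPreimageIso V').hom, ?_⟩
  have := congrArg F.map hs
  simpa using this

theorem isPt_of {U : D} (h : IsPt (F.obj U)) : IsPt U := by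
  refine ⟨fun h' => h.1 ((isE_iff F).2 h'), fun V v hV => ?_⟩
  obtain ⟨s, hs⟩ := h.2 (F.obj V) (F.map v) (fun h' => hV ((isE_iff F).1 h'))
  refine ⟨F.preimage s, ?_⟩
  apply F.map_injective
  simpa using hs

theorem isCop_obj {Y₀ Y₁ Y : D} {j₀ : Y₀ ⟶ Y} {j₁ : Y₁ ⟶ Y} (h : IsCop j₀ j₁) :
    IsCop (F.map j₀) (F.map j₁) := by
  intro Z' a b
  let i := F.objObjPreimageIso Z'
  obtain ⟨g, ⟨h1, h2⟩, h3⟩ := h (F.objPreimage Z') (F.preimage (a ≫ i.inv)) (F.preimage (b ≫ i.inv))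
  refine ⟨F.map g ≫ i.hom, ⟨?_, ?_⟩, ?_⟩
  · have := congrArg F.map h1
    rw [F.map_comp, F.map_preimage] at this
    rw [← Category.assoc, this]; simp
  · have := congrArg F.map h2
    rw [F.map_comp, F.map_preimage] at this
    rw [← Category.assoc, this]; simp
  · rintro g' ⟨h4, h5⟩
    have := h3 (F.preimage (g' ≫ i.inv)) ⟨F.map_injective (by simp [← h4]),
      F.map_injective (by simp [← h5])⟩
    rw [← this]; simp

theorem IsCop.iso {Y₀ Y₁ Y Y' : D} {j₀ : Y₀ ⟶ Y} {j₁ : Y₁ ⟶ Y} (h : IsCop j₀ j₁) (i : Y ≅ Y') :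
    IsCop (j₀ ≫ i.hom) (j₁ ≫ i.hom) := by
  intro Z a b
  obtain ⟨g, ⟨h1, h2⟩, h3⟩ := h Z a b
  refine ⟨i.inv ≫ g, ⟨by simp [h1], by simp [h2]⟩, ?_⟩
  rintro g' ⟨h4, h5⟩
  rw [← h3 (i.hom ≫ g') ⟨by rw [← h4]; simp, by rw [← h5]; simp⟩]
  simp

theorem map_zpow_hom {X : D} (τ : Aut X) (n : ℤ) :
    ((F.mapAut X τ) ^ n).hom = F.map (τ ^ n).hom := by
  rw [← map_zpow]
  rfl

theorem isTors_obj {X : D} {τ : Aut X} (h : IsTors X τ) : IsTors (F.obj X) (F.mapAut X τ) where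
  ne U' hU' := by
    obtain ⟨f⟩ := h.ne (F.objPreimage U') (isPt_of F (hU'.iso (F.objObjPreimageIso U').symm))
    exact ⟨(F.objObjPreimageIso U').inv ≫ F.map f⟩
  tr U' hU' φ ψ := by
    let i := F.objObjPreimageIso U'
    obtain ⟨n, h1, h2⟩ := h.tr (F.objPreimage U') (isPt_of F (hU'.iso i.symm))
      (F.preimage (i.hom ≫ φ)) (F.preimage (i.hom ≫ ψ))
    refine ⟨n, ?_, ?_⟩
    · have := congrArg F.map h1
      rw [F.map_comp, F.map_preimage, F.map_preimage, Category.assoc,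
        ← map_zpow_hom F τ n] at this
      exact (cancel_epi i.hom).1 this
    · intro m hm
      apply h2
      apply F.map_injective
      rw [F.map_comp, F.map_preimage, F.map_preimage, ← map_zpow_hom F τ m, Category.assoc, ← hm]
  dec Y' p q := by
    let i := F.objObjPreimageIso Y'
    obtain ⟨Y₀, Y₁, j₀, j₁, h1, h2, h3⟩ := h.dec (F.objPreimage Y') (F.preimage (i.hom ≫ p))
      (F.preimage (i.hom ≫ q))
    refine ⟨F.obj Y₀, F.obj Y₁, F.map j₀ ≫ i.hom, F.map j₁ ≫ i.hom, (isCop_obj F h1).iso i, ?_, ?_⟩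
    · have := congrArg F.map h2
      simpa using this
    · intro Z' u hu
      let k := F.objObjPreimageIso Z'
      have := h3 (F.objPreimage Z') (F.preimage (k.hom ≫ u)) (F.map_injective (by
        simp only [F.map_comp, F.map_preimage]
        simp only [Category.assoc] at hu ⊢
        rw [hu]))
      exact ((isE_iff F).2 this).iso k
  coeq Y' g hg T' hT' := by
    let i := F.objObjPreimageIso Y'
    let k := F.objObjPreimageIso T'
    obtain ⟨f, hf⟩ := h.coeq (F.objPreimage Y') (F.preimage (g ≫ i.inv)) (F.map_injective (by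
      rw [F.map_comp, F.map_preimage]
      have h' : F.map τ.hom ≫ g = g := hg
      rw [← Category.assoc, h'])) (F.objPreimage T') (isT_of F (hT'.iso k.symm))
    refine ⟨k.inv ≫ F.map f ≫ i.hom, fun p => ?_⟩
    have := congrArg F.map (hf (F.preimage (p ≫ k.inv)))
    rw [F.map_comp, F.map_preimage, F.map_preimage] at this
    have h2 : (p ≫ k.inv) ≫ F.map f ≫ i.hom = g := by
      rw [← Category.assoc, this]; simp
    simpa using h2

theorem pers_obj {X : D} {τ : Aut X} {U : D} :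
    Pers (F.obj X) (F.mapAut X τ) (F.obj U) = Pers X τ U := by
  ext n
  constructor
  · rintro ⟨α, φ, h⟩
    refine ⟨F.preimage α, F.preimage φ, F.map_injective ?_⟩
    rw [map_zpow_hom] at h
    simpa using h
  · rintro ⟨α, φ, h⟩
    refine ⟨F.map α, F.map φ, ?_⟩
    rw [map_zpow_hom, ← F.map_comp, ← F.map_comp, h]

end Transport

end ParrySullivan
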