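import Mathlib

/-!
Directed graphs, diagrams satisfying the coproduct condition, irreducibility, and the
Parry-Sullivan number.
-/

open CategoryTheory

namespace ParrySullivan

universe v u

/-- A directed graph: vertices, edges, source and target maps. -/
structure DGraph where
  /-- vertices -/
  V : Type
  /-- edges -/
  E : Type
  /-- source -/
  s : E → V
  /-- target -/
  t : E → V

/-- A diagram of shape `G` in the category `C`: an object for each vertex and a morphism
`D_{s(e)} ⟶ D_{t(e)}` for each edge `e`. -/
structure Diagram (C : Type u) [Category.{v} C] (G : DGraph) where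
  /-- the objects -/
  obj : G.V → C
  /-- the morphisms -/
  map : ∀ e : G.E, obj (G.s e) ⟶ obj (G.t e)

variable {C : Type u} [Category.{v} C] {G : DGraph}

/-- For an edge `e` with target `x`, the morphism `D_e` as a morphism `D_{s(e)} ⟶ D_x`. -/
def Diagram.mapTo (D : Diagram C G) {x : G.V} (e : {e : G.E // G.t e = x}) :
    D.obj (G.s e.1) ⟶ D.obj x :=
  D.map e.1 ≫ eqToHom (congrArg D.obj e.2)

/-- The morphisms `(D_e | t(e) = x)` make `D_x` a coproduct of `(D_{s(e)} | t(e) = x)`. -/
def Diagram.IsCoproductAt (D : Diagram C G) (x : G.V) : Prop :=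
  Nonempty (Limits.IsColimit (Limits.Cofan.mk (D.obj x)
    (fun e : {e : G.E // G.t e = x} => D.mapTo e)))

variable (C G) in
/-- The diagrams of shape `G` in `C` satisfying the coproduct condition at every vertex which
is not a source. -/
structure DiagCop extends Diagram C G where
  /-- the coproduct condition -/
  cop : ∀ x : G.V, (∃ e, G.t e = x) → toDiagram.IsCoproductAt x

/-- A morphism of diagrams: a family of morphisms commuting with the morphisms `D_e`. -/
@[ext] structure DiagCop.Hom (D D' : DiagCop C G) where
  /-- the components -/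
  app : ∀ x : G.V, D.obj x ⟶ D'.obj x
  /-- `f_{t(e)} ∘ D_e = D'_e ∘ f_{s(e)}` -/
  comm : ∀ e : G.E, D.map e ≫ app (G.t e) = app (G.s e) ≫ D'.map e

/-- The category `Diag^⊔_C(G)`. -/
instance : Category (DiagCop C G) where
  Hom := DiagCop.Hom
  id D := ⟨fun x => 𝟙 (D.obj x), fun e => by simp⟩
  comp f g := ⟨fun x => f.app x ≫ g.app x, fun e => by
    rw [← Category.assoc, f.comm, Category.assoc, g.comm, Category.assoc]⟩
  id_comp f := DiagCop.Hom.ext (funext fun x => Category.id_comp _)
  comp_id f := DiagCop.Hom.ext (funext fun x => Category.comp_id _)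
  assoc f g h := DiagCop.Hom.ext (funext fun x => Category.assoc _ _ _)

/-- Irreducible: every vertex can be reached from every vertex by a directed path (of length
`≥ 0`). -/
def Irred (G : DGraph) : Prop :=
  ∀ x y : G.V, Relation.ReflTransGen (fun a b => ∃ e, G.s e = a ∧ G.t e = b) x y

/-- The adjacency matrix: the number of edges from `x` to `y`. -/
noncomputable def adj (G : DGraph) : Matrix G.V G.V ℤ :=
  Matrix.of fun x y => (Nat.card {e : G.E // G.s e = x ∧ G.t e = y} : ℤ)

/-- The Parry-Sullivan number `det (I - A_G)`. -/
noncomputable def PS (G : DGraph) [Fintype G.V] [DecidableEq G.V] : ℤ := (1 - adj G).det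

end ParrySullivan
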