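import Pool.Agent.R708.PS.GS

/-!
For a graph without sources, the diagrams of topological spaces satisfying the coproduct
condition form a category equivalent to the category of `G`-spaces.
-/

open CategoryTheory Limits

namespace ParrySullivan

/-! ### coproducts of topological spaces -/

theorem top_cofan {ι : Type} {A : ι → TopCat.{0}} {B : TopCat.{0}} (f : ∀ i, A i ⟶ B)
    (hc : Nonempty (IsColimit (Cofan.mk B f))) :
    (∀ b : B, ∃ i, ∃ a : A i, (f i).hom a = b) ∧
    (∀ i (a : A i) j (a' : A j), (f i).hom a = (f j).hom a' → (⟨i, a⟩ : Σ i, A i) = ⟨j, a'⟩) ∧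
    (∀ i, IsOpenMap (f i).hom) := by
  obtain ⟨hc⟩ := hc
  let Z : TopCat.{0} := TopCat.of (Σ i, A i)
  let d : B ⟶ Z := Cofan.IsColimit.desc hc (fun i => TopCat.sigmaι A i)
  have hd : ∀ i, f i ≫ d = TopCat.sigmaι A i := fun i => Cofan.IsColimit.fac hc _ i
  have hd' : ∀ i (a : A i), d.hom ((f i).hom a) = (⟨i, a⟩ : Σ i, A i) := by
    intro i a
    exact congrArg (fun g : A i ⟶ Z => g.hom a) (hd i)
  let k : Z ⟶ B := TopCat.ofHom ⟨fun p => (f p.1).hom p.2,
    continuous_sigma (fun i => (f i).hom.continuous)⟩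
  have hk : d ≫ k = 𝟙 B := by
    apply Cofan.IsColimit.hom_ext hc
    intro i
    show f i ≫ d ≫ k = f i ≫ 𝟙 B
    rw [← Category.assoc, hd, Category.comp_id]
    rfl
  have hk' : ∀ b : B, (f (d.hom b).1).hom (d.hom b).2 = b := fun b =>
    congrArg (fun g : B ⟶ B => g.hom b) hk
  refine ⟨fun b => ⟨_, _, hk' b⟩, ?_, ?_⟩
  · intro i a j a' h
    rw [← hd', ← hd', h]
  · intro i O hO
    have h1 : (f i).hom '' O = d.hom ⁻¹' (Sigma.mk i '' O) := by
      ext b
      constructor
      · rintro ⟨a, ha, rfl⟩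
        exact ⟨a, ha, (hd' i a).symm⟩
      · rintro ⟨a, ha, h⟩
        refine ⟨a, ha, ?_⟩
        rw [← hk' b, ← h]
    rw [h1]
    exact (isOpenMap_sigmaMk (σ := fun i => (A i : Type)) _ hO).preimage d.hom.continuous

theorem top_cofan_of {ι : Type} {A : ι → TopCat.{0}} {B : TopCat.{0}} (f : ∀ i, A i ⟶ B)
    (h1 : ∀ b : B, ∃ i, ∃ a : A i, (f i).hom a = b)
    (h2 : ∀ i (a : A i) j (a' : A j), (f i).hom a = (f j).hom a' → (⟨i, a⟩ : Σ i, A i) = ⟨j, a'⟩)
    (h3 : ∀ i, IsOpenMap (f i).hom) : Nonempty (IsColimit (Cofan.mk B f)) := by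
  have hex : ∀ b : B, ∃ p : Σ i, A i, (f p.1).hom p.2 = b := fun b => by
    obtain ⟨i, a, h⟩ := h1 b
    exact ⟨⟨i, a⟩, h⟩
  choose d hd using hex
  have hd' : ∀ i (a : A i), d ((f i).hom a) = ⟨i, a⟩ := fun i a => h2 _ _ _ _ (hd _)
  have hdc : Continuous d := by
    refine ⟨fun O hO => ?_⟩
    have h4 : d ⁻¹' O = ⋃ i, (f i).hom '' ((fun a => (⟨i, a⟩ : Σ i, A i)) ⁻¹' O) := by
      ext b
      simp only [Set.mem_preimage, Set.mem_iUnion, Set.mem_image]
      constructor
      · intro h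
        exact ⟨(d b).1, (d b).2, h, hd b⟩
      · rintro ⟨i, a, ha, rfl⟩
        rw [hd']; exact ha
    rw [h4]
    exact isOpen_iUnion (fun i => h3 i _ (hO.preimage
      (continuous_sigmaMk (σ := fun i => (A i : Type)))))
  refine ⟨Cofan.IsColimit.mk _ (fun s => TopCat.ofHom ⟨fun b => (s.inj (d b).1).hom (d b).2, ?_⟩)
    ?_ ?_⟩
  · have : Continuous (fun p : Σ i, A i => (s.inj p.1).hom p.2) :=
      continuous_sigma (fun i => (s.inj i).hom.continuous)
    exact this.comp hdc
  · intro s i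
    ext a
    show (s.inj (d ((f i).hom a)).1).hom (d ((f i).hom a)).2 = (s.inj i).hom a
    rw [hd']
  · intro s m hm
    ext b
    show m.hom b = (s.inj (d b).1).hom (d b).2
    rw [← hm]
    show m.hom b = m.hom ((f (d b).1).hom (d b).2)
    rw [hd]

variable {G : DGraph}

abbrev DT (G : DGraph) := DiagCop TopCat.{0} G

theorem mapTo_rfl (D : DT G) (e : G.E) : D.mapTo ⟨e, rfl⟩ = D.map e := by
  simp [Diagram.mapTo]

/-- total space of a diagram -/
abbrev Tot (D : DT G) : Type := Σ x : G.V, D.obj x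

/-- the edge space of a diagram -/
abbrev Edg (D : DT G) : Type := Σ e : G.E, D.obj (G.s e)

/-- the comparison map -/
def Phi (D : DT G) (p : Edg D) : Tot D := ⟨G.t p.1, (D.map p.1).hom p.2⟩

theorem mapTo_eq (D : DT G) {x : G.V} (e : {e : G.E // G.t e = x}) (y : D.obj (G.s e.1)) :
    (⟨x, (D.mapTo e).hom y⟩ : Tot D) = Phi D ⟨e.1, y⟩ := by
  obtain ⟨e, rfl⟩ := e
  rw [mapTo_rfl]
  rfl

theorem Phi_bij (hG : ∀ x, ∃ e, G.t e = x) (D : DT G) : Function.Bijective (Phi D) := by
  constructor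
  · rintro ⟨e, y⟩ ⟨e', y'⟩ h
    have ht : G.t e = G.t e' := congrArg Sigma.fst h
    obtain ⟨-, h2, -⟩ := top_cofan _ (D.cop (G.t e') (hG _))
    rw [← mapTo_eq D (⟨e, ht⟩ : {e : G.E // G.t e = G.t e'}) y,
      ← mapTo_eq D (⟨e', rfl⟩ : {e : G.E // G.t e = G.t e'}) y'] at h
    have h3 := eq_of_heq (Sigma.mk.inj h).2
    have h4 := h2 _ _ _ _ h3
    exact congrArg (fun p : (Σ e : {e : G.E // G.t e = G.t e'}, D.obj (G.s e.1)) =>
      (⟨p.1.1, p.2⟩ : Edg D)) h4
  · rintro ⟨x, z⟩
    obtain ⟨h1, -, -⟩ := top_cofan _ (D.cop x (hG _))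
    obtain ⟨e, y, rfl⟩ := h1 z
    exact ⟨⟨e.1, y⟩, (mapTo_eq D e y).symm⟩

theorem Phi_cont (D : DT G) : Continuous (Phi D) :=
  continuous_sigma (fun e => (continuous_sigmaMk (σ := fun x => (D.obj x : Type))).comp
    (D.map e).hom.continuous)

theorem Phi_open (D : DT G) : IsOpenMap (Phi D) := by
  rw [isOpenMap_sigma]
  intro e
  obtain ⟨-, -, h3⟩ := top_cofan _ (D.cop (G.t e) ⟨e, rfl⟩)
  have h4 := h3 ⟨e, rfl⟩
  rw [mapTo_rfl] at h4
  exact (isOpenMap_sigmaMk (σ := fun x => (D.obj x : Type))).comp h4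

/-- the comparison homeomorphism -/
noncomputable def PhiH (hG : ∀ x, ∃ e, G.t e = x) (D : DT G) : Edg D ≃ₜ Tot D :=
  (Equiv.ofBijective _ (Phi_bij hG D)).toHomeomorphOfContinuousOpen (Phi_cont D) (Phi_open D)

theorem PhiH_apply (hG : ∀ x, ∃ e, G.t e = x) (D : DT G) (p : Edg D) :
    PhiH hG D p = Phi D p := rfl

/-- the map from the edge space to the total space -/
def src (D : DT G) (p : Edg D) : Tot D := ⟨G.s p.1, p.2⟩

theorem src_cont (D : DT G) : Continuous (src D) :=
  continuous_sigma (fun _ => continuous_sigmaMk (σ := fun x => (D.obj x : Type)))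

theorem src_open (D : DT G) : IsOpenMap (src D) := by
  rw [isOpenMap_sigma]
  intro e
  exact isOpenMap_sigmaMk (σ := fun x => (D.obj x : Type))

/-- the `G`-space of a diagram -/
noncomputable def toGS (hG : ∀ x, ∃ e, G.t e = x) (D : DT G) : GS G where
  X := Tot D
  lab x := ((PhiH hG D).symm x).1
  sh x := src D ((PhiH hG D).symm x)
  lab_cont := by
    have : Continuous (fun p : Edg D => p.1) := continuous_sigma (fun _ => continuous_const)
    exact this.comp (PhiH hG D).symm.continuous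
  sh_cont := (src_cont D).comp (PhiH hG D).symm.continuous
  sh_open := (src_open D).comp (PhiH hG D).symm.isOpenMap
  compat x := by
    have h : ∀ x : Tot D, G.t ((PhiH hG D).symm x).1 = x.1 := by
      intro x
      obtain ⟨p, rfl⟩ := (PhiH hG D).surjective x
      rw [Homeomorph.symm_apply_apply]
      rfl
    rw [h]
    rfl
  ex e y h := by
    have h' : ∀ x : Tot D, G.t ((PhiH hG D).symm x).1 = x.1 := by
      intro x
      obtain ⟨p, rfl⟩ := (PhiH hG D).surjective x
      rw [Homeomorph.symm_apply_apply]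
      rfl
    rw [h'] at h
    obtain ⟨v, z⟩ := y
    dsimp only at h
    subst h
    exact ⟨PhiH hG D ⟨e, z⟩, by rw [Homeomorph.symm_apply_apply],
      by rw [Homeomorph.symm_apply_apply]; rfl⟩
  inj x x' h h' := by
    apply (PhiH hG D).symm.injective
    revert h h'
    generalize (PhiH hG D).symm x = p
    generalize (PhiH hG D).symm x' = p'
    obtain ⟨e, y⟩ := p
    obtain ⟨e', y'⟩ := p'
    intro h h'
    dsimp only at h
    subst h
    have h3 : y = y' := eq_of_heq (Sigma.mk.inj h').2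
    rw [h3]

theorem toGS_lab (hG : ∀ x, ∃ e, G.t e = x) (D : DT G) (p : Edg D) :
    (toGS hG D).lab (Phi D p) = p.1 := by
  show ((PhiH hG D).symm (PhiH hG D p)).1 = p.1
  rw [Homeomorph.symm_apply_apply]

theorem toGS_sh (hG : ∀ x, ∃ e, G.t e = x) (D : DT G) (p : Edg D) :
    (toGS hG D).sh (Phi D p) = src D p := by
  show src D ((PhiH hG D).symm (PhiH hG D p)) = src D p
  rw [Homeomorph.symm_apply_apply]

theorem toGS_fst (hG : ∀ x, ∃ e, G.t e = x) (D : DT G) (x : Tot D) :
    G.t ((toGS hG D).lab x) = x.1 := by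
  obtain ⟨p, rfl⟩ := (Phi_bij hG D).2 x
  rw [toGS_lab]
  rfl

/-- the map on total spaces -/
def totMap {D D' : DT G} (f : D ⟶ D') (x : Tot D) : Tot D' := ⟨x.1, (f.app x.1).hom x.2⟩

theorem totMap_Phi {D D' : DT G} (f : D ⟶ D') (p : Edg D) :
    totMap f (Phi D p) = Phi D' ⟨p.1, (f.app _).hom p.2⟩ := by
  have h := congrArg (fun g : D.obj (G.s p.1) ⟶ D'.obj (G.t p.1) => g.hom p.2) (f.comm p.1)
  exact congrArg (Sigma.mk (G.t p.1)) h

/-- the functor from diagrams to `G`-spaces -/
noncomputable def toGSF (hG : ∀ x, ∃ e, G.t e = x) : DT G ⥤ GS G where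
  obj D := toGS hG D
  map {D D'} f :=
    { f := totMap f
      cont := continuous_sigma (fun x => continuous_sigmaMk.comp (f.app x).hom.continuous)
      lab := fun x => by
        obtain ⟨p, rfl⟩ := (Phi_bij hG D).2 x
        rw [totMap_Phi, toGS_lab, toGS_lab]
      sh := fun x => by
        obtain ⟨p, rfl⟩ := (Phi_bij hG D).2 x
        rw [totMap_Phi, toGS_sh, toGS_sh]
        rfl }
  map_id D := by
    apply GS.hom_ext
    intro x
    rfl
  map_comp f g := by
    apply GS.hom_ext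
    intro x
    rfl

theorem toGSF_f (hG : ∀ x, ∃ e, G.t e = x) {D D' : DT G} (f : D ⟶ D') (x : Tot D) :
    ((toGSF hG).map f).f x = totMap f x := rfl

instance toGSF_faithful (hG : ∀ x, ∃ e, G.t e = x) : (toGSF hG).Faithful where
  map_injective {D D'} f g h := by
    apply DiagCop.Hom.ext
    funext x
    ext y
    have h1 : totMap f ⟨x, y⟩ = totMap g ⟨x, y⟩ :=
      congrArg (fun k : toGS hG D ⟶ toGS hG D' => k.f ⟨x, y⟩) h
    exact eq_of_heq (Sigma.mk.inj h1).2

instance toGSF_full (hG : ∀ x, ∃ e, G.t e = x) : (toGSF hG).Full where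
  map_surjective {D D'} ψ := by
    have h1 : ∀ (x : G.V) (y : D.obj x), ∃ y' : D'.obj x, ψ.f ⟨x, y⟩ = (⟨x, y'⟩ : Tot D') := by
      intro x y
      have h2 : (ψ.f ⟨x, y⟩ : Tot D').1 = x := by
        have h3 := toGS_fst hG D' (ψ.f ⟨x, y⟩)
        have h4 : (toGS hG D').lab (ψ.f ⟨x, y⟩) = (toGS hG D).lab ⟨x, y⟩ := ψ.lab _
        rw [h4, toGS_fst] at h3
        exact h3.symm
      generalize ψ.f ⟨x, y⟩ = z at h2
      obtain ⟨v, w⟩ := z
      dsimp only at h2
      subst h2
      exact ⟨w, rfl⟩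
    choose φ hφ using h1
    have hcont : ∀ x, Continuous (φ x) := by
      intro x
      have h2 : Continuous (fun y => (⟨x, φ x y⟩ : Tot D')) := by
        have h3 : (fun y => (⟨x, φ x y⟩ : Tot D')) = fun y => ψ.f ⟨x, y⟩ := by
          funext y; exact (hφ x y).symm
        rw [h3]
        exact ψ.cont.comp continuous_sigmaMk
      exact (Topology.IsOpenEmbedding.sigmaMk (σ := fun x => D'.obj x) (i := x)).continuous_iff.2 h2
    let F : D ⟶ D' :=
      { app := fun x => TopCat.ofHom ⟨φ x, hcont x⟩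
        comm := fun e => by
          ext y
          show φ (G.t e) ((D.map e).hom y) = (D'.map e).hom (φ (G.s e) y)
          have h2 : ψ.f (Phi D ⟨e, y⟩) = Phi D' ⟨e, φ (G.s e) y⟩ := by
            apply (toGS hG D').inj
            · rw [toGS_lab]
              exact (ψ.lab _).trans (toGS_lab hG D ⟨e, y⟩)
            · rw [toGS_sh]
              have h3 : (toGS hG D).sh (Phi D ⟨e, y⟩) = ⟨G.s e, y⟩ := toGS_sh hG D ⟨e, y⟩
              exact (ψ.sh _).trans ((congrArg ψ.f h3).trans (hφ (G.s e) y))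
          have h4 : (⟨G.t e, φ (G.t e) ((D.map e).hom y)⟩ : Tot D') =
              ⟨G.t e, (D'.map e).hom (φ (G.s e) y)⟩ := (hφ _ _).symm.trans h2
          exact eq_of_heq (Sigma.mk.inj h4).2 }
    refine ⟨F, ?_⟩
    apply GS.hom_ext
    rintro ⟨x, y⟩
    exact (hφ x y).symm

/-! ### essential surjectivity -/

/-- a bijective open morphism of `G`-spaces is an isomorphism -/
noncomputable def isoOf {X Y : GS G} (f : X ⟶ Y) (hb : Function.Bijective f.f)
    (ho : IsOpenMap f.f) : X ≅ Y where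
  hom := f
  inv :=
    { f := (Equiv.ofBijective _ hb).symm
      cont := ((Equiv.ofBijective _ hb).toHomeomorphOfContinuousOpen f.cont ho).symm.continuous
      lab := fun y => by
        obtain ⟨x, rfl⟩ := hb.2 y
        have h : (Equiv.ofBijective _ hb).symm (f.f x) = x :=
          (Equiv.ofBijective _ hb).symm_apply_apply x
        rw [h, f.lab]
      sh := fun y => by
        obtain ⟨x, rfl⟩ := hb.2 y
        have h : ∀ x, (Equiv.ofBijective _ hb).symm (f.f x) = x :=
          (Equiv.ofBijective _ hb).symm_apply_apply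
        rw [f.sh, h, h] }
  hom_inv_id := by
    apply GS.hom_ext
    intro x
    exact (Equiv.ofBijective _ hb).symm_apply_apply x
  inv_hom_id := by
    apply GS.hom_ext
    intro x
    exact (Equiv.ofBijective _ hb).apply_symm_apply x

section Ess

variable (X : GS G)

/-- fibres -/
abbrev fib (x : G.V) : Type := {y : X.X // G.t (X.lab y) = x}

theorem cons_ex (e : G.E) (y : fib X (G.s e)) : ∃ x : X.X, X.lab x = e ∧ X.sh x = y.1 :=
  X.ex e y.1 y.2.symm

/-- prepending an edge -/
noncomputable def consF (e : G.E) (y : fib X (G.s e)) : fib X (G.t e) :=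
  ⟨Classical.choose (cons_ex X e y), by rw [(Classical.choose_spec (cons_ex X e y)).1]⟩

theorem consF_lab (e : G.E) (y : fib X (G.s e)) : X.lab (consF X e y).1 = e :=
  (Classical.choose_spec (cons_ex X e y)).1

theorem consF_sh (e : G.E) (y : fib X (G.s e)) : X.sh (consF X e y).1 = y.1 :=
  (Classical.choose_spec (cons_ex X e y)).2

theorem consF_cont (e : G.E) : Continuous (consF X e) := by
  refine Continuous.subtype_mk ?_ _
  refine ⟨fun O hO => ?_⟩
  have h1 : IsOpen (X.sh '' (O ∩ X.lab ⁻¹' {e})) :=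
    X.sh_open _ (hO.inter ((isOpen_discrete _).preimage X.lab_cont))
  convert h1.preimage (continuous_subtype_val (p := fun y => G.t (X.lab y) = G.s e)) using 1
  ext y
  constructor
  · intro h
    exact ⟨(consF X e y).1, ⟨h, consF_lab X e y⟩, consF_sh X e y⟩
  · rintro ⟨x, ⟨hx, hx'⟩, h⟩
    have : (consF X e y).1 = x := X.inj _ _ (by rw [consF_lab]; exact hx'.symm)
      (by rw [consF_sh, h])
    show (consF X e y).1 ∈ O
    rw [this]; exact hx

theorem consF_open (e : G.E) : IsOpenMap (consF X e) := by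
  intro O hO
  obtain ⟨O', hO', rfl⟩ := isOpen_induced_iff.1 hO
  have h1 : IsOpen ((X.sh ⁻¹' O') ∩ X.lab ⁻¹' {e}) :=
    (hO'.preimage X.sh_cont).inter ((isOpen_discrete _).preimage X.lab_cont)
  convert h1.preimage (continuous_subtype_val (p := fun y => G.t (X.lab y) = G.t e)) using 1
  ext x
  constructor
  · rintro ⟨y, hy, rfl⟩
    exact ⟨by show X.sh (consF X e y).1 ∈ O'; rw [consF_sh]; exact hy, consF_lab X e y⟩
  · rintro ⟨h2, h3⟩
    have h3' : X.lab x.1 = e := h3
    refine ⟨⟨X.sh x.1, by rw [← X.compat, h3']⟩, h2, ?_⟩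
    apply Subtype.ext
    apply X.inj
    · rw [consF_lab]; exact h3'.symm
    · rw [consF_sh]

/-- the diagram of a `G`-space -/
noncomputable def ofGS0 : Diagram TopCat.{0} G where
  obj x := TopCat.of (fib X x)
  map e := TopCat.ofHom ⟨consF X e, consF_cont X e⟩

theorem ofGS0_mapTo {x : G.V} (e : {e : G.E // G.t e = x}) (y : fib X (G.s e.1)) :
    (show fib X x from ((ofGS0 X).mapTo e).hom y).1 = (consF X e.1 y).1 := by
  obtain ⟨e, rfl⟩ := e
  have : (ofGS0 X).mapTo ⟨e, rfl⟩ = (ofGS0 X).map e := by simp [Diagram.mapTo]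
  rw [this]
  rfl

/-- the diagram of a `G`-space -/
noncomputable def ofGS : DT G where
  toDiagram := ofGS0 X
  cop x _ := by
    apply top_cofan_of
    · intro b
      obtain ⟨b, hb⟩ := b
      subst hb
      refine ⟨⟨X.lab b, rfl⟩, ⟨X.sh b, (X.compat b).symm⟩, ?_⟩
      apply Subtype.ext
      refine (ofGS0_mapTo X _ _).trans ?_
      apply X.inj
      · exact consF_lab X _ _
      · exact consF_sh X _ _
    · intro i a j a' h
      have h1 : (consF X i.1 a).1 = (consF X j.1 a').1 := by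
        rw [← ofGS0_mapTo X i a, ← ofGS0_mapTo X j a']
        exact congrArg Subtype.val h
      have h2 : i = j := by
        apply Subtype.ext
        rw [← consF_lab X i.1 a, h1, consF_lab]
      subst h2
      have h3 : a = a' := by
        apply Subtype.ext
        rw [← consF_sh X i.1 a, h1, consF_sh]
      rw [h3]
    · intro i
      obtain ⟨e, rfl⟩ := i
      have : (ofGS0 X).mapTo ⟨e, rfl⟩ = (ofGS0 X).map e := by simp [Diagram.mapTo]
      rw [this]
      exact consF_open X e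

/-- the comparison isomorphism -/
noncomputable def essIso (hG : ∀ x, ∃ e, G.t e = x) : toGS hG (ofGS X) ≅ X := by
  refine isoOf (X := toGS hG (ofGS X)) (Y := X)
    { f := fun p => (p.2 : fib X p.1).1
      cont := continuous_sigma (fun x => continuous_subtype_val)
      lab := fun p => ?_
      sh := fun p => ?_ } ⟨?_, ?_⟩ ?_
  · obtain ⟨p, rfl⟩ := (Phi_bij hG (ofGS X)).2 p
    rw [toGS_lab]
    exact consF_lab X p.1 p.2
  · obtain ⟨p, rfl⟩ := (Phi_bij hG (ofGS X)).2 p
    rw [toGS_sh]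
    exact consF_sh X p.1 p.2
  · rintro ⟨v, ⟨x, hx⟩⟩ ⟨v', ⟨x', hx'⟩⟩ h
    have h' : x = x' := h
    subst h'
    have : v = v' := hx.symm.trans hx'
    subst this
    rfl
  · intro x
    exact ⟨⟨G.t (X.lab x), ⟨x, rfl⟩⟩, rfl⟩
  · have : IsOpenMap (fun p : Tot (ofGS X) => (p.2 : fib X p.1).1) := by
      rw [isOpenMap_sigma]
      intro v
      apply IsOpen.isOpenMap_subtype_val
      exact (isOpen_discrete {e : G.E | G.t e = v}).preimage X.lab_cont
    exact this

end Ess

instance toGSF_essSurj (hG : ∀ x, ∃ e, G.t e = x) : (toGSF hG).EssSurj where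
  mem_essImage X := ⟨ofGS X, ⟨essIso X hG⟩⟩

instance toGSF_equiv (hG : ∀ x, ∃ e, G.t e = x) : (toGSF hG).IsEquivalence where

end ParrySullivan
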