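import Pool.Agent.R708.PS.Diag
import Pool.Agent.R708.PS.Block

/-!
The main theorem: the Parry-Sullivan number of an irreducible finite directed graph is an
invariant of the category `Diag^⊔_Top(G)`.
-/

open CategoryTheory

namespace ParrySullivan

theorem PS_eq (G : DGraph) [Fintype G.V] [DecidableEq G.V] [Fintype G.E] :
    ((PS G : ℤ) : ℚ) = (1 - adjQ G).det := by
  classical
  have h1 : ((PS G : ℤ) : ℚ) = ((1 - adj G).map (Int.castRingHom ℚ)).det := by
    rw [PS, ← RingHom.mapMatrix_apply, ← RingHom.map_det]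
    rfl
  rw [h1, ← Matrix.det_transpose]
  congr 1
  rw [← RingHom.mapMatrix_apply, map_sub, map_one, Matrix.transpose_sub, Matrix.transpose_one]
  congr 1
  ext u v
  rw [Matrix.transpose_apply, RingHom.mapMatrix_apply, Matrix.map_apply]
  simp only [adj, adjQ, Matrix.of_apply, Matrix.map_apply, wMat, map_sum]
  rw [Nat.card_eq_fintype_card, Fintype.card_subtype, Finset.card_filter]
  push_cast
  rw [map_sum]
  refine Finset.sum_congr rfl (fun e _ => ?_)
  by_cases h : G.s e = v ∧ G.t e = u
  · rw [if_pos h, if_pos h.symm]; simp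
  · rw [if_neg h, if_neg (fun h' => h h'.symm)]; simp

theorem noSource_of {G : DGraph} (hG : Irred G) (he : Nonempty G.E) : NoSource G := by
  intro x
  obtain ⟨e⟩ := he
  have h := hG (G.t e) x
  rcases Relation.ReflTransGen.cases_tail h with h | ⟨y, _, e', _, h2⟩
  · exact ⟨e, h.symm⟩
  · exact ⟨e', h2⟩

theorem PS_of_isEmpty (G : DGraph) [Fintype G.V] [DecidableEq G.V] (h : IsEmpty G.E) :
    PS G = 1 := by
  have : adj G = 0 := by
    ext x y
    simp [adj]
  rw [PS, this, sub_zero, Matrix.det_one]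

theorem exists_periodic (H : DGraph) [Finite H.E] (hH : NoSource H) (he : Nonempty H.E) :
    ∃ ξ : Path H, IsPer ξ := by
  obtain ⟨e⟩ := he
  obtain ⟨ξ, -⟩ := hH.exists_path (H.t e)
  obtain ⟨i, j, hij, he⟩ := Finite.exists_ne_map_eq_of_infinite (fun n : ℕ => ξ n)
  wlog hlt : i < j generalizing i j
  · exact this j i hij.symm he.symm (by omega)
  have hper : H.t ((Path.sh^[i] ξ) (j - i)) = H.t ((Path.sh^[i] ξ) 0) := by
    rw [Path.sh_iter, Path.sh_iter, Nat.sub_add_cancel hlt.le, zero_add]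
    exact congrArg H.t he.symm
  exact ⟨Path.rep (j - i) (by omega) (Path.sh^[i] ξ) hper, j - i, by omega, Path.sh_rep _ _⟩

/-- the constant diagram on a graph without edges -/
def constD (G : DGraph) (h : IsEmpty G.E) (A : TopCat.{0}) : DiagCop TopCat.{0} G where
  obj _ := A
  map e := (h.false e).elim
  cop _ hx := (h.false hx.choose).elim

theorem no_nontriv {G : DGraph} (h : IsEmpty G.E) (hV : Subsingleton G.V)
    (U : DiagCop TopCat.{0} G) (hU : IsPt U) : ¬ Nontriv U := by
  have h1 : ∀ x, Nonempty (U.obj x) := by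
    intro x
    by_contra hx
    rw [not_nonempty_iff] at hx
    apply hU.1
    intro Y
    have hx' : ∀ y, IsEmpty (U.obj y) := fun y => by
      rw [Subsingleton.elim y x]; exact hx
    refine ⟨⟨fun y => TopCat.ofHom ⟨fun a => ((hx' y).false a).elim, ⟨fun s _ => ?_⟩⟩,
      fun e => (h.false e).elim⟩⟩
    have := hx' y
    rw [Set.eq_empty_of_isEmpty ((fun a => ((hx' y).false a).elim : U.obj y → Y.obj y) ⁻¹' s)]
    exact isOpen_empty
  have h2 : Nonempty G.V := by
    by_contra hx
    rw [not_nonempty_iff] at hx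
    apply hU.1
    intro Y
    exact ⟨⟨fun y => (hx.false y).elim, fun e => (h.false e).elim⟩⟩
  obtain ⟨x₀⟩ := h2
  have y : ∀ x, U.obj x := fun x => (h1 x).some
  let P := constD G h (TopCat.of Unit)
  let v : P ⟶ U := ⟨fun x => TopCat.ofHom ⟨fun _ => y x, continuous_const⟩,
    fun e => (h.false e).elim⟩
  have hP : ¬ IsE P := by
    intro hP
    obtain ⟨f⟩ := hP (constD G h (TopCat.of Empty))
    exact ((f.app x₀).hom () : Empty).elim
  obtain ⟨s, hs⟩ := hU.2 P v hP
  have h3 : ∀ x (z : U.obj x), z = y x := by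
    intro x z
    have h4 := congrArg (fun f : U ⟶ U => (f.app x).hom z) hs
    exact h4.symm
  rintro ⟨α, hα⟩
  apply hα
  apply DiagCop.Hom.ext
  funext x
  ext z
  exact (h3 x _).trans (h3 x z).symm

theorem subsingleton_V {G : DGraph} (hG : Irred G) (h : IsEmpty G.E) : Subsingleton G.V := by
  refine ⟨fun x y => ?_⟩
  rcases Relation.ReflTransGen.cases_tail (hG x y) with h' | ⟨_, _, e, _⟩
  · exact h'.symm
  · exact (h.false e).elim

theorem mixed_false {G H : DGraph} [Finite H.E] (hG : Irred G) (hH : Irred H)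
    (hGe : IsEmpty G.E) (hHe : Nonempty H.E) (F : DiagCop TopCat.{0} H ⥤ DiagCop TopCat.{0} G)
    [F.IsEquivalence] : False := by
  have hns := noSource_of hH hHe
  obtain ⟨ξ, hξ⟩ := exists_periodic H hns hHe
  let T := toGSF (G := H) hns
  have h1 : IsPt (F.obj (T.inv.obj (GS.Upt ξ))) := isPt_obj F (isPt_obj T.inv (isPt_Upt ξ))
  have h2 : Nontriv (F.obj (T.inv.obj (GS.Upt ξ))) :=
    (nontriv_obj F).2 ((nontriv_obj T.inv).2 (nontriv_of_isPer hξ))
  exact no_nontriv hGe (subsingleton_V hG hGe) _ h1 h2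

/-- Main theorem. -/
theorem main (G H : DGraph) [Fintype G.V] [DecidableEq G.V] [Finite G.E]
    [Fintype H.V] [DecidableEq H.V] [Finite H.E] (hG : Irred G) (hH : Irred H)
    (Φ : DiagCop TopCat.{0} G ≌ DiagCop TopCat.{0} H) : PS G = PS H := by
  classical
  rcases isEmpty_or_nonempty G.E with hGe | hGe
  · rcases isEmpty_or_nonempty H.E with hHe | hHe
    · rw [PS_of_isEmpty G hGe, PS_of_isEmpty H hHe]
    · exact (mixed_false hG hH hGe hHe Φ.inverse).elim
  · rcases isEmpty_or_nonempty H.E with hHe | hHe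
    · exact (mixed_false hH hG hHe hGe Φ.functor).elim
    · have hGn := noSource_of hG hGe
      have hHn := noSource_of hH hHe
      haveI := Fintype.ofFinite G.E
      haveI := Fintype.ofFinite H.E
      have h := det_eq_of_equiv hGn hHn hH ((toGSF (G := G) hGn).inv ⋙ Φ.functor ⋙ toGSF (G := H) hHn)
      have h2 : ((PS G : ℤ) : ℚ) = ((PS H : ℤ) : ℚ) := by
        rw [PS_eq, PS_eq, h]
      exact_mod_cast h2

end ParrySullivan
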