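import Pool.Agent.R708.PS.Path

/-!
The category `GS G` of `G`-spaces: a space `X` with a continuous label `X → E` and an open
continuous shift `X → X` such that `x ↦ (lab x, sh x)` is a bijection onto
`{(e,y) | s e = t (lab y)}`.  Its basic objects: the terminal object (path space), twisted
products, and the free orbits `Upt ξ`.
-/

open CategoryTheory

namespace ParrySullivan

/-- `G`-spaces. -/
structure GS (G : DGraph) where
  /-- the space -/
  X : Type
  [top : TopologicalSpace X]
  /-- the label -/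
  lab : X → G.E
  /-- the shift -/
  sh : X → X
  lab_cont : Continuous lab
  sh_cont : Continuous sh
  sh_open : IsOpenMap sh
  compat : ∀ x, G.s (lab x) = G.t (lab (sh x))
  ex : ∀ e y, G.s e = G.t (lab y) → ∃ x, lab x = e ∧ sh x = y
  inj : ∀ x x', lab x = lab x' → sh x = sh x' → x = x'

attribute [instance] GS.top

namespace GS

variable {G : DGraph}

/-- morphisms of `G`-spaces -/
@[ext] structure Hom (X Y : GS G) where
  /-- the map -/
  f : X.X → Y.X
  cont : Continuous f
  lab : ∀ x, Y.lab (f x) = X.lab x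
  sh : ∀ x, Y.sh (f x) = f (X.sh x)

instance : Category (GS G) where
  Hom := Hom
  id X := ⟨id, continuous_id, fun _ => rfl, fun _ => rfl⟩
  comp f g := ⟨g.f ∘ f.f, g.cont.comp f.cont, fun x => (g.lab _).trans (f.lab _),
    fun x => (g.sh _).trans (congrArg g.f (f.sh x))⟩

@[ext] theorem hom_ext {X Y : GS G} {f g : X ⟶ Y} (h : ∀ x, f.f x = g.f x) : f = g :=
  Hom.ext (funext h)

@[simp] theorem comp_f {X Y Z : GS G} (f : X ⟶ Y) (g : Y ⟶ Z) (x : X.X) :
    (f ≫ g).f x = g.f (f.f x) := rfl
@[simp] theorem id_f (X : GS G) (x : X.X) : Hom.f (𝟙 X) x = x := rfl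

/-- the path of labels of a point -/
def toPath (X : GS G) (x : X.X) : Path G :=
  ⟨fun n => X.lab (X.sh^[n] x), fun n => by
    show G.s (X.lab (X.sh^[n] x)) = G.t (X.lab (X.sh^[n + 1] x))
    rw [Function.iterate_succ_apply']
    exact X.compat _⟩

theorem toPath_apply (X : GS G) (x : X.X) (n : ℕ) : X.toPath x n = X.lab (X.sh^[n] x) := rfl
@[simp] theorem toPath_zero (X : GS G) (x : X.X) : X.toPath x 0 = X.lab x := rfl

@[simp] theorem toPath_sh (X : GS G) (x : X.X) : X.toPath (X.sh x) = Path.sh (X.toPath x) := by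
  apply Path.ext
  intro n
  rw [Path.sh_apply, toPath_apply, toPath_apply, Function.iterate_succ_apply]

theorem toPath_sh_iter (X : GS G) (x : X.X) (k : ℕ) :
    X.toPath (X.sh^[k] x) = Path.sh^[k] (X.toPath x) := by
  induction k generalizing x with
  | zero => rfl
  | succ k ih => rw [Function.iterate_succ_apply, ih, Function.iterate_succ_apply, toPath_sh]

theorem continuous_toPath (X : GS G) : Continuous X.toPath :=
  Path.continuous_iff.2 (fun n => X.lab_cont.comp (X.sh_cont.iterate n))

theorem map_sh_iter {X Y : GS G} (f : X ⟶ Y) (x : X.X) (k : ℕ) :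
    Y.sh^[k] (f.f x) = f.f (X.sh^[k] x) := by
  induction k generalizing x with
  | zero => rfl
  | succ k ih => rw [Function.iterate_succ_apply, f.sh, ih, Function.iterate_succ_apply]

@[simp] theorem toPath_map {X Y : GS G} (f : X ⟶ Y) (x : X.X) : Y.toPath (f.f x) = X.toPath x := by
  apply Path.ext
  intro n
  rw [toPath_apply, toPath_apply, map_sh_iter, f.lab]

theorem iter_ex (X : GS G) (k : ℕ) (η : Path G) (z : X.X) (h : Path.sh^[k] η = X.toPath z) :
    ∃ y, X.toPath y = η ∧ X.sh^[k] y = z := by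
  induction k generalizing η with
  | zero => exact ⟨z, h.symm, rfl⟩
  | succ k ih =>
    obtain ⟨y', h1, h2⟩ := ih (Path.sh η) (by rw [← h, Function.iterate_succ_apply])
    obtain ⟨y, h3, h4⟩ := X.ex (η 0) y' (by
      rw [← toPath_zero, h1]; exact η.compat 0)
    refine ⟨y, ?_, ?_⟩
    · apply Path.eq_of_zero_sh
      · rw [toPath_zero, h3]
      · rw [← toPath_sh, h4, h1]
    · rw [Function.iterate_succ_apply, h4, h2]

theorem iter_inj (X : GS G) (k : ℕ) (y y' : X.X) (h : X.toPath y = X.toPath y')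
    (h' : X.sh^[k] y = X.sh^[k] y') : y = y' := by
  induction k generalizing y y' with
  | zero => exact h'
  | succ k ih =>
    rw [Function.iterate_succ_apply, Function.iterate_succ_apply] at h'
    have h1 := ih _ _ (by rw [toPath_sh, toPath_sh, h]) h'
    refine X.inj _ _ ?_ h1
    rw [← toPath_zero, ← toPath_zero, h]

/-- `y` is obtained from `x` by an element of degree `n` -/
def Rel (X : GS G) (x y : X.X) (n : ℤ) : Prop :=
  ∃ k l : ℕ, n = (k : ℤ) - l ∧ X.sh^[k] y = X.sh^[l] x

theorem Rel.unique {X : GS G} {x y y' : X.X} {n : ℤ} (h : X.Rel x y n) (h' : X.Rel x y' n)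
    (hp : X.toPath y = X.toPath y') : y = y' := by
  obtain ⟨k, l, h1, h2⟩ := h
  obtain ⟨k', l', h3, h4⟩ := h'
  have e : k + l' = k' + l := by omega
  apply X.iter_inj (k + l') _ _ hp
  have a : X.sh^[k + l'] y = X.sh^[l + l'] x := by
    rw [add_comm k l', Function.iterate_add_apply, h2, ← Function.iterate_add_apply, add_comm l' l]
  have b : X.sh^[k' + l] y' = X.sh^[l + l'] x := by
    rw [add_comm k' l, Function.iterate_add_apply, h4, ← Function.iterate_add_apply]
  rw [a, e, b]

theorem Rel.map {X Y : GS G} (f : X ⟶ Y) {x y : X.X} {n : ℤ} (h : X.Rel x y n) :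
    Y.Rel (f.f x) (f.f y) n := by
  obtain ⟨k, l, h1, h2⟩ := h
  exact ⟨k, l, h1, by rw [map_sh_iter, map_sh_iter, h2]⟩

/-- criterion for the shift to be open -/
theorem open_of_cons {X : Type} [TopologicalSpace X] (lab : X → G.E) (sh : X → X)
    (lab_cont : Continuous lab) (compat : ∀ x, G.s (lab x) = G.t (lab (sh x)))
    (inj : ∀ x x', lab x = lab x' → sh x = sh x' → x = x')
    (cons : ∀ e, {y : X // G.s e = G.t (lab y)} → X) (cons_cont : ∀ e, Continuous (cons e))
    (h1 : ∀ e y, lab (cons e y) = e) (h2 : ∀ e y, sh (cons e y) = y.1) : IsOpenMap sh := by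
  intro O hO
  have : sh '' O = ⋃ e, Subtype.val '' ((cons e) ⁻¹' O) := by
    ext y
    simp only [Set.mem_image, Set.mem_iUnion, Set.mem_preimage]
    constructor
    · rintro ⟨x, hx, rfl⟩
      refine ⟨lab x, ⟨sh x, compat x⟩, ?_, rfl⟩
      have : cons (lab x) ⟨sh x, compat x⟩ = x := inj _ _ (h1 _ _) (h2 _ _)
      rw [this]; exact hx
    · rintro ⟨e, y', hy, rfl⟩
      exact ⟨_, hy, h2 _ _⟩
  rw [this]
  refine isOpen_iUnion (fun e => ?_)
  apply IsOpen.isOpenMap_subtype_val
  · exact (isOpen_discrete {e' : G.E | G.s e = G.t e'}).preimage lab_cont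
  · exact hO.preimage (cons_cont e)

/-- the product of the path space with a space `K`, the shift acting on `K` by `b` -/
def Tw (G : DGraph) (K : Type) [TopologicalSpace K] (b : K ≃ₜ K) : GS G where
  X := Path G × K
  lab p := p.1 0
  sh p := (Path.sh p.1, b p.2)
  lab_cont := (Path.continuous_eval 0).comp continuous_fst
  sh_cont := (Path.continuous_sh.comp continuous_fst).prodMk (b.continuous.comp continuous_snd)
  sh_open := by
    refine open_of_cons (fun p : Path G × K => p.1 0) (fun p => (Path.sh p.1, b p.2))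
      ((Path.continuous_eval 0).comp continuous_fst) (fun x => x.1.compat 0) ?_
      (fun e y => (Path.cons e y.1.1 y.2, b.symm y.1.2)) ?_ (fun _ _ => rfl)
      (fun e y => by simp)
    · rintro ⟨x, k⟩ ⟨x', k'⟩ h h'
      have h1 := (Prod.ext_iff.1 h').1
      have h2 := (Prod.ext_iff.1 h').2
      exact Prod.ext (Path.eq_of_zero_sh h h1) (b.injective h2)
    · intro e
      refine Continuous.prodMk ?_ (b.symm.continuous.comp (continuous_snd.comp continuous_subtype_val))
      rw [Path.continuous_iff]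
      intro n
      cases n with
      | zero => exact continuous_const
      | succ n =>
        exact (Path.continuous_eval n).comp (continuous_fst.comp continuous_subtype_val)
  compat x := x.1.compat 0
  ex e y h := ⟨(Path.cons e y.1 h, b.symm y.2), rfl, by simp⟩
  inj := by
    rintro ⟨x, k⟩ ⟨x', k'⟩ h h'
    have h1 := (Prod.ext_iff.1 h').1
    have h2 := (Prod.ext_iff.1 h').2
    exact Prod.ext (Path.eq_of_zero_sh h h1) (b.injective h2)

theorem Tw_toPath (K : Type) [TopologicalSpace K] (b : K ≃ₜ K) (p : (Tw G K b).X) :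
    (Tw G K b).toPath p = p.1 := by
  apply Path.ext
  intro n
  rw [toPath_apply]
  have : ∀ n (p : (Tw G K b).X), ((Tw G K b).sh^[n] p).1 = Path.sh^[n] p.1 := by
    intro n
    induction n with
    | zero => intro p; rfl
    | succ n ih => intro p; rw [Function.iterate_succ_apply, ih, Function.iterate_succ_apply]; rfl
  show ((Tw G K b).sh^[n] p).1 0 = _
  rw [this]
  simp

/-- the terminal object -/
abbrev Tm (G : DGraph) : GS G := Tw G Unit (Homeomorph.refl Unit)

/-- the map to the terminal object -/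
def toTm (X : GS G) : X ⟶ Tm G where
  f x := (X.toPath x, ())
  cont := X.continuous_toPath.prodMk continuous_const
  lab _ := rfl
  sh x := Prod.ext (toPath_sh X x).symm rfl

theorem toTm_unique {X : GS G} (f : X ⟶ Tm G) : f = toTm X := by
  ext x
  refine Prod.ext ?_ rfl
  show (f.f x).1 = X.toPath x
  rw [← toPath_map f x, Tw_toPath]

/-- the empty object -/
def Em (G : DGraph) : GS G where
  X := Empty
  lab x := x.elim
  sh x := x
  lab_cont := continuous_of_discreteTopology
  sh_cont := continuous_id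
  sh_open := IsOpenMap.id
  compat x := x.elim
  ex _ y := y.elim
  inj x := x.elim

/-- the free orbit of a path -/
def Upt (ξ : Path G) : GS G where
  X := {p : Path G × ℤ // ∃ k l : ℕ, p.2 = (k : ℤ) - l ∧ Path.sh^[k] p.1 = Path.sh^[l] ξ}
  top := ⊥
  lab p := p.1.1 0
  sh p := ⟨(Path.sh p.1.1, p.1.2 - 1), by
    obtain ⟨⟨η, n⟩, k, l, h1, h2⟩ := p
    refine ⟨k, l + 1, ?_, ?_⟩
    · dsimp at h1 ⊢; push_cast; omega
    · show Path.sh^[k] (Path.sh η) = Path.sh^[l + 1] ξ
      have h2' : Path.sh^[k] η = Path.sh^[l] ξ := h2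
      rw [← Function.iterate_succ_apply, Function.iterate_succ_apply', h2',
        ← Function.iterate_succ_apply' Path.sh]⟩
  lab_cont := continuous_bot
  sh_cont := continuous_bot
  sh_open := fun _ _ => trivial
  compat p := p.1.1.compat 0
  ex := by
    rintro e ⟨⟨η, n⟩, k, l, h1, h2⟩ h
    refine ⟨⟨(Path.cons e η h, n + 1), k + 1, l, ?_, ?_⟩, rfl, ?_⟩
    · dsimp at h1 ⊢; push_cast; omega
    · exact h2
    · apply Subtype.ext
      simp
  inj := by
    rintro ⟨⟨η, n⟩, hp⟩ ⟨⟨η', n'⟩, hp'⟩ h h'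
    have h3 := congrArg Subtype.val h'
    have h1 := (Prod.ext_iff.1 h3).1
    have h2 := (Prod.ext_iff.1 h3).2
    apply Subtype.ext
    refine Prod.ext (Path.eq_of_zero_sh h h1) ?_
    dsimp at h2 ⊢
    omega

/-- base point of the free orbit -/
def Upt.base (ξ : Path G) : (Upt ξ).X := ⟨(ξ, 0), 0, 0, by simp, rfl⟩

theorem Upt.sh_iter {ξ : Path G} (k : ℕ) (p : (Upt ξ).X) :
    ((Upt ξ).sh^[k] p).1 = (Path.sh^[k] p.1.1, p.1.2 - k) := by
  induction k generalizing p with
  | zero => simp
  | succ k ih =>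
    rw [Function.iterate_succ_apply, ih, Function.iterate_succ_apply]
    refine Prod.ext rfl ?_
    show p.1.2 - 1 - (k : ℤ) = p.1.2 - ((k + 1 : ℕ) : ℤ)
    push_cast; ring

theorem Upt.toPath {ξ : Path G} (p : (Upt ξ).X) : (Upt ξ).toPath p = p.1.1 := by
  apply Path.ext
  intro n
  rw [toPath_apply]
  show ((Upt ξ).sh^[n] p).1.1 0 = _
  rw [Upt.sh_iter]
  simp

theorem Upt.rel {ξ : Path G} (p : (Upt ξ).X) : (Upt ξ).Rel (Upt.base ξ) p p.1.2 := by
  obtain ⟨k, l, h1, h2⟩ := p.2
  refine ⟨k, l, h1, ?_⟩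
  apply Subtype.ext
  rw [Upt.sh_iter, Upt.sh_iter]
  refine Prod.ext h2 ?_
  show p.1.2 - (k : ℤ) = 0 - (l : ℤ)
  omega

/-- morphisms out of a free orbit -/
theorem Upt.exists_map (X : GS G) (ξ : Path G) (x : X.X) (h : X.toPath x = ξ) :
    ∀ p : (Upt ξ).X, ∃ y : X.X, X.toPath y = p.1.1 ∧ X.Rel x y p.1.2 := by
  rintro ⟨⟨η, n⟩, k, l, h1, h2⟩
  obtain ⟨y, h3, h4⟩ := X.iter_ex k η (X.sh^[l] x) (by
    rw [toPath_sh_iter, h]; exact h2)
  exact ⟨y, h3, k, l, h1, h4⟩

/-- the morphism out of a free orbit given by a point -/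
noncomputable def Upt.lift (X : GS G) (ξ : Path G) (x : X.X) (h : X.toPath x = ξ) : Upt ξ ⟶ X where
  f p := Classical.choose (Upt.exists_map X ξ x h p)
  cont := continuous_bot
  lab p := by
    have := (Classical.choose_spec (Upt.exists_map X ξ x h p)).1
    rw [← toPath_zero, this]; rfl
  sh p := by
    have h1 := Classical.choose_spec (Upt.exists_map X ξ x h p)
    have h2 := Classical.choose_spec (Upt.exists_map X ξ x h ((Upt ξ).sh p))
    refine Rel.unique (x := x) (n := p.1.2 - 1) ?_ h2.2 ?_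
    · obtain ⟨k, l, h3, h4⟩ := h1.2
      refine ⟨k, l + 1, by push_cast; omega, ?_⟩
      rw [← Function.iterate_succ_apply, Function.iterate_succ_apply', h4,
        ← Function.iterate_succ_apply' X.sh]
    · rw [toPath_sh, h1.1, h2.1]; rfl

theorem Upt.lift_base (X : GS G) (ξ : Path G) (x : X.X) (h : X.toPath x = ξ) :
    (Upt.lift X ξ x h).f (Upt.base ξ) = x := by
  have h1 := Classical.choose_spec (Upt.exists_map X ξ x h (Upt.base ξ))
  exact Rel.unique (x := x) (n := 0) h1.2 ⟨0, 0, by simp, rfl⟩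
    (h1.1.trans h.symm)

theorem Upt.hom_ext {X : GS G} {ξ : Path G} {f g : Upt ξ ⟶ X}
    (h : f.f (Upt.base ξ) = g.f (Upt.base ξ)) : f = g := by
  ext p
  have h1 := (Upt.rel p).map f
  have h2 := (Upt.rel p).map g
  rw [← h] at h2
  exact h1.unique h2 (by rw [toPath_map, toPath_map])

theorem Upt.toPath_hom {X : GS G} {ξ : Path G} (f : Upt ξ ⟶ X) :
    X.toPath (f.f (Upt.base ξ)) = ξ := by
  rw [toPath_map, Upt.toPath]; rfl

end GS

end ParrySullivan
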