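import Mathlib

/-!
Jacobi's formula for the derivative of a determinant, and the resulting congruence for
`det (1 - M)`.
-/

open Matrix Polynomial

namespace ParrySullivan

section Jac

variable {R A : Type*} [CommRing R] [CommRing A] [Algebra R A] (D : Derivation R A A)

theorem derivation_prod {ι : Type*} [DecidableEq ι] (s : Finset ι) (f : ι → A) :
    D (∏ i ∈ s, f i) = ∑ j ∈ s, (∏ i ∈ s.erase j, f i) * D (f j) := by
  induction s using Finset.induction_on with
  | empty => simp
  | insert a s ha ih =>
    rw [Finset.prod_insert ha, D.leibniz, ih, Finset.sum_insert ha, Finset.erase_insert ha,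
      smul_eq_mul, smul_eq_mul, add_comm, Finset.mul_sum]
    congr 1
    refine Finset.sum_congr rfl (fun j hj => ?_)
    have hja : j ≠ a := fun h => ha (h ▸ hj)
    rw [Finset.erase_insert_of_ne hja.symm, Finset.prod_insert (fun h => ha (Finset.mem_of_mem_erase h))]
    ring

variable {n : Type*} [Fintype n] [DecidableEq n]

/-- Jacobi's formula -/
theorem derivation_det (N : Matrix n n A) : D N.det = (N.adjugate * N.map D).trace := by
  have h1 : D N.det = ∑ j, (N.updateCol j (fun i => D (N i j))).det := by
    simp only [Matrix.det_apply']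
    rw [map_sum, Finset.sum_comm]
    refine Finset.sum_congr rfl (fun σ _ => ?_)
    have h2 : D ((Equiv.Perm.sign σ : ℤ) * ∏ i, N (σ i) i : A) =
        (Equiv.Perm.sign σ : ℤ) * D (∏ i, N (σ i) i) := by
      rw [D.leibniz]
      simp
    rw [h2, derivation_prod, Finset.mul_sum]
    refine Finset.sum_congr rfl (fun j _ => ?_)
    congr 1
    rw [← Finset.mul_prod_erase Finset.univ _ (Finset.mem_univ j), mul_comm]
    congr 1
    · simp
    · refine Finset.prod_congr rfl (fun i hi => ?_)
      rw [Matrix.updateCol_ne (Finset.ne_of_mem_erase hi)]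
  rw [h1, Matrix.trace]
  refine Finset.sum_congr rfl (fun j _ => ?_)
  rw [← Matrix.cramer_apply, Matrix.cramer_eq_adjugate_mulVec]
  rfl

theorem map_mul_derivation (M N : Matrix n n A) :
    (M * N).map D = M.map D * N + M * N.map D := by
  ext i j
  simp only [Matrix.map_apply, Matrix.mul_apply, Matrix.add_apply, map_sum, D.leibniz, smul_eq_mul]
  rw [← Finset.sum_add_distrib]
  refine Finset.sum_congr rfl (fun k _ => ?_)
  ring

theorem map_one_derivation : (1 : Matrix n n A).map D = 0 := by
  ext i j
  by_cases h : i = j
  · subst h; simp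
  · simp [Matrix.one_apply_ne h]

theorem trace_map_derivation (M : Matrix n n A) : D M.trace = (M.map D).trace := by
  simp [Matrix.trace, map_sum]

theorem trace_pow_aux (M : Matrix n n A) (k j : ℕ) :
    (((M ^ k).map D) * M ^ (j + 1)).trace = k * (M ^ (k + j) * M.map D).trace := by
  induction k generalizing j with
  | zero => simp [map_one_derivation]
  | succ k ih =>
    have e1 : (M ^ k * M.map D * M ^ (j + 1)).trace = (M ^ (k + 1 + j) * M.map D).trace := by
      rw [Matrix.trace_mul_comm, ← Matrix.mul_assoc, ← pow_add,
        show j + 1 + k = k + 1 + j by ring]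
    rw [pow_succ, map_mul_derivation, add_mul, Matrix.trace_add, e1, Matrix.mul_assoc, ← pow_succ',
      ih (j + 1), show k + (j + 1) = k + 1 + j by ring]
    push_cast
    ring

/-- derivative of the trace of a power -/
theorem trace_pow_derivation (M : Matrix n n A) (k : ℕ) :
    D (M ^ (k + 1)).trace = (k + 1) * (M ^ k * M.map D).trace := by
  rw [trace_map_derivation]
  rw [pow_succ, map_mul_derivation, Matrix.trace_add]
  cases k with
  | zero => simp [map_one_derivation]
  | succ k =>
    have := trace_pow_aux D M (k + 1) 0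
    rw [zero_add, pow_one] at this
    rw [this]
    push_cast
    rw [add_zero]
    ring

/-- the congruence -/
theorem det_congr (I : Ideal A) (M : Matrix n n A) (L : ℕ) (hL : ∀ i j, (M ^ L) i j ∈ I) :
    D (1 - M).det + (1 - M).det * ∑ i ∈ Finset.range L, (M ^ i * M.map D).trace ∈ I := by
  have h1 : (1 - M).map D = -(M.map D) := by
    ext i j
    have := congrFun (congrFun (map_one_derivation (n := n) D) i) j
    simp only [Matrix.map_apply, Matrix.zero_apply] at this
    simp [this]
  have h2 : (1 - M).adjugate * (1 - M ^ L) = (1 - M).det • ∑ i ∈ Finset.range L, M ^ i := by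
    rw [← mul_neg_geom_sum, ← Matrix.mul_assoc, Matrix.adjugate_mul, Matrix.smul_mul, Matrix.one_mul]
  have h3 : (1 - M).det * ∑ i ∈ Finset.range L, (M ^ i * M.map D).trace =
      ((1 - M).adjugate * (1 - M ^ L) * M.map D).trace := by
    rw [h2, Matrix.smul_mul, Matrix.trace_smul, Finset.sum_mul, Matrix.trace_sum, smul_eq_mul]
  rw [derivation_det, h1, h3, mul_sub, mul_one, sub_mul, Matrix.trace_sub, Matrix.mul_neg,
    Matrix.trace_neg]
  have h4 : -((1 - M).adjugate * M.map D).trace + (((1 - M).adjugate * M.map D).trace -
      ((1 - M).adjugate * M ^ L * M.map D).trace) =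
      -((1 - M).adjugate * M ^ L * M.map D).trace := by ring
  rw [h4]
  apply I.neg_mem
  rw [Matrix.trace]
  refine I.sum_mem (fun i _ => ?_)
  rw [Matrix.diag_apply, Matrix.mul_apply]
  refine I.sum_mem (fun j _ => ?_)
  apply I.mul_mem_right
  rw [Matrix.mul_apply]
  refine I.sum_mem (fun k _ => ?_)
  exact I.mul_mem_left _ (hL _ _)

end Jac

/-- the derivation `t d/dt` -/
noncomputable def euler : Derivation ℚ ℚ[X] ℚ[X] := (X : ℚ[X]) • Polynomial.derivative'

theorem coeff_euler (p : ℚ[X]) (k : ℕ) : (euler p).coeff k = k * p.coeff k := by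
  have h : euler p = X * Polynomial.derivative p := rfl
  rw [h]
  cases k with
  | zero => simp
  | succ k => rw [Polynomial.coeff_X_mul, Polynomial.coeff_derivative]; push_cast; ring

end ParrySullivan
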