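import Pool.Agent.R708.PS.Defs

/-!
Directed graphs and the space of backward infinite paths (`ξ 0, ξ 1, ...` with
`s (ξ n) = t (ξ (n+1))`), with its shift, topology, compactness and a Lebesgue-number lemma.
-/

namespace ParrySullivan

/-- The backward infinite paths of a directed graph. -/
def Path (G : DGraph) : Type := {ξ : ℕ → G.E // ∀ n, G.s (ξ n) = G.t (ξ (n + 1))}

instance discE (G : DGraph) : TopologicalSpace G.E := ⊥
instance (G : DGraph) : DiscreteTopology G.E := ⟨rfl⟩

instance (G : DGraph) : TopologicalSpace (Path G) := instTopologicalSpaceSubtype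

namespace Path

variable {G : DGraph}

instance : CoeFun (Path G) (fun _ => ℕ → G.E) := ⟨fun ξ => ξ.1⟩

theorem ext {ξ η : Path G} (h : ∀ n, ξ n = η n) : ξ = η := Subtype.ext (funext h)

theorem compat (ξ : Path G) (n : ℕ) : G.s (ξ n) = G.t (ξ (n + 1)) := ξ.2 n

/-- the shift -/
def sh (ξ : Path G) : Path G := ⟨fun n => ξ.1 (n + 1), fun n => ξ.2 (n + 1)⟩

@[simp] theorem sh_apply (ξ : Path G) (n : ℕ) : sh ξ n = ξ (n + 1) := rfl

@[simp] theorem sh_iter (ξ : Path G) (k n : ℕ) : (sh^[k] ξ) n = ξ (n + k) := by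
  induction k generalizing ξ with
  | zero => rfl
  | succ k ih => rw [Function.iterate_succ_apply, ih]; simp [sh_apply, Nat.add_assoc]

/-- prepend an edge -/
def cons (e : G.E) (ξ : Path G) (h : G.s e = G.t (ξ 0)) : Path G :=
  ⟨fun n => Nat.casesOn n e (fun m => ξ.1 m), by
    intro n
    cases n with
    | zero => exact h
    | succ n => exact ξ.2 n⟩

@[simp] theorem cons_zero (e : G.E) (ξ : Path G) (h : G.s e = G.t (ξ 0)) : (cons e ξ h) 0 = e := rfl
@[simp] theorem cons_succ (e : G.E) (ξ : Path G) (h : G.s e = G.t (ξ 0)) (n : ℕ) :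
    (cons e ξ h) (n + 1) = ξ n := rfl
@[simp] theorem sh_cons (e : G.E) (ξ : Path G) (h : G.s e = G.t (ξ 0)) : sh (cons e ξ h) = ξ := rfl

theorem eq_of_zero_sh {ξ η : Path G} (h0 : ξ 0 = η 0) (h1 : sh ξ = sh η) : ξ = η := by
  apply ext
  intro n
  cases n with
  | zero => exact h0
  | succ n => exact congrFun (congrArg Subtype.val h1) n

/-- the first `m` letters agree -/
def agree (m : ℕ) (ξ η : Path G) : Prop := ∀ j < m, ξ j = η j

theorem agree.symm {m : ℕ} {ξ η : Path G} (h : agree m ξ η) : agree m η ξ :=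
  fun j hj => (h j hj).symm
theorem agree.trans {m : ℕ} {ξ η κ : Path G} (h : agree m ξ η) (h' : agree m η κ) : agree m ξ κ :=
  fun j hj => (h j hj).trans (h' j hj)
theorem agree.mono {m n : ℕ} {ξ η : Path G} (h : agree m ξ η) (hn : n ≤ m) : agree n ξ η :=
  fun j hj => h j (lt_of_lt_of_le hj hn)
theorem agree_refl (m : ℕ) (ξ : Path G) : agree m ξ ξ := fun _ _ => rfl

theorem continuous_eval (n : ℕ) : Continuous (fun ξ : Path G => ξ n) :=
  (continuous_apply n).comp continuous_subtype_val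

theorem continuous_iff {X : Type*} [TopologicalSpace X] {f : X → Path G} :
    Continuous f ↔ ∀ n, Continuous (fun x => f x n) := by
  constructor
  · intro h n
    exact (continuous_eval n).comp h
  · intro h
    exact Continuous.subtype_mk (continuous_pi h) _

theorem isOpen_agree (m : ℕ) (ξ : Path G) : IsOpen {η : Path G | agree m η ξ} := by
  have : {η : Path G | agree m η ξ} = ⋂ j ∈ Finset.range m, {η : Path G | η j = ξ j} := by
    ext η; simp [agree]
  rw [this]
  refine isOpen_biInter_finset (fun j _ => ?_)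
  exact (isOpen_discrete {ξ j}).preimage (continuous_eval j)

theorem basis {O : Set (Path G)} (hO : IsOpen O) {ξ : Path G} (hξ : ξ ∈ O) :
    ∃ m, ∀ η, agree m η ξ → η ∈ O := by
  obtain ⟨O', hO', rfl⟩ := isOpen_induced_iff.1 hO
  obtain ⟨I, u, hu, hI⟩ := isOpen_pi_iff.1 hO' ξ.1 hξ
  refine ⟨I.sup id + 1, fun η h => hI ?_⟩
  intro a ha
  have : a < I.sup id + 1 := Nat.lt_succ_of_le (Finset.le_sup (f := id) ha)
  show η.1 a ∈ u a
  rw [show η.1 a = ξ.1 a from h a this]
  exact (hu a ha).2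

theorem continuous_sh : Continuous (sh : Path G → Path G) :=
  continuous_iff.2 (fun n => continuous_eval (n + 1))

instance [Finite G.E] : CompactSpace (Path G) := by
  apply isCompact_iff_compactSpace.1
  apply IsClosed.isCompact
  have : {ξ : ℕ → G.E | ∀ n, G.s (ξ n) = G.t (ξ (n + 1))} =
      ⋂ n, {ξ : ℕ → G.E | G.s (ξ n) = G.t (ξ (n + 1))} := by ext; simp
  show IsClosed {ξ : ℕ → G.E | ∀ n, G.s (ξ n) = G.t (ξ (n + 1))}
  rw [this]
  refine isClosed_iInter (fun n => ?_)
  have hc : Continuous (fun ξ : ℕ → G.E => ((ξ n, ξ (n + 1)) : G.E × G.E)) :=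
    (continuous_apply n).prodMk (continuous_apply (n + 1))
  exact (isClosed_discrete {p : G.E × G.E | G.s p.1 = G.t p.2}).preimage hc

/-- Lebesgue number lemma. -/
theorem leb [Finite G.E] (Q : Path G → ℕ → Prop) (h1 : ∀ ξ, ∃ n, Q ξ n)
    (h2 : ∀ ξ η n m, Q ξ n → agree n η ξ → n ≤ m → Q η m) : ∃ m, ∀ η, Q η m := by
  choose n hn using h1
  obtain ⟨t, ht⟩ := isCompact_univ.elim_finite_subcover (fun ξ : Path G => {η | agree (n ξ) η ξ})
    (fun ξ => isOpen_agree _ _) (fun ξ _ => Set.mem_iUnion.2 ⟨ξ, agree_refl _ _⟩)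
  refine ⟨t.sup n, fun η => ?_⟩
  obtain ⟨ξ, hξ, hη⟩ := Set.mem_iUnion₂.1 (ht (Set.mem_univ η))
  exact h2 ξ η (n ξ) _ (hn ξ) hη (Finset.le_sup hξ)

/-- A continuous function to a discrete space depends on finitely many letters. -/
theorem exists_dep [Finite G.E] {K : Type*} [TopologicalSpace K] [DiscreteTopology K]
    {f : Path G → K} (hf : Continuous f) : ∃ m, ∀ ξ η, agree m ξ η → f ξ = f η := by
  obtain ⟨m, hm⟩ := leb (G := G) (fun ξ n => ∀ η, agree n η ξ → f η = f ξ) (fun ξ => by
      obtain ⟨m, hm⟩ := basis ((isOpen_discrete {f ξ}).preimage hf) (ξ := ξ) rfl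
      exact ⟨m, fun η h => hm η h⟩) (by
      intro ξ η n m h hagr hnm κ hκ
      rw [h η hagr, h κ ((hκ.mono hnm).trans hagr)])
  exact ⟨m, fun ξ η h => hm η ξ h⟩

/-- concatenation of the first `n` letters of `ξ` with `η` -/
def glue (n : ℕ) (ξ η : Path G) (h : G.t (ξ n) = G.t (η 0)) : Path G :=
  ⟨fun j => if j < n then ξ j else η (j - n), by
    intro j
    by_cases h1 : j + 1 < n
    · have h2 : j < n := by omega
      simp only [h1, h2, if_true]
      exact ξ.2 j
    · by_cases h2 : j < n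
      · have h3 : j + 1 = n := by omega
        simp only [h1, h2, if_true, if_false]
        have h4 : j + 1 - n = 0 := by omega
        rw [h4, ← h, ← h3]
        exact ξ.2 j
      · simp only [h1, h2, if_false]
        have h4 : j + 1 - n = (j - n) + 1 := by omega
        rw [h4]
        exact η.2 _⟩

theorem glue_lt {n : ℕ} {ξ η : Path G} (h : G.t (ξ n) = G.t (η 0)) {j : ℕ} (hj : j < n) :
    glue n ξ η h j = ξ j := by simp [glue, hj]

theorem glue_ge {n : ℕ} {ξ η : Path G} (h : G.t (ξ n) = G.t (η 0)) {j : ℕ} (hj : n ≤ j) :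
    glue n ξ η h j = η (j - n) := by simp [glue, Nat.not_lt.2 hj]

theorem sh_glue {n : ℕ} {ξ η : Path G} (h : G.t (ξ n) = G.t (η 0)) : sh^[n] (glue n ξ η h) = η := by
  apply ext
  intro j
  rw [sh_iter, glue_ge h (by omega)]
  simp

/-- periodic continuation of the first `n` letters -/
def rep (n : ℕ) (hn : 0 < n) (ξ : Path G) (h : G.t (ξ n) = G.t (ξ 0)) : Path G :=
  ⟨fun j => ξ (j % n), by
    intro j
    have h1 : j % n < n := Nat.mod_lt _ hn
    by_cases h2 : j % n + 1 = n
    · have h3 : (j + 1) % n = 0 := by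
        rw [Nat.add_mod, show j % n + 1 % n = j % n + 1 % n from rfl]
        rcases Nat.lt_or_ge 1 n with h4 | h4
        · rw [Nat.mod_eq_of_lt h4, h2, Nat.mod_self]
        · have : n = 1 := by omega
          subst this; simp [Nat.mod_one]
      show G.s (ξ.1 (j % n)) = G.t (ξ.1 ((j + 1) % n))
      rw [h3, ← h]
      have := ξ.2 (j % n)
      rw [h2] at this
      exact this
    · have h3 : (j + 1) % n = j % n + 1 := by
        rcases Nat.lt_or_ge 1 n with h4 | h4
        · rw [Nat.add_mod, Nat.mod_eq_of_lt h4, Nat.mod_eq_of_lt (by omega)]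
        · have : n = 1 := by omega
          subst this; simp [Nat.mod_one] at h2
      show G.s (ξ.1 (j % n)) = G.t (ξ.1 ((j + 1) % n))
      rw [h3]
      exact ξ.2 _⟩

theorem rep_apply {n : ℕ} (hn : 0 < n) {ξ : Path G} (h : G.t (ξ n) = G.t (ξ 0)) (j : ℕ) :
    rep n hn ξ h j = ξ (j % n) := rfl

theorem sh_rep {n : ℕ} (hn : 0 < n) {ξ : Path G} (h : G.t (ξ n) = G.t (ξ 0)) :
    sh^[n] (rep n hn ξ h) = rep n hn ξ h := by
  apply ext
  intro j
  rw [sh_iter, rep_apply, rep_apply, Nat.add_mod_right]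

end Path

end ParrySullivan
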