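import Pool.Agent.R708.PS.GS
import Pool.Agent.R708.PS.Cat

/-!
Points of `GS G`, the standard torsor, and holonomies.
-/

open CategoryTheory

namespace ParrySullivan

open GS

variable {G : DGraph}

theorem isE_iff_isEmpty {Z : GS G} : IsE Z ↔ IsEmpty Z.X := by
  constructor
  · intro h
    obtain ⟨f⟩ := h (Em G)
    exact ⟨fun x => (f.f x).elim⟩
  · intro h Y
    exact ⟨⟨fun x => h.elim x, ⟨fun s _ => by
      rw [Set.eq_empty_of_isEmpty ((fun x => h.elim x : Z.X → Y.X) ⁻¹' s)]; exact isOpen_empty⟩,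
      fun x => h.elim x, fun x => h.elim x⟩⟩

theorem not_isE_of {Z : GS G} (x : Z.X) : ¬ IsE Z := fun h => (isE_iff_isEmpty.1 h).elim x

theorem isT_Tm : IsT (Tm G) := fun Y => ⟨toTm Y, fun _ => toTm_unique _⟩

theorem isPt_Upt (ξ : Path G) : IsPt (Upt ξ) := by
  refine ⟨not_isE_of (Upt.base ξ), fun V v hV => ?_⟩
  rw [isE_iff_isEmpty, not_isEmpty_iff] at hV
  obtain ⟨y⟩ := hV
  obtain ⟨k, l, h1, h2⟩ := (v.f y).2
  have hy : V.toPath y = (v.f y).1.1 := by rw [← Upt.toPath, toPath_map]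
  obtain ⟨y', h3, h4⟩ := V.iter_ex l ξ (V.sh^[k] y) (by rw [toPath_sh_iter, hy]; exact h2.symm)
  have h5 : v.f y' = Upt.base ξ := by
    apply (Upt ξ).iter_inj l
    · rw [toPath_map, h3, Upt.toPath]; rfl
    · rw [map_sh_iter, h4, ← map_sh_iter]
      apply Subtype.ext
      rw [Upt.sh_iter, Upt.sh_iter]
      refine Prod.ext h2 ?_
      show (v.f y).1.2 - (k : ℤ) = 0 - (l : ℤ)
      omega
  refine ⟨Upt.lift V ξ y' h3, ?_⟩
  apply Upt.hom_ext
  rw [comp_f, Upt.lift_base, h5]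
  rfl

/-- an idempotent endomorphism of a free orbit is the identity -/
theorem Upt.idem {ξ : Path G} (α : Upt ξ ⟶ Upt ξ) (h : α ≫ α = α) : α = 𝟙 _ := by
  apply Upt.hom_ext
  have h1 := (Upt.rel (α.f (Upt.base ξ))).map α
  have h2 : α.f (α.f (Upt.base ξ)) = α.f (Upt.base ξ) := by
    rw [← comp_f, h]
  rw [h2] at h1
  obtain ⟨k, l, h3, h4⟩ := h1
  have h5 := congrArg Subtype.val h4
  rw [Upt.sh_iter, Upt.sh_iter] at h5
  have h6 := (Prod.ext_iff.1 h5).2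
  dsimp at h6
  apply Subtype.ext
  refine Prod.ext ?_ ?_
  · have := Upt.toPath_hom α
    rw [Upt.toPath] at this
    rw [this]; rfl
  · show (α.f (Upt.base ξ)).1.2 = 0
    omega

/-- a morphism from a free orbit to a point is an isomorphism -/
theorem Upt.isIso {ξ : Path G} {U : GS G} (hU : IsPt U) (v : Upt ξ ⟶ U) : Nonempty (Upt ξ ≅ U) := by
  obtain ⟨s, hs⟩ := hU.2 _ v (not_isE_of (Upt.base ξ))
  refine ⟨⟨v, s, ?_, hs⟩⟩
  apply Upt.idem
  rw [Category.assoc, ← Category.assoc s, hs, Category.id_comp]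

theorem isPt_iff {U : GS G} (hU : IsPt U) : ∃ ξ, Nonempty (Upt ξ ≅ U) := by
  have h := hU.1
  rw [isE_iff_isEmpty, not_isEmpty_iff] at h
  obtain ⟨x⟩ := h
  exact ⟨U.toPath x, Upt.isIso hU (Upt.lift U _ x rfl)⟩

/-- periodic paths -/
def IsPer (ξ : Path G) : Prop := ξ ∈ Function.periodicPts Path.sh

/-- the orbit relation -/
def Orb (ξ η : Path G) : Prop := ∃ n, Path.sh^[n] ξ = η

theorem IsPer.minPos {ξ : Path G} (h : IsPer ξ) : 0 < Function.minimalPeriod Path.sh ξ :=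
  Function.minimalPeriod_pos_of_mem_periodicPts h

theorem IsPer.sh_min (ξ : Path G) : Path.sh^[Function.minimalPeriod Path.sh ξ] ξ = ξ :=
  Function.iterate_minimalPeriod

theorem isPer_iff {ξ : Path G} : IsPer ξ ↔ ∃ n, 0 < n ∧ Path.sh^[n] ξ = ξ := Iff.rfl

theorem sh_iter_mul {ξ : Path G} {p : ℕ} (h : Path.sh^[p] ξ = ξ) (j : ℕ) : Path.sh^[p * j] ξ = ξ := by
  rw [Function.iterate_mul]
  exact Function.iterate_fixed h j

theorem orb_iff {ξ η : Path G} (hη : IsPer η) :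
    Orb ξ η ↔ ∃ k l, Path.sh^[k] ξ = Path.sh^[l] η := by
  constructor
  · rintro ⟨n, h⟩; exact ⟨n, 0, h⟩
  · rintro ⟨k, l, h⟩
    obtain ⟨p, hp, h1⟩ := isPer_iff.1 hη
    have h2 : l ≤ p * l := Nat.le_mul_of_pos_left _ hp
    refine ⟨(p * l - l) + k, ?_⟩
    rw [Function.iterate_add_apply, h, ← Function.iterate_add_apply, Nat.sub_add_cancel h2,
      sh_iter_mul h1]

theorem Upt.iso_iff {ξ η : Path G} :
    Nonempty (Upt ξ ≅ Upt η) ↔ ∃ k l, Path.sh^[k] ξ = Path.sh^[l] η := by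
  constructor
  · rintro ⟨i⟩
    obtain ⟨k, l, h1, h2⟩ := (i.hom.f (Upt.base ξ)).2
    have h3 := Upt.toPath_hom i.hom
    rw [Upt.toPath] at h3
    rw [h3] at h2
    exact ⟨k, l, h2⟩
  · rintro ⟨k, l, h⟩
    exact Upt.isIso (isPt_Upt η) (Upt.lift (Upt η) ξ ⟨(ξ, (k : ℤ) - l), k, l, rfl, h⟩
      (by rw [Upt.toPath]))

/-- existence of a non-identity endomorphism -/
def Nontriv {D : Type*} [Category D] (U : D) : Prop := ∃ α : U ⟶ U, α ≠ 𝟙 U

theorem Nontriv.iso {D : Type*} [Category D] {U U' : D} (h : Nontriv U) (i : U ≅ U') :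
    Nontriv U' := by
  obtain ⟨α, hα⟩ := h
  refine ⟨i.inv ≫ α ≫ i.hom, fun h => hα ?_⟩
  have : i.hom ≫ (i.inv ≫ α ≫ i.hom) ≫ i.inv = i.hom ≫ 𝟙 U' ≫ i.inv := by rw [h]
  simpa using this

theorem nontriv_obj {D D' : Type*} [Category D] [Category D'] (F : D ⥤ D') [F.IsEquivalence]
    {U : D} : Nontriv (F.obj U) ↔ Nontriv U := by
  constructor
  · rintro ⟨α, hα⟩
    refine ⟨F.preimage α, fun h => hα ?_⟩
    rw [← F.map_preimage α, h, F.map_id]
  · rintro ⟨α, hα⟩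
    refine ⟨F.map α, fun h => hα (F.map_injective ?_)⟩
    rw [h, F.map_id]

theorem nontriv_of_isPer {ξ : Path G} (h : IsPer ξ) : Nontriv (Upt ξ) := by
  obtain ⟨p, hp, h1⟩ := isPer_iff.1 h
  refine ⟨Upt.lift (Upt ξ) ξ ⟨(ξ, (p : ℤ)), p, 0, by simp, h1⟩ (by rw [Upt.toPath]), fun h => ?_⟩
  have h2 := congrArg (fun f : Upt ξ ⟶ Upt ξ => (Hom.f f (Upt.base ξ)).1.2) h
  rw [Upt.lift_base] at h2
  have : (p : ℤ) = 0 := h2
  omega

theorem isPer_of_nontriv {ξ : Path G} (h : Nontriv (Upt ξ)) :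
    ∃ η : Path G, IsPer η ∧ Nonempty (Upt η ≅ Upt ξ) := by
  obtain ⟨α, hα⟩ := h
  obtain ⟨k, l, h1, h2⟩ := (α.f (Upt.base ξ)).2
  have h3 := Upt.toPath_hom α
  rw [Upt.toPath] at h3
  rw [h3] at h2
  have hkl : k ≠ l := by
    rintro rfl
    apply hα
    apply Upt.hom_ext
    apply Subtype.ext
    refine Prod.ext h3 ?_
    show (α.f (Upt.base ξ)).1.2 = 0
    omega
  rcases Nat.lt_or_ge k l with h | h
  · refine ⟨Path.sh^[k] ξ, ⟨l - k, by omega, ?_⟩, Upt.iso_iff.2 ⟨0, k, rfl⟩⟩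
    show Path.sh^[l - k] (Path.sh^[k] ξ) = _
    rw [← Function.iterate_add_apply, Nat.sub_add_cancel h.le, h2]
  · refine ⟨Path.sh^[l] ξ, ⟨k - l, by omega, ?_⟩, Upt.iso_iff.2 ⟨0, l, rfl⟩⟩
    show Path.sh^[k - l] (Path.sh^[l] ξ) = _
    rw [← Function.iterate_add_apply, Nat.sub_add_cancel h, h2]

/-! ### holonomies -/

theorem act_toPath {X : GS G} (τ : Aut X) (n : ℤ) (x : X.X) :
    X.toPath (Hom.f (τ ^ n).hom x) = X.toPath x := toPath_map _ _

theorem act_add {X : GS G} (τ : Aut X) (m n : ℤ) (x : X.X) :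
    Hom.f (τ ^ (m + n)).hom x = Hom.f (τ ^ m).hom (Hom.f (τ ^ n).hom x) := by
  rw [zpow_add]
  rfl

theorem act_zero {X : GS G} (τ : Aut X) (x : X.X) : Hom.f (τ ^ (0 : ℤ)).hom x = x := by
  rw [zpow_zero]
  rfl

theorem pers_iff {X : GS G} {τ : Aut X} {ξ : Path G} {n : ℤ} :
    n ∈ Pers X τ (Upt ξ) ↔ ∃ x : X.X, X.toPath x = ξ ∧ ∃ a, X.Rel x (Hom.f (τ ^ n).hom x) a := by
  constructor
  · rintro ⟨α, φ, h⟩
    refine ⟨φ.f (Upt.base ξ), Upt.toPath_hom φ, (α.f (Upt.base ξ)).1.2, ?_⟩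
    have h1 := (Upt.rel (α.f (Upt.base ξ))).map φ
    have h2 := congrArg (fun f => Hom.f f (Upt.base ξ)) h
    dsimp at h2
    rw [h2] at h1
    exact h1
  · rintro ⟨x, hx, a, hR⟩
    have hR' := hR
    obtain ⟨k, l, h1, h2⟩ := hR
    have h3 := congrArg X.toPath h2
    rw [toPath_sh_iter, toPath_sh_iter, act_toPath, hx] at h3
    let q : (Upt ξ).X := ⟨(ξ, a), k, l, h1, h3⟩
    refine ⟨Upt.lift (Upt ξ) ξ q (by rw [Upt.toPath]), Upt.lift X ξ x hx, ?_⟩
    apply Upt.hom_ext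
    rw [comp_f, comp_f, Upt.lift_base, Upt.lift_base]
    have h4 := (Upt.rel q).map (Upt.lift X ξ x hx)
    rw [Upt.lift_base] at h4
    exact h4.unique hR' (by rw [toPath_map, Upt.toPath, act_toPath, hx])

theorem birkhoff_mul (f : Path G → ℤ) {ξ : Path G} {p : ℕ} (h : Path.sh^[p] ξ = ξ) (j : ℕ) :
    birkhoffSum Path.sh f (p * j) ξ = j * birkhoffSum Path.sh f p ξ := by
  induction j with
  | zero => simp
  | succ j ih =>
    rw [Nat.mul_succ, birkhoffSum_add, ih, sh_iter_mul h]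
    push_cast; ring

theorem birkhoff_shift (f : Path G → ℤ) {ξ : Path G} {p : ℕ} (h : Path.sh^[p] ξ = ξ) (k : ℕ) :
    birkhoffSum Path.sh f p (Path.sh^[k] ξ) = birkhoffSum Path.sh f p ξ := by
  have h1 := birkhoffSum_add Path.sh f p k ξ
  have h2 := birkhoffSum_add Path.sh f k p ξ
  rw [h] at h1
  rw [add_comm k p, h1] at h2
  linarith

/-- holonomies of a torsor with a section -/
theorem pers_section {X : GS G} {τ : Aut X} (s : Path G → X.X) (hs : ∀ ξ, X.toPath (s ξ) = ξ)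
    (tr : ∀ x y : X.X, X.toPath x = X.toPath y → ∃ n : ℤ, y = Hom.f (τ ^ n).hom x)
    (fr : ∀ (x : X.X) (n : ℤ), Hom.f (τ ^ n).hom x = x → n = 0)
    (f : Path G → ℤ) (hf : ∀ ξ, X.sh (s ξ) = Hom.f (τ ^ (f ξ)).hom (s (Path.sh ξ)))
    {ξ : Path G} (hξ : IsPer ξ) (n : ℤ) :
    n ∈ Pers X τ (Upt ξ) ↔ birkhoffSum Path.sh f (Function.minimalPeriod Path.sh ξ) ξ ∣ n := by
  have hk : ∀ k ξ, X.sh^[k] (s ξ) = Hom.f (τ ^ (birkhoffSum Path.sh f k ξ)).hom
      (s (Path.sh^[k] ξ)) := by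
    intro k
    induction k with
    | zero => intro ξ; rw [birkhoffSum_zero, act_zero]; rfl
    | succ k ih =>
      intro ξ
      rw [Function.iterate_succ_apply, hf, map_sh_iter, ih, birkhoffSum_succ', act_add,
        Function.iterate_succ_apply]
  set p := Function.minimalPeriod Path.sh ξ with hp
  have hp0 : 0 < p := hξ.minPos
  have hpξ : Path.sh^[p] ξ = ξ := IsPer.sh_min ξ
  -- reformulation
  have key : n ∈ Pers X τ (Upt ξ) ↔ ∃ k l : ℕ, Path.sh^[k] ξ = Path.sh^[l] ξ ∧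
      n = birkhoffSum Path.sh f l ξ - birkhoffSum Path.sh f k ξ := by
    rw [pers_iff]
    constructor
    · rintro ⟨x, hx, a, k, l, h1, h2⟩
      obtain ⟨m, rfl⟩ := tr (s ξ) x (by rw [hs, hx])
      refine ⟨k, l, ?_, ?_⟩
      · have h3 := congrArg X.toPath h2
        rwa [toPath_sh_iter, toPath_sh_iter, act_toPath, hx] at h3
      · have h3 := congrArg X.toPath h2
        rw [toPath_sh_iter, toPath_sh_iter, act_toPath, hx] at h3
        rw [map_sh_iter, map_sh_iter, map_sh_iter, hk, hk, h3, ← act_add, ← act_add, ← act_add] at h2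
        have h4 := congrArg (Hom.f (τ ^ (-(m + birkhoffSum Path.sh f l ξ))).hom) h2
        rw [← act_add, ← act_add, neg_add_cancel, act_zero] at h4
        have h5 := fr _ _ h4
        linarith
    · rintro ⟨k, l, h1, rfl⟩
      refine ⟨s ξ, hs ξ, (k : ℤ) - l, k, l, rfl, ?_⟩
      rw [map_sh_iter, hk, hk, ← act_add, h1]
      congr 3
      ring
  rw [key]
  constructor
  · rintro ⟨k, l, h1, rfl⟩
    -- wlog k ≤ l
    have main : ∀ k l : ℕ, k ≤ l → Path.sh^[k] ξ = Path.sh^[l] ξ →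
        birkhoffSum Path.sh f p ξ ∣ birkhoffSum Path.sh f l ξ - birkhoffSum Path.sh f k ξ := by
      intro k l hkl h
      obtain ⟨d, rfl⟩ := Nat.exists_eq_add_of_le hkl
      have hd : Path.sh^[d] ξ = ξ := by
        have h2 : Path.sh^[d] (Path.sh^[k] ξ) = Path.sh^[k] ξ := by
          rw [← Function.iterate_add_apply, add_comm d k, ← h]
        have h3 := (orb_iff hξ).2 ⟨k, k, rfl⟩
        obtain ⟨n', h4⟩ : Orb (Path.sh^[k] ξ) ξ := (orb_iff hξ).2 ⟨0, k, rfl⟩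
        rw [← h4, ← Function.iterate_add_apply, add_comm d n', Function.iterate_add_apply, h2]
      have hdvd : p ∣ d := by
        rw [hp]
        exact Function.IsPeriodicPt.minimalPeriod_dvd hd
      obtain ⟨j, rfl⟩ := hdvd
      rw [birkhoffSum_add, add_sub_cancel_left]
      have h5 : Path.sh^[p] (Path.sh^[k] ξ) = Path.sh^[k] ξ := by
        rw [← Function.iterate_add_apply, add_comm p k, Function.iterate_add_apply, hpξ]
      rw [birkhoff_mul f h5, birkhoff_shift f hpξ]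
      exact Dvd.intro_left _ rfl
    rcases Nat.le_total k l with h | h
    · exact main k l h h1
    · have := main l k h h1.symm
      rw [← neg_sub]
      exact (dvd_neg).2 this
  · rintro ⟨c, rfl⟩
    rcases Int.eq_nat_or_neg c with ⟨j, rfl | rfl⟩
    · refine ⟨0, p * j, by rw [sh_iter_mul hpξ]; rfl, ?_⟩
      rw [birkhoff_mul f hpξ, birkhoffSum_zero]; ring
    · refine ⟨p * j, 0, by rw [sh_iter_mul hpξ]; rfl, ?_⟩
      rw [birkhoff_mul f hpξ, birkhoffSum_zero]; ring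

end ParrySullivan
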