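import Pool.Agent.R708.PS.Tors

/-!
The structure of decidable torsors in `GS G`: they have a continuous section and are described
by a continuous integer-valued function on the path space.
-/

open CategoryTheory

namespace ParrySullivan

open GS

variable {G : DGraph}

/-- the two-point space with the indiscrete topology -/
def IBool : Type := Bool

instance : TopologicalSpace IBool := ⊤

/-- morphism to a constant product -/
def constTw (Z : GS G) (K : Type) [TopologicalSpace K] (k : K) :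
    Z ⟶ Tw G K (Homeomorph.refl K) where
  f z := (Z.toPath z, k)
  cont := Z.continuous_toPath.prodMk continuous_const
  lab _ := rfl
  sh z := Prod.ext (toPath_sh Z z).symm rfl

open Classical in
/-- indicator morphism of an invariant subset -/
noncomputable def indic (Z : GS G) (S : Set Z.X) (inv : ∀ y, Z.sh y ∈ S ↔ y ∈ S) :
    Z ⟶ Tw G IBool (Homeomorph.refl IBool) where
  f z := (Z.toPath z, (if z ∈ S then true else false : Bool))
  cont := Z.continuous_toPath.prodMk continuous_top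
  lab _ := rfl
  sh z := Prod.ext (toPath_sh Z z).symm (by
    show (if z ∈ S then true else false : Bool) = (if Z.sh z ∈ S then true else false : Bool)
    simp only [inv z])

/-- coproducts in `GS G` are disjoint unions -/
theorem cop_clopen {Y₀ Y₁ Y : GS G} {j₀ : Y₀ ⟶ Y} {j₁ : Y₁ ⟶ Y} (h : IsCop j₀ j₁) :
    ∃ S : Set Y.X, IsOpen S ∧ (∀ y ∈ S, ∃ z, j₀.f z = y) ∧ (∀ y, y ∉ S → ∃ z, j₁.f z = y) ∧
      (∀ z, j₀.f z ∈ S) ∧ (∀ z, j₁.f z ∉ S) := by
  classical
  -- joint surjectivity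
  have hsurj : ∀ y, (∃ z, j₀.f z = y) ∨ (∃ z, j₁.f z = y) := by
    let S : Set Y.X := {y | (∃ z, j₀.f z = y) ∨ (∃ z, j₁.f z = y)}
    have inv : ∀ y, Y.sh y ∈ S ↔ y ∈ S := by
      intro y
      constructor
      · rintro (⟨z, hz⟩ | ⟨z, hz⟩)
        · obtain ⟨z', h1, h2⟩ := Y₀.ex (Y.lab y) z (by rw [Y.compat, ← hz, j₀.lab])
          exact Or.inl ⟨z', Y.inj _ _ (by rw [j₀.lab, h1]) (by rw [j₀.sh, h2, hz])⟩
        · obtain ⟨z', h1, h2⟩ := Y₁.ex (Y.lab y) z (by rw [Y.compat, ← hz, j₁.lab])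
          exact Or.inr ⟨z', Y.inj _ _ (by rw [j₁.lab, h1]) (by rw [j₁.sh, h2, hz])⟩
      · rintro (⟨z, rfl⟩ | ⟨z, rfl⟩)
        · exact Or.inl ⟨Y₀.sh z, by rw [j₀.sh]⟩
        · exact Or.inr ⟨Y₁.sh z, by rw [j₁.sh]⟩
    let g₁ := indic Y S inv
    let g₂ : Y ⟶ Tw G IBool (Homeomorph.refl IBool) := constTw Y IBool (true : Bool)
    obtain ⟨g, _, hg⟩ := h _ (j₀ ≫ g₂) (j₁ ≫ g₂)
    have e1 : j₀ ≫ g₁ = j₀ ≫ g₂ := by
      ext z
      refine Prod.ext rfl ?_
      exact if_pos (Or.inl ⟨z, rfl⟩)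
    have e2 : j₁ ≫ g₁ = j₁ ≫ g₂ := by
      ext z
      refine Prod.ext rfl ?_
      exact if_pos (Or.inr ⟨z, rfl⟩)
    have e3 : g₁ = g₂ := (hg g₁ ⟨e1, e2⟩).trans (hg g₂ ⟨rfl, rfl⟩).symm
    intro y
    by_contra hy
    have e4 : (g₁.f y).2 = (g₂.f y).2 :=
      congrArg (fun f : Y ⟶ Tw G IBool (Homeomorph.refl IBool) => (f.f y).2) e3
    have hy' : y ∉ S := hy
    have e5 : (g₁.f y).2 = (false : Bool) := if_neg hy'
    have e6 : (g₂.f y).2 = (true : Bool) := rfl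
    have e7 : (false : Bool) = true := e5.symm.trans (e4.trans e6)
    exact Bool.noConfusion e7
  obtain ⟨g, ⟨h0, h1⟩, _⟩ := h (Tw G Bool (Homeomorph.refl Bool)) (constTw Y₀ Bool true)
    (constTw Y₁ Bool false)
  have k0 : ∀ z, (g.f (j₀.f z)).2 = true := fun z =>
    congrArg (fun f : Y₀ ⟶ Tw G Bool (Homeomorph.refl Bool) => (f.f z).2) h0
  have k1 : ∀ z, (g.f (j₁.f z)).2 = false := fun z =>
    congrArg (fun f : Y₁ ⟶ Tw G Bool (Homeomorph.refl Bool) => (f.f z).2) h1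
  refine ⟨{y | (g.f y).2 = true}, ?_, ?_, ?_, k0, ?_⟩
  · exact (isOpen_discrete ({true} : Set Bool)).preimage (continuous_snd.comp g.cont)
  · intro y hy
    rcases hsurj y with h | ⟨z, rfl⟩
    · exact h
    · have h3 : (g.f (j₁.f z)).2 = true := hy
      rw [k1] at h3
      exact Bool.noConfusion h3
  · intro y hy
    rcases hsurj y with ⟨z, rfl⟩ | h
    · exact absurd (k0 z) hy
    · exact h
  · intro z hz
    have h3 : (g.f (j₁.f z)).2 = true := hz
    rw [k1] at h3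
    exact Bool.noConfusion h3

/-- carrier of the fibre square -/
abbrev FPX (X : GS G) : Type := {p : X.X × X.X // X.toPath p.1 = X.toPath p.2}

/-- shift of the fibre square -/
def FPsh (X : GS G) (p : FPX X) : FPX X := ⟨(X.sh p.1.1, X.sh p.1.2), by
  have h := p.2
  show X.toPath (X.sh p.1.1) = X.toPath (X.sh p.1.2)
  rw [toPath_sh, toPath_sh, h]⟩

/-- the fibre square of an object over the terminal object -/
def FP (X : GS G) : GS G where
  X := FPX X
  lab p := X.lab p.1.1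
  sh := FPsh X
  lab_cont := X.lab_cont.comp (continuous_fst.comp continuous_subtype_val)
  sh_cont := Continuous.subtype_mk
    ((X.sh_cont.comp (continuous_fst.comp continuous_subtype_val)).prodMk
    (X.sh_cont.comp (continuous_snd.comp continuous_subtype_val))) _
  sh_open := by
    intro O hO
    obtain ⟨O', hO', rfl⟩ := isOpen_induced_iff.1 hO
    rw [isOpen_iff_mem_nhds]
    rintro _ ⟨⟨⟨x, x'⟩, hp⟩, hx, rfl⟩
    obtain ⟨U, V, hU, hV, hxU, hxV, hUV⟩ := isOpen_prod_iff.1 hO' x x' hx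
    let W := {y | X.lab y = X.lab x}
    have hW : IsOpen W := (isOpen_discrete {X.lab x}).preimage X.lab_cont
    have hxx : X.lab x' = X.lab x := by
      have := congrArg (fun ξ : Path G => ξ 0) hp
      exact this.symm
    have h1 : IsOpen (X.sh '' (U ∩ W)) := X.sh_open _ (hU.inter hW)
    have h2 : IsOpen (X.sh '' (V ∩ W)) := X.sh_open _ (hV.inter hW)
    have h3 := (h1.prod h2).preimage
      (continuous_subtype_val (p := fun p : X.X × X.X => X.toPath p.1 = X.toPath p.2))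
    refine Filter.mem_of_superset (h3.mem_nhds ⟨⟨x, ⟨hxU, rfl⟩, rfl⟩, ⟨x', ⟨hxV, hxx⟩, rfl⟩⟩) ?_
    rintro ⟨⟨y, y'⟩, hy⟩ ⟨⟨z, ⟨hz1, hz2⟩, h4⟩, ⟨z', ⟨hz3, hz4⟩, h5⟩⟩
    dsimp at h4 h5 hy
    subst h4 h5
    have h6 : X.toPath z = X.toPath z' := by
      apply Path.eq_of_zero_sh
      · rw [toPath_zero, toPath_zero, hz2, hz4]
      · rw [← toPath_sh, ← toPath_sh, hy]
    exact ⟨⟨(z, z'), h6⟩, hUV ⟨hz1, hz3⟩, rfl⟩
  compat p := X.compat p.1.1
  ex := by
    rintro e ⟨⟨y, y'⟩, hy⟩ h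
    dsimp at hy h
    obtain ⟨x, h1, h2⟩ := X.ex e y h
    obtain ⟨x', h3, h4⟩ := X.ex e y' (by rw [← toPath_zero, ← hy]; exact h)
    refine ⟨⟨(x, x'), ?_⟩, h1, ?_⟩
    · apply Path.eq_of_zero_sh
      · rw [toPath_zero, toPath_zero, h1, h3]
      · rw [← toPath_sh, ← toPath_sh, h2, h4, hy]
    · apply Subtype.ext
      exact Prod.ext h2 h4
  inj := by
    rintro ⟨⟨x, x'⟩, hx⟩ ⟨⟨y, y'⟩, hy⟩ h h'
    have h3 := congrArg Subtype.val h'
    have h1 := (Prod.ext_iff.1 h3).1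
    have h2 := (Prod.ext_iff.1 h3).2
    dsimp at h1 h2 h hx hy
    apply Subtype.ext
    refine Prod.ext (X.inj _ _ h h1) (X.inj _ _ ?_ h2)
    rw [← toPath_zero, ← toPath_zero, ← hx, ← hy]
    exact h

/-- first projection -/
def FP.fst (X : GS G) : FP X ⟶ X where
  f p := p.1.1
  cont := continuous_fst.comp continuous_subtype_val
  lab _ := rfl
  sh _ := rfl

/-- second projection -/
def FP.snd (X : GS G) : FP X ⟶ X where
  f p := p.1.2
  cont := continuous_snd.comp continuous_subtype_val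
  lab p := by
    have := congrArg (fun ξ : Path G => ξ 0) p.2
    exact this.symm
  sh _ := rfl

/-- the path space, to be topologised by the topology coinduced from `X` -/
def CoX (_X : GS G) : Type := Path G

/-- the map to it -/
def toCoX (X : GS G) : X.X → CoX X := X.toPath

/-- its shift -/
def CoSh (X : GS G) : CoX X → CoX X := Path.sh

instance (X : GS G) : TopologicalSpace (CoX X) := TopologicalSpace.coinduced (toCoX X) X.top

/-- the path space with the topology coinduced from `X` -/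
def Co (X : GS G) : GS G where
  X := CoX X
  lab ξ := ξ.1 0
  sh := CoSh X
  lab_cont := by
    refine continuous_coinduced_dom.2 ?_
    exact X.lab_cont
  sh_cont := by
    refine continuous_coinduced_dom.2 ?_
    have : CoSh X ∘ toCoX X = toCoX X ∘ X.sh := by
      funext x
      exact (toPath_sh X x).symm
    rw [this]
    exact continuous_coinduced_rng.comp X.sh_cont
  sh_open := by
    intro O hO
    replace hO := isOpen_coinduced.1 hO
    refine isOpen_coinduced.2 ?_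
    have : toCoX X ⁻¹' (CoSh X '' O) = X.sh '' (toCoX X ⁻¹' O) := by
      ext x
      constructor
      · rintro ⟨η, hη, h⟩
        obtain ⟨y, h1, h2⟩ := X.iter_ex 1 η x h
        exact ⟨y, by show X.toPath y ∈ O; rw [h1]; exact hη, h2⟩
      · rintro ⟨y, hy, rfl⟩
        exact ⟨X.toPath y, hy, (toPath_sh X y).symm⟩
    rw [this]
    exact X.sh_open _ hO
  compat ξ := Path.compat ξ 0
  ex e ξ h := ⟨Path.cons e ξ h, rfl, rfl⟩
  inj _ _ h h' := Path.eq_of_zero_sh h h'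

/-- the map `X ⟶ Co X` -/
def toCo (X : GS G) : X ⟶ Co X where
  f := toCoX X
  cont := continuous_coinduced_rng
  lab _ := rfl
  sh x := (toPath_sh X x).symm

section Struct

variable {X : GS G} {τ : Aut X} (hX : IsTors X τ)

include hX

theorem tors_surj (ξ : Path G) : ∃ x, X.toPath x = ξ := by
  obtain ⟨f⟩ := hX.ne (Upt ξ) (isPt_Upt ξ)
  exact ⟨_, Upt.toPath_hom f⟩

theorem tors_tr (x y : X.X) (h : X.toPath x = X.toPath y) : ∃ n : ℤ, y = Hom.f (τ ^ n).hom x := by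
  obtain ⟨n, hn, _⟩ := hX.tr _ (isPt_Upt _) (Upt.lift X _ x rfl) (Upt.lift X _ y h.symm)
  refine ⟨n, ?_⟩
  have := congrArg (fun f : Upt (X.toPath x) ⟶ X => f.f (Upt.base _)) hn
  rw [comp_f, Upt.lift_base, Upt.lift_base] at this
  exact this

theorem tors_fr (x : X.X) (n : ℤ) (h : Hom.f (τ ^ n).hom x = x) : n = 0 := by
  obtain ⟨m, _, hm⟩ := hX.tr _ (isPt_Upt _) (Upt.lift X _ x rfl) (Upt.lift X _ x rfl)
  have h1 : n = m := by
    apply hm
    apply Upt.hom_ext
    rw [comp_f, Upt.lift_base, h]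
  have h2 : 0 = m := by
    apply hm
    apply Upt.hom_ext
    rw [comp_f, Upt.lift_base, act_zero]
  omega

theorem tors_quot {O : Set (Path G)} (hO : IsOpen (X.toPath ⁻¹' O)) : IsOpen O := by
  obtain ⟨h, hh⟩ := hX.coeq (Co X) (toCo X) (by
    ext x
    exact toPath_map _ _) (Tm G) isT_Tm
  have h1 := hh (toTm X)
  have h2 : ∀ ξ : Path G, h.f (ξ, ()) = ξ := by
    intro ξ
    obtain ⟨x, rfl⟩ := tors_surj hX ξ
    exact congrArg (fun f : X ⟶ Co X => f.f x) h1
  have h3 : @IsOpen (CoX X) _ O := isOpen_coinduced.2 hO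
  have h4 : IsOpen (h.f ⁻¹' O) := @IsOpen.preimage _ _ _ (Co X).top _ h.cont _ h3
  have h5 : IsOpen ((fun ξ : Path G => ((ξ, ()) : Path G × Unit)) ⁻¹' (h.f ⁻¹' O)) :=
    h4.preimage (continuous_id.prodMk continuous_const)
  convert h5 using 1
  ext ξ
  show ξ ∈ O ↔ h.f (ξ, ()) ∈ O
  rw [h2]
  exact Iff.rfl

theorem tors_open {W : Set X.X} (hW : IsOpen W) : IsOpen (X.toPath '' W) := by
  apply tors_quot hX
  have : X.toPath ⁻¹' (X.toPath '' W) = ⋃ n : ℤ, (Hom.f (τ ^ n).hom) ⁻¹' W := by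
    ext x
    simp only [Set.mem_preimage, Set.mem_image, Set.mem_iUnion]
    constructor
    · rintro ⟨w, hw, h⟩
      obtain ⟨n, hn⟩ := tors_tr hX x w h.symm
      exact ⟨n, by rw [← hn]; exact hw⟩
    · rintro ⟨n, hn⟩
      exact ⟨_, hn, act_toPath τ n x⟩
  rw [this]
  exact isOpen_iUnion (fun n => hW.preimage (Hom.cont _))

theorem tors_diag : IsOpen {p : (FP X).X | p.1.1 = p.1.2} := by
  obtain ⟨Y₀, Y₁, j₀, j₁, hc, h0, h1⟩ := hX.dec (FP X) (FP.fst X) (FP.snd X)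
  obtain ⟨S, hS, hS0, hS1, -, -⟩ := cop_clopen hc
  convert hS using 1
  ext p
  constructor
  · intro hp
    by_contra hpS
    obtain ⟨z, hz⟩ := hS1 p hpS
    refine not_isE_of (Upt.base (Y₁.toPath z)) (h1 _ (Upt.lift Y₁ _ z rfl) ?_)
    apply Upt.hom_ext
    rw [comp_f, comp_f, comp_f, comp_f, Upt.lift_base, hz]
    exact hp
  · intro hp
    obtain ⟨z, rfl⟩ := hS0 p hp
    exact congrArg (fun f : Y₀ ⟶ X => f.f z) h0

theorem tors_local (x : X.X) : ∃ W : Set X.X, IsOpen W ∧ x ∈ W ∧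
    ∀ y ∈ W, ∀ z ∈ W, X.toPath y = X.toPath z → y = z := by
  obtain ⟨O, hO, h⟩ := isOpen_induced_iff.1 (tors_diag hX)
  have h' : ∀ p : FPX X, p.1 ∈ O ↔ p.1.1 = p.1.2 := fun p => Set.ext_iff.1 h p
  have hx : (x, x) ∈ O := (h' ⟨(x, x), rfl⟩).2 rfl
  obtain ⟨U, V, hU, hV, hxU, hxV, hUV⟩ := isOpen_prod_iff.1 hO x x hx
  refine ⟨U ∩ V, hU.inter hV, ⟨hxU, hxV⟩, fun y hy z hz hyz => ?_⟩
  exact (h' ⟨(y, z), hyz⟩).1 (hUV ⟨hy.1, hz.2⟩)

theorem tors_section [Finite G.E] :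
    ∃ s : Path G → X.X, Continuous s ∧ ∀ ξ, X.toPath (s ξ) = ξ := by
  classical
  obtain ⟨m, hm⟩ := Path.leb (G := G) (fun ξ n => ∃ W : Set X.X, IsOpen W ∧
      (∀ y ∈ W, ∀ z ∈ W, X.toPath y = X.toPath z → y = z) ∧
      ∀ η, Path.agree n η ξ → η ∈ X.toPath '' W) (by
    intro ξ
    obtain ⟨x, hx⟩ := tors_surj hX ξ
    obtain ⟨W, hW, hxW, h⟩ := tors_local hX x
    obtain ⟨n, hn⟩ := Path.basis (tors_open hX hW) (ξ := ξ) ⟨x, hxW, hx⟩
    exact ⟨n, W, hW, h, hn⟩) (by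
    rintro ξ η n m ⟨W, hW, h, h'⟩ hagr hnm
    exact ⟨W, hW, h, fun κ hκ => h' κ ((hκ.mono hnm).trans hagr)⟩)
  let st : Setoid (Path G) := ⟨Path.agree m, Path.agree_refl m, fun h => h.symm, fun h h' => h.trans h'⟩
  choose W hW hinj hcov using hm
  let r : Path G → Path G := fun η => (Quotient.mk st η).out
  have hr : ∀ η, Path.agree m (r η) η := fun η => Quotient.mk_out (s := st) η
  have hr' : ∀ η κ, Path.agree m η κ → r η = r κ := fun η κ h => by
    show (Quotient.mk st η).out = (Quotient.mk st κ).out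
    rw [Quotient.sound (s := st) h]
  have hex : ∀ η, ∃ x, x ∈ W (r η) ∧ X.toPath x = η := fun η => hcov (r η) η (hr η).symm
  choose s hs1 hs2 using hex
  refine ⟨s, ?_, hs2⟩
  rw [continuous_iff_continuousAt]
  intro η
  rw [ContinuousAt, tendsto_nhds]
  intro O hO hη
  have h1 : IsOpen (X.toPath '' (O ∩ W (r η))) := tors_open hX (hO.inter (hW _))
  have h2 : IsOpen {κ : Path G | Path.agree m κ η} := Path.isOpen_agree m η
  refine Filter.mem_of_superset ((h1.inter h2).mem_nhds ⟨⟨s η, ⟨hη, hs1 η⟩, hs2 η⟩,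
    Path.agree_refl m η⟩) ?_
  rintro κ ⟨⟨x, ⟨hxO, hxW⟩, hx⟩, hκ⟩
  have h3 : s κ ∈ W (r η) := by
    have := hs1 κ
    rwa [hr' κ η hκ] at this
  have h4 : s κ = x := hinj (r η) _ h3 _ hxW (by rw [hs2, hx])
  show s κ ∈ O
  rw [h4]; exact hxO

theorem tors_struct [Finite G.E] : ∃ f : Path G → ℤ, Continuous f ∧ ∀ ξ : Path G, IsPer ξ →
    ∀ n, n ∈ Pers X τ (Upt ξ) ↔
      birkhoffSum Path.sh f (Function.minimalPeriod Path.sh ξ) ξ ∣ n := by
  obtain ⟨s, hs, hs'⟩ := tors_section hX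
  have hf : ∀ ξ, ∃ n : ℤ, X.sh (s ξ) = Hom.f (τ ^ n).hom (s (Path.sh ξ)) := fun ξ =>
    tors_tr hX _ _ (by rw [hs', toPath_sh, hs'])
  choose f hf using hf
  refine ⟨f, ?_, fun ξ hξ n => pers_section s hs' (tors_tr hX) (tors_fr hX) f hf hξ n⟩
  rw [continuous_discrete_rng]
  intro n
  have h1 : Continuous (fun ξ : Path G => (⟨(X.sh (s ξ), Hom.f (τ ^ n).hom (s (Path.sh ξ))), by
      dsimp
      rw [toPath_sh, hs', act_toPath, hs']⟩ : (FP X).X)) :=
    Continuous.subtype_mk ((X.sh_cont.comp hs).prodMk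
      ((Hom.cont _).comp (hs.comp Path.continuous_sh))) _
  have h2 := (tors_diag hX).preimage h1
  convert h2 using 1
  ext ξ
  constructor
  · intro h
    show X.sh (s ξ) = Hom.f (τ ^ n).hom (s (Path.sh ξ))
    rw [hf ξ, show f ξ = n from h]
  · intro h
    have h' : X.sh (s ξ) = Hom.f (τ ^ n).hom (s (Path.sh ξ)) := h
    rw [hf ξ] at h'
    have h3 := congrArg (Hom.f (τ ^ (-n)).hom) h'
    rw [← act_add, ← act_add, neg_add_cancel, act_zero] at h3
    have := tors_fr hX _ _ h3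
    show f ξ = n
    omega

end Struct

end ParrySullivan
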