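import Pool.Agent.R708.PS.Std

/-!
The standard torsor, and the structure of decidable torsors.
-/

open CategoryTheory

namespace ParrySullivan

open GS

variable {G : DGraph}

/-! ### clopen invariant subobjects -/

/-- an open invariant subset as an object -/
def Sub (Y : GS G) (S : Set Y.X) (hS : IsOpen S) (inv : ∀ y, Y.sh y ∈ S ↔ y ∈ S) : GS G where
  X := S
  lab y := Y.lab y.1
  sh y := ⟨Y.sh y.1, (inv y.1).2 y.2⟩
  lab_cont := Y.lab_cont.comp continuous_subtype_val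
  sh_cont := Continuous.subtype_mk (Y.sh_cont.comp continuous_subtype_val) _
  sh_open := by
    intro O hO
    have h1 : IsOpen (Y.sh '' (Subtype.val '' O)) := Y.sh_open _ (hS.isOpenMap_subtype_val _ hO)
    have h2 := h1.preimage (continuous_subtype_val (p := fun y => y ∈ S))
    convert h2 using 1
    ext ⟨y, hy⟩
    constructor
    · rintro ⟨x, hx, h⟩
      exact ⟨x.1, ⟨x, hx, rfl⟩, congrArg Subtype.val h⟩
    · rintro ⟨_, ⟨x, hx, rfl⟩, h⟩
      exact ⟨x, hx, Subtype.ext h⟩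
  compat y := Y.compat y.1
  ex e y h := by
    obtain ⟨x, h1, h2⟩ := Y.ex e y.1 h
    exact ⟨⟨x, (inv x).1 (by rw [h2]; exact y.2)⟩, h1, Subtype.ext h2⟩
  inj x x' h h' := Subtype.ext (Y.inj _ _ h (congrArg Subtype.val h'))

/-- inclusion -/
def Sub.incl (Y : GS G) (S : Set Y.X) (hS : IsOpen S) (inv : ∀ y, Y.sh y ∈ S ↔ y ∈ S) :
    Sub Y S hS inv ⟶ Y where
  f := Subtype.val
  cont := continuous_subtype_val
  lab _ := rfl
  sh _ := rfl

theorem Sub.isCop (Y : GS G) (S : Set Y.X) (hS : IsOpen S) (inv : ∀ y, Y.sh y ∈ S ↔ y ∈ S)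
    (hS' : IsOpen Sᶜ) (inv' : ∀ y, Y.sh y ∈ Sᶜ ↔ y ∈ Sᶜ) :
    IsCop (Sub.incl Y S hS inv) (Sub.incl Y Sᶜ hS' inv') := by
  classical
  intro Z a b
  let h : Y.X → Z.X := fun y => if hy : y ∈ S then a.f ⟨y, hy⟩ else b.f ⟨y, hy⟩
  have ha : ∀ (y : Y.X) (hy : y ∈ S), h y = a.f ⟨y, hy⟩ := fun y hy => dif_pos hy
  have hb : ∀ (y : Y.X) (hy : y ∈ Sᶜ), h y = b.f ⟨y, hy⟩ := fun y hy => dif_neg hy
  have hc : Continuous h := by
    refine ⟨fun O hO => ?_⟩
    have h1 : IsOpen (Subtype.val '' (a.f ⁻¹' O) : Set Y.X) :=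
      hS.isOpenMap_subtype_val _ (hO.preimage a.cont)
    have h2 : IsOpen (Subtype.val '' (b.f ⁻¹' O) : Set Y.X) :=
      hS'.isOpenMap_subtype_val _ (hO.preimage b.cont)
    convert h1.union h2 using 1
    ext y
    constructor
    · intro hy
      by_cases hyS : y ∈ S
      · left
        exact ⟨⟨y, hyS⟩, by show a.f ⟨y, hyS⟩ ∈ O; rw [← ha]; exact hy, rfl⟩
      · right
        exact ⟨⟨y, hyS⟩, by show b.f ⟨y, hyS⟩ ∈ O; rw [← hb y hyS]; exact hy, rfl⟩
    · rintro (⟨⟨y, hy⟩, h3, rfl⟩ | ⟨⟨y, hy⟩, h3, rfl⟩)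
      · show h y ∈ O
        rw [ha y hy]; exact h3
      · show h y ∈ O
        rw [hb y hy]; exact h3
  refine ⟨⟨h, hc, ?_, ?_⟩, ⟨?_, ?_⟩, ?_⟩
  · intro y
    by_cases hy : y ∈ S
    · rw [ha y hy, a.lab]; rfl
    · rw [hb y hy, b.lab]; rfl
  · intro y
    by_cases hy : y ∈ S
    · rw [ha y hy, ha _ ((inv y).2 hy), a.sh]; rfl
    · rw [hb y hy, hb _ ((inv' y).2 hy), b.sh]; rfl
  · ext y
    exact ha y.1 y.2
  · ext y
    exact hb y.1 y.2
  · rintro g ⟨h1, h2⟩
    ext y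
    by_cases hy : y ∈ S
    · exact (congrArg (fun f : Sub Y S hS inv ⟶ Z => Hom.f f ⟨y, hy⟩) h1).trans (ha y hy).symm
    · exact (congrArg (fun f : Sub Y Sᶜ hS' inv' ⟶ Z => Hom.f f ⟨y, hy⟩) h2).trans (hb y hy).symm

/-! ### the standard torsor -/

/-- the standard torsor -/
def StdT (G : DGraph) : GS G := Tw G ℤ (Homeomorph.addRight (-1))

/-- its automorphism -/
def tau (G : DGraph) : Aut (StdT G) where
  hom := ⟨fun p => (p.1, p.2 + 1), continuous_fst.prodMk
    ((continuous_of_discreteTopology (f := fun n : ℤ => n + 1)).comp continuous_snd), fun _ => rfl,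
    fun p => Prod.ext rfl (by
      show p.2 + 1 + -1 = p.2 + -1 + 1
      ring)⟩
  inv := ⟨fun p => (p.1, p.2 - 1), continuous_fst.prodMk
    ((continuous_of_discreteTopology (f := fun n : ℤ => n - 1)).comp continuous_snd), fun _ => rfl,
    fun p => Prod.ext rfl (by
      show p.2 - 1 + -1 = p.2 + -1 - 1
      ring)⟩
  hom_inv_id := by
    ext p
    exact Prod.ext rfl (by show p.2 + 1 - 1 = p.2; ring)
  inv_hom_id := by
    ext p
    exact Prod.ext rfl (by show p.2 - 1 + 1 = p.2; ring)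

theorem tau_zpow (n : ℤ) (p : (StdT G).X) : Hom.f (tau G ^ n).hom p = (p.1, p.2 + n) := by
  induction n using Int.induction_on generalizing p with
  | zero => rw [act_zero]; exact Prod.ext rfl (by simp)
  | succ n ih =>
    rw [act_add, ih, zpow_one]
    refine Prod.ext rfl ?_
    show p.2 + 1 + (n : ℤ) = p.2 + ((n : ℤ) + 1)
    ring
  | pred n ih =>
    rw [sub_eq_add_neg, act_add, ih, zpow_neg_one]
    refine Prod.ext rfl ?_
    show p.2 - 1 + (-(n : ℤ)) = p.2 + (-(n : ℤ) + -1)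
    ring

theorem StdT_toPath (p : (StdT G).X) : (StdT G).toPath p = p.1 := Tw_toPath _ _ p

theorem isTors_std : IsTors (StdT G) (tau G) where
  ne U hU := by
    obtain ⟨ξ, ⟨i⟩⟩ := isPt_iff hU
    exact ⟨i.inv ≫ Upt.lift (StdT G) ξ (ξ, 0) (StdT_toPath _)⟩
  tr U hU φ ψ := by
    obtain ⟨ξ, ⟨i⟩⟩ := isPt_iff hU
    refine ⟨((i.hom ≫ ψ).f (Upt.base ξ)).2 - ((i.hom ≫ φ).f (Upt.base ξ)).2, ?_, ?_⟩
    · show ψ = φ ≫ _
      apply (cancel_epi i.hom).1
      apply Upt.hom_ext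
      rw [← Category.assoc, comp_f _ (tau G ^ _).hom, tau_zpow]
      have hbase : ∀ φ : Upt ξ ⟶ StdT G, (φ.f (Upt.base ξ)).1 = ξ := fun φ =>
        (StdT_toPath _).symm.trans (Upt.toPath_hom φ)
      refine Prod.ext ?_ ?_
      · exact (hbase _).trans (hbase _).symm
      · show ((i.hom ≫ ψ).f (Upt.base ξ)).2 = ((i.hom ≫ φ).f (Upt.base ξ)).2 +
          (((i.hom ≫ ψ).f (Upt.base ξ)).2 - ((i.hom ≫ φ).f (Upt.base ξ)).2)
        ring
    · intro n hn
      have h1 : (i.hom ≫ ψ).f (Upt.base ξ) = Hom.f (tau G ^ n).hom ((i.hom ≫ φ).f (Upt.base ξ)) :=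
        congrArg (fun f : U ⟶ StdT G => (i.hom ≫ f).f (Upt.base ξ)) hn
      rw [tau_zpow] at h1
      rw [h1]
      show n = ((i.hom ≫ φ).f (Upt.base ξ)).2 + n - ((i.hom ≫ φ).f (Upt.base ξ)).2
      ring
  dec Y p q := by
    let S : Set Y.X := {y | p.f y = q.f y}
    have hS0 : ∀ y, p.f y = q.f y ↔ (p.f y).2 = (q.f y).2 := by
      intro y
      constructor
      · intro h; rw [h]
      · intro h
        refine Prod.ext ?_ h
        rw [← StdT_toPath, ← StdT_toPath, toPath_map, toPath_map]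
    have hc : Continuous (fun y => ((p.f y).2, (q.f y).2) : Y.X → ℤ × ℤ) :=
      (continuous_snd.comp p.cont).prodMk (continuous_snd.comp q.cont)
    have hS : IsOpen S := by
      have : S = (fun y => ((p.f y).2, (q.f y).2) : Y.X → ℤ × ℤ) ⁻¹' {r | r.1 = r.2} := by
        ext y; exact hS0 y
      rw [this]
      exact (isOpen_discrete _).preimage hc
    have hS' : IsOpen Sᶜ := by
      have : Sᶜ = (fun y => ((p.f y).2, (q.f y).2) : Y.X → ℤ × ℤ) ⁻¹' {r | r.1 = r.2}ᶜ := by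
        ext y; exact not_congr (hS0 y)
      rw [this]
      exact (isOpen_discrete _).preimage hc
    have inv : ∀ y, Y.sh y ∈ S ↔ y ∈ S := by
      intro y
      show p.f (Y.sh y) = q.f (Y.sh y) ↔ p.f y = q.f y
      rw [← p.sh, ← q.sh]
      constructor
      · intro h
        exact (StdT G).inj _ _ (by rw [p.lab, q.lab]) h
      · intro h; rw [h]
    refine ⟨Sub Y S hS inv, Sub Y Sᶜ hS' (fun y => not_congr (inv y)), Sub.incl _ _ _ _,
      Sub.incl _ _ _ _, Sub.isCop _ _ _ _ _ _, ?_, ?_⟩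
    · ext y
      exact y.2
    · intro Z u hu
      rw [isE_iff_isEmpty]
      refine ⟨fun z => (u.f z).2 ?_⟩
      exact congrArg (fun f => Hom.f f z) hu
  coeq Y g hg T hT := by
    have hg' : ∀ (ξ : Path G) (n : ℤ), g.f (ξ, n) = g.f (ξ, 0) := by
      have h1 : ∀ (ξ : Path G) (n : ℤ), g.f (ξ, n + 1) = g.f (ξ, n) := by
        intro ξ n
        exact congrArg (fun f => Hom.f f ((ξ, n) : (StdT G).X)) hg
      intro ξ n
      induction n using Int.induction_on with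
      | zero => rfl
      | succ n ih => rw [h1, ih]
      | pred n ih => rw [← ih, ← h1 ξ (-(n : ℤ) - 1), sub_add_cancel]
    obtain ⟨t, ht⟩ := isT_Tm (G := G) T
    obtain ⟨_, hX⟩ := hT (StdT G)
    let h : Tm G ⟶ Y :=
      { f := fun p => g.f (p.1, 0)
        cont := g.cont.comp (continuous_fst.prodMk continuous_const)
        lab := fun p => g.lab _
        sh := fun p => by
          rw [g.sh]
          show g.f (Path.sh p.1, 0 + -1) = g.f (Path.sh p.1, 0)
          rw [hg'] }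
    refine ⟨t ≫ h, fun p => ?_⟩
    rw [← Category.assoc, toTm_unique (p ≫ t)]
    ext ⟨ξ, n⟩
    show g.f ((StdT G).toPath (ξ, n), 0) = g.f (ξ, n)
    rw [StdT_toPath, hg' ξ n]

theorem pers_std {ξ : Path G} (hξ : IsPer ξ) (n : ℤ) :
    n ∈ Pers (StdT G) (tau G) (Upt ξ) ↔ (Function.minimalPeriod Path.sh ξ : ℤ) ∣ n := by
  have hS : ∀ (k : ℕ) (ξ : Path G), birkhoffSum Path.sh (fun _ => (-1 : ℤ)) k ξ = -(k : ℤ) := by
    intro k ξ
    simp [birkhoffSum]
  rw [pers_section (X := StdT G) (τ := tau G) (fun ξ => (ξ, 0)) (fun ξ => StdT_toPath _) ?_ ?_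
    (fun _ => -1) ?_ hξ n, hS, neg_dvd]
  · intro x y h
    rw [StdT_toPath, StdT_toPath] at h
    refine ⟨y.2 - x.2, ?_⟩
    rw [tau_zpow]
    exact Prod.ext h.symm (by simp)
  · intro x n h
    rw [tau_zpow] at h
    have := (Prod.ext_iff.1 h).2
    dsimp at this
    omega
  · intro ξ
    rw [tau_zpow]
    rfl

end ParrySullivan
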