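import Pool.Agent.R708.PS.Std
import Pool.Agent.R708.PS.Jacobi

/-!
Trace formula for weighted graphs, periodic paths, orbits.
-/

open Polynomial

namespace ParrySullivan

/-- every vertex receives an edge -/
def NoSource (K : DGraph) : Prop := ∀ v, ∃ e, K.t e = v

theorem NoSource.exists_path {K : DGraph} (h : NoSource K) (v : K.V) :
    ∃ ξ : Path K, K.t (ξ 0) = v := by
  choose e he using h
  let vs : ℕ → K.V := fun n => Nat.rec v (fun _ u => K.s (e u)) n
  refine ⟨⟨fun n => e (vs n), fun n => ?_⟩, he v⟩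
  rw [he]

/-- weight of the first `n` letters -/
def sw {K : DGraph} (w : K.E → ℕ) (n : ℕ) (ξ : Path K) : ℕ := ∑ j ∈ Finset.range n, w (ξ j)

theorem sw_add {K : DGraph} (w : K.E → ℕ) (m n : ℕ) (ξ : Path K) :
    sw w (m + n) ξ = sw w m ξ + sw w n (Path.sh^[m] ξ) := by
  simp only [sw, Finset.sum_range_add, Path.sh_iter]
  congr 1
  refine Finset.sum_congr rfl (fun j _ => ?_)
  rw [add_comm j m]

theorem sw_mul {K : DGraph} (w : K.E → ℕ) {ξ : Path K} {p : ℕ} (h : Path.sh^[p] ξ = ξ) (j : ℕ) :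
    sw w (p * j) ξ = j * sw w p ξ := by
  induction j with
  | zero => simp [sw]
  | succ j ih => rw [Nat.mul_succ, sw_add, ih, sh_iter_mul h]; ring

theorem sw_shift {K : DGraph} (w : K.E → ℕ) {ξ : Path K} {p : ℕ} (h : Path.sh^[p] ξ = ξ) (k : ℕ) :
    sw w p (Path.sh^[k] ξ) = sw w p ξ := by
  have h1 := sw_add w p k ξ
  have h2 := sw_add w k p ξ
  rw [h] at h1
  rw [add_comm k p, h1] at h2
  omega

/-- periodic paths as a type -/
abbrev Per (K : DGraph) : Type := {ξ : Path K // IsPer ξ}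

theorem periodic_apply {K : DGraph} {i : ℕ} {ξ : Path K} (hξ : Path.sh^[i] ξ = ξ) (n : ℕ) :
    ξ n = ξ (n % i) := by
  conv_lhs => rw [← Nat.mod_add_div n i]
  have h : (Path.sh^[i * (n / i)] ξ) (n % i) = ξ (n % i) :=
    congrArg (fun ζ : Path K => ζ (n % i)) (sh_iter_mul hξ (n / i))
  rw [Path.sh_iter] at h
  exact h

theorem periodic_ext {K : DGraph} {i : ℕ} (hi : 0 < i) {ξ η : Path K} (hξ : Path.sh^[i] ξ = ξ)
    (hη : Path.sh^[i] η = η) (h : ∀ j < i, ξ j = η j) : ξ = η := by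
  apply Path.ext
  intro n
  rw [periodic_apply hξ, periodic_apply hη]
  exact h _ (Nat.mod_lt _ hi)

section PerSec

variable {K : DGraph} [Fintype K.E]

theorem fix_finite {i : ℕ} (hi : 0 < i) : {ξ : Per K | Path.sh^[i] ξ.1 = ξ.1}.Finite := by
  apply Set.Finite.of_injOn (f := fun ξ : Per K => (fun j : Fin i => ξ.1 j : Fin i → K.E))
    (t := Set.univ) (fun _ _ => Set.mem_univ _) _ Set.finite_univ
  intro ξ hξ η hη h
  exact Subtype.ext (periodic_ext hi hξ hη (fun j hj => congrFun h ⟨j, hj⟩))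

variable (K) in
/-- the periodic paths of period `i` -/
noncomputable def fixF (i : ℕ) (hi : 0 < i) : Finset (Per K) :=
  (fix_finite (K := K) hi).toFinset

theorem mem_fixF {i : ℕ} {hi : 0 < i} {ξ : Per K} : ξ ∈ fixF K i hi ↔ Path.sh^[i] ξ.1 = ξ.1 := by
  simp [fixF]

end PerSec

section Mat

variable (K : DGraph) [Fintype K.V] [DecidableEq K.V] [Fintype K.E] (w : K.E → ℕ)

/-- the weighted transfer matrix -/
noncomputable def wMat : Matrix K.V K.V ℚ[X] :=
  Matrix.of fun u v => ∑ e : K.E, if K.t e = u ∧ K.s e = v then X ^ (w e) else 0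

variable {K}

open Classical in
theorem wMat_pow (hns : NoSource K) (L : ℕ) (u v : K.V) :
    (wMat K w ^ L) u v = ∑ x : Fin L → K.E,
      if (∃ ξ : Path K, (∀ j : Fin L, ξ j = x j) ∧ K.t (ξ 0) = u ∧ K.t (ξ L) = v)
        then X ^ (∑ j, w (x j)) else 0 := by
  induction L generalizing u with
  | zero =>
    simp only [pow_zero, Matrix.one_apply, Finset.univ_unique, Finset.sum_singleton,
      Finset.univ_eq_empty, Finset.sum_empty]
    congr 1
    apply propext
    constructor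
    · rintro rfl
      obtain ⟨ξ, hξ⟩ := hns.exists_path u
      exact ⟨ξ, fun j => j.elim0, hξ, hξ⟩
    · rintro ⟨ξ, _, h1, h2⟩
      exact h1.symm.trans h2
  | succ L ih =>
    have hP : ∀ (e : K.E) (x : Fin L → K.E),
        (∃ ξ : Path K, (∀ j : Fin (L + 1), ξ j = (Fin.cons e x : Fin (L + 1) → K.E) j) ∧
          K.t (ξ 0) = u ∧ K.t (ξ (L + 1)) = v) ↔
        (K.t e = u ∧ ∃ ξ : Path K, (∀ j : Fin L, ξ j = x j) ∧ K.t (ξ 0) = K.s e ∧
          K.t (ξ L) = v) := by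
      intro e x
      constructor
      · rintro ⟨ξ, h1, h2, h3⟩
        have h4 : ξ 0 = e := h1 0
        refine ⟨by rw [← h4]; exact h2, Path.sh ξ, fun j => ?_, ?_, h3⟩
        · have := h1 j.succ
          rw [Fin.cons_succ] at this
          exact this
        · rw [← h4]; exact (ξ.compat 0).symm
      · rintro ⟨h1, ξ, h2, h3, h4⟩
        refine ⟨Path.cons e ξ h3.symm, fun j => ?_, h1, h4⟩
        refine Fin.cases ?_ (fun j => ?_) j
        · rfl
        · rw [Fin.cons_succ]; exact h2 j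
    have hR : (∑ x : Fin (L + 1) → K.E,
        if (∃ ξ : Path K, (∀ j : Fin (L + 1), ξ j = x j) ∧ K.t (ξ 0) = u ∧ K.t (ξ (L + 1)) = v)
          then (X : ℚ[X]) ^ (∑ j, w (x j)) else 0) =
        ∑ e : K.E, ∑ x : Fin L → K.E,
          if (K.t e = u ∧ ∃ ξ : Path K, (∀ j : Fin L, ξ j = x j) ∧ K.t (ξ 0) = K.s e ∧
            K.t (ξ L) = v) then (X : ℚ[X]) ^ (w e) * X ^ (∑ j, w (x j)) else 0 := by
      rw [← (Fin.consEquiv (fun _ => K.E)).sum_comp, Fintype.sum_prod_type]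
      refine Finset.sum_congr rfl (fun e _ => Finset.sum_congr rfl (fun x _ => ?_))
      show (if (∃ ξ : Path K, (∀ j : Fin (L + 1), ξ j = (Fin.cons e x : Fin (L + 1) → K.E) j) ∧
          K.t (ξ 0) = u ∧ K.t (ξ (L + 1)) = v) then
          (X : ℚ[X]) ^ (∑ j, w ((Fin.cons e x : Fin (L + 1) → K.E) j)) else 0) = _
      rw [Fin.sum_univ_succ, Fin.cons_zero]
      simp only [Fin.cons_succ, pow_add]
      congr 1
      exact propext (hP e x)
    rw [hR, pow_succ', Matrix.mul_apply]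
    simp only [ih]
    simp only [wMat, Matrix.of_apply, Finset.sum_mul_sum]
    rw [Finset.sum_comm]
    refine Finset.sum_congr rfl (fun e _ => ?_)
    rw [Finset.sum_comm]
    refine Finset.sum_congr rfl (fun x _ => ?_)
    rw [Finset.sum_eq_single (K.s e)]
    · by_cases h1 : K.t e = u <;> simp [h1]
    · intro r _ hr
      rw [if_neg (fun h => hr h.2.symm), zero_mul]
    · intro h; exact absurd (Finset.mem_univ _) h

theorem trace_pow_wMat (hns : NoSource K) {i : ℕ} (hi : 0 < i) :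
    (wMat K w ^ i).trace = ∑ ξ ∈ fixF K i hi, (X : ℚ[X]) ^ (sw w i ξ.1) := by
  classical
  rw [Matrix.trace]
  simp only [Matrix.diag_apply, wMat_pow w hns]
  rw [Finset.sum_comm]
  have hQ : ∀ (x : Fin i → K.E) (u : K.V),
      (∃ ξ : Path K, (∀ j : Fin i, ξ j = x j) ∧ K.t (ξ 0) = u ∧ K.t (ξ i) = u) ↔
      (K.t (x ⟨0, hi⟩) = u ∧ ∃ ξ : Per K, Path.sh^[i] ξ.1 = ξ.1 ∧ ∀ j : Fin i, ξ.1 j = x j) := by
    intro x u
    constructor
    · rintro ⟨ξ, h1, h2, h3⟩
      refine ⟨by rw [← h1]; exact h2, ⟨Path.rep i hi ξ (h3.trans h2.symm), i, hi,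
        Path.sh_rep hi (h3.trans h2.symm)⟩, Path.sh_rep hi (h3.trans h2.symm), fun j => ?_⟩
      rw [Path.rep_apply, Nat.mod_eq_of_lt j.2]
      exact h1 j
    · rintro ⟨h1, ξ, h2, h3⟩
      refine ⟨ξ.1, h3, by rw [← h1, ← h3], ?_⟩
      have : (Path.sh^[i] ξ.1) 0 = ξ.1 0 := congrArg (fun ζ : Path K => ζ 0) h2
      rw [Path.sh_iter, zero_add] at this
      rw [this, ← h1, ← h3]
  simp only [hQ, ite_and, Finset.sum_ite_eq, Finset.mem_univ, if_true]
  rw [← Finset.sum_filter]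
  symm
  refine Finset.sum_bij (fun ξ _ => (fun j : Fin i => ξ.1 j)) ?_ ?_ ?_ ?_
  · intro ξ hξ
    rw [Finset.mem_filter]
    exact ⟨Finset.mem_univ _, ξ, mem_fixF.1 hξ, fun j => rfl⟩
  · intro ξ hξ η hη h
    exact Subtype.ext (periodic_ext hi (mem_fixF.1 hξ) (mem_fixF.1 hη)
      (fun j hj => congrFun h ⟨j, hj⟩))
  · intro x hx
    obtain ⟨_, ξ, h1, h2⟩ := Finset.mem_filter.1 hx
    exact ⟨ξ, mem_fixF.2 h1, funext h2⟩
  · intro ξ hξ
    rw [sw, ← Fin.sum_univ_eq_sum_range (fun j => w (ξ.1 j))]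

end Mat

end ParrySullivan
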