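import Pool.Agent.R708.PS.Struct

/-!
What an equivalence `GS G ≌ GS H` gives on periodic orbits.
-/

open CategoryTheory

namespace ParrySullivan

open GS

/-- An orbit matching between the periodic paths of two graphs. -/
structure Matching {G H : DGraph} (R : Path G → Path H → Prop) : Prop where
  left : ∀ ξ, IsPer ξ → ∃ η, IsPer η ∧ R ξ η
  right : ∀ η, IsPer η → ∃ ξ, IsPer ξ ∧ R ξ η
  orb : ∀ ξ η ξ' η', IsPer ξ → IsPer η → IsPer ξ' → IsPer η' → R ξ η → R ξ' η' →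
    (Orb ξ ξ' ↔ Orb η η')

theorem transfer {G H : DGraph} [Finite H.E] (F : GS G ⥤ GS H) [F.IsEquivalence] :
    ∃ f : Path H → ℤ, Continuous f ∧ ∃ R : Path G → Path H → Prop, Matching R ∧
      ∀ ξ η, IsPer ξ → IsPer η → R ξ η →
        (birkhoffSum Path.sh f (Function.minimalPeriod Path.sh η) η).natAbs =
          Function.minimalPeriod Path.sh ξ := by
  obtain ⟨f, hf, hP⟩ := tors_struct (isTors_obj F (isTors_std (G := G)))
  refine ⟨f, hf, fun ξ η => Nonempty (F.obj (Upt ξ) ≅ Upt η), ⟨?_, ?_, ?_⟩, ?_⟩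
  · intro ξ hξ
    obtain ⟨η', ⟨i⟩⟩ := isPt_iff (isPt_obj F (isPt_Upt ξ))
    have h1 : Nontriv (Upt η') := ((nontriv_obj F).2 (nontriv_of_isPer hξ)).iso i.symm
    obtain ⟨η, hη, ⟨j⟩⟩ := isPer_of_nontriv h1
    exact ⟨η, hη, ⟨i.symm.trans j.symm⟩⟩
  · intro η hη
    let k := F.objObjPreimageIso (Upt η)
    have h0 : IsPt (F.objPreimage (Upt η)) := isPt_of F ((isPt_Upt η).iso k.symm)
    obtain ⟨ξ', ⟨i⟩⟩ := isPt_iff h0
    have h1 : Nontriv (Upt ξ') := by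
      have := (nontriv_of_isPer hη).iso k.symm
      exact ((nontriv_obj F).1 this).iso i.symm
    obtain ⟨ξ, hξ, ⟨j⟩⟩ := isPer_of_nontriv h1
    exact ⟨ξ, hξ, ⟨(F.mapIso (j.trans i)).trans k⟩⟩
  · rintro ξ η ξ' η' hξ hη hξ' hη' ⟨i⟩ ⟨j⟩
    rw [orb_iff hξ', orb_iff hη', ← Upt.iso_iff, ← Upt.iso_iff]
    constructor
    · rintro ⟨k⟩
      exact ⟨i.symm.trans ((F.mapIso k).trans j)⟩
    · rintro ⟨k⟩
      exact ⟨F.preimageIso (i.trans (k.trans j.symm))⟩
  · rintro ξ η hξ hη ⟨i⟩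
    have h1 : ∀ n : ℤ, birkhoffSum Path.sh f (Function.minimalPeriod Path.sh η) η ∣ n ↔
        (Function.minimalPeriod Path.sh ξ : ℤ) ∣ n := by
      intro n
      rw [← hP η hη n, ← pers_std hξ n, ← pers_obj F]
      exact ⟨fun h => Pers.iso i.symm h, fun h => Pers.iso i h⟩
    have h2 : (Function.minimalPeriod Path.sh ξ : ℤ) ∣
        birkhoffSum Path.sh f (Function.minimalPeriod Path.sh η) η := (h1 _).1 dvd_rfl
    have h3 : birkhoffSum Path.sh f (Function.minimalPeriod Path.sh η) η ∣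
        (Function.minimalPeriod Path.sh ξ : ℤ) := (h1 _).2 dvd_rfl
    have := Nat.dvd_antisymm (Int.natAbs_dvd_natAbs.2 h3) (Int.natAbs_dvd_natAbs.2 h2)
    simpa using this

end ParrySullivan
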