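import Pool.Agent.R708.PS.TraceF
import Pool.Agent.R708.PS.Transfer

/-!
The determinant `det (1 - M(t))` of a weighted graph is determined by the weights of the
periodic orbits.
-/

open Polynomial

namespace ParrySullivan

/-- all periodic paths have positive weight -/
def PosW {K : DGraph} (w : K.E → ℕ) : Prop :=
  ∀ (i : ℕ) (ξ : Path K), 0 < i → Path.sh^[i] ξ = ξ → 0 < sw w i ξ

theorem sw_mono {K : DGraph} (w : K.E → ℕ) {m n : ℕ} (h : m ≤ n) (ξ : Path K) :
    sw w m ξ ≤ sw w n ξ := by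
  obtain ⟨d, rfl⟩ := Nat.exists_eq_add_of_le h
  rw [sw_add]; omega

theorem PosW.unb {K : DGraph} [Finite K.E] {w : K.E → ℕ} (h : PosW w) (N : ℕ) :
    ∃ L, ∀ ξ : Path K, N ≤ sw w L ξ := by
  apply Path.leb (G := K) (fun ξ n => N ≤ sw w n ξ)
  · -- unboundedness
    have h1 : ∀ ξ : Path K, ∃ m, 1 ≤ sw w m ξ := by
      intro ξ
      by_contra hcon
      push Not at hcon
      obtain ⟨i, j, hij, he⟩ := Finite.exists_ne_map_eq_of_infinite (fun n : ℕ => ξ n)
      wlog hlt : i < j generalizing i j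
      · exact this j i hij.symm he.symm (by omega)
      have hper : K.t ((Path.sh^[i] ξ) (j - i)) = K.t ((Path.sh^[i] ξ) 0) := by
        rw [Path.sh_iter, Path.sh_iter, Nat.sub_add_cancel hlt.le, zero_add]
        exact congrArg K.t he.symm
      have hpos := h (j - i) (Path.rep (j - i) (by omega) (Path.sh^[i] ξ) hper) (by omega)
        (Path.sh_rep _ _)
      have heq : sw w (j - i) (Path.rep (j - i) (by omega) (Path.sh^[i] ξ) hper) =
          sw w (j - i) (Path.sh^[i] ξ) := by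
        refine Finset.sum_congr rfl (fun k hk => ?_)
        rw [Path.rep_apply, Nat.mod_eq_of_lt (Finset.mem_range.1 hk)]
      rw [heq] at hpos
      have h2 := sw_add w i (j - i) ξ
      have h3 := hcon (i + (j - i))
      omega
    intro ξ
    induction N generalizing ξ with
    | zero => exact ⟨0, Nat.zero_le _⟩
    | succ N ih =>
      obtain ⟨n, hn⟩ := ih ξ
      obtain ⟨m, hm⟩ := h1 (Path.sh^[n] ξ)
      exact ⟨n + m, by rw [sw_add]; omega⟩
  · intro ξ η n m hn hagr hnm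
    have : sw w n η = sw w n ξ := by
      refine Finset.sum_congr rfl (fun k hk => ?_)
      rw [hagr k (Finset.mem_range.1 hk)]
    have := sw_mono w hnm η
    omega

/-! ### orbits -/

theorem IsPer.iter {K : DGraph} {ξ : Path K} (h : IsPer ξ) (j : ℕ) : IsPer (Path.sh^[j] ξ) := by
  obtain ⟨p, hp, h1⟩ := isPer_iff.1 h
  refine isPer_iff.2 ⟨p, hp, ?_⟩
  rw [← Function.iterate_add_apply, add_comm, Function.iterate_add_apply, h1]

theorem minPeriod_iter {K : DGraph} {ξ : Path K} (h : IsPer ξ) (j : ℕ) :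
    Function.minimalPeriod Path.sh (Path.sh^[j] ξ) = Function.minimalPeriod Path.sh ξ :=
  Function.minimalPeriod_apply_iterate h j

/-- orbits of periodic paths -/
instance orbSetoid (K : DGraph) : Setoid (Per K) where
  r ξ η := Orb ξ.1 η.1
  iseqv := by
    refine ⟨fun ξ => ⟨0, rfl⟩, fun {ξ η} h => ?_, fun {ξ η κ} h h' => ?_⟩
    · obtain ⟨n, hn⟩ := h
      exact (orb_iff ξ.2).2 ⟨0, n, hn.symm⟩
    · obtain ⟨n, hn⟩ := h
      obtain ⟨m, hm⟩ := h'
      exact ⟨m + n, by rw [Function.iterate_add_apply, hn, hm]⟩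

/-- the type of periodic orbits -/
abbrev OrbQ (K : DGraph) : Type := Quotient (orbSetoid K)

/-- weight of a periodic path over one period -/
noncomputable def SP {K : DGraph} (w : K.E → ℕ) (ξ : Path K) : ℕ :=
  sw w (Function.minimalPeriod Path.sh ξ) ξ

theorem SP_orb {K : DGraph} (w : K.E → ℕ) {ξ η : Path K} (hξ : IsPer ξ) (h : Orb ξ η) :
    SP w ξ = SP w η := by
  obtain ⟨n, rfl⟩ := h
  rw [SP, SP, minPeriod_iter hξ, sw_shift w (IsPer.sh_min ξ)]

/-- weight of a periodic orbit -/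
noncomputable def SQ {K : DGraph} (w : K.E → ℕ) : OrbQ K → ℕ :=
  Quotient.lift (fun ξ : Per K => SP w ξ.1) (fun ξ _ h => SP_orb w ξ.2 h)

theorem matching_equiv {G H : DGraph} {R : Path G → Path H → Prop} (hR : Matching R) :
    ∃ β : OrbQ G ≃ OrbQ H, ∀ ξ : Per G, ∃ η : Per H, R ξ.1 η.1 ∧ β (Quotient.mk _ ξ) = Quotient.mk _ η := by
  have h : ∀ ξ : Per G, ∃ η : Per H, R ξ.1 η.1 := fun ξ => by
    obtain ⟨η, h1, h2⟩ := hR.left ξ.1 ξ.2
    exact ⟨⟨η, h1⟩, h2⟩
  choose g hg using h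
  let F : OrbQ G → OrbQ H := Quotient.map g (fun ξ ξ' h =>
    (hR.orb _ _ _ _ ξ.2 (g ξ).2 ξ'.2 (g ξ').2 (hg ξ) (hg ξ')).1 h)
  have hF : Function.Bijective F := by
    constructor
    · intro q q' h
      induction q using Quotient.inductionOn with
      | h ξ =>
        induction q' using Quotient.inductionOn with
        | h ξ' =>
          have h1 : Orb (g ξ).1 (g ξ').1 := Quotient.exact h
          exact Quotient.sound ((hR.orb _ _ _ _ ξ.2 (g ξ).2 ξ'.2 (g ξ').2 (hg ξ) (hg ξ')).2 h1)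
    · intro q
      induction q using Quotient.inductionOn with
      | h η =>
        obtain ⟨ξ, h1, h2⟩ := hR.right η.1 η.2
        refine ⟨Quotient.mk _ ⟨ξ, h1⟩, ?_⟩
        apply Quotient.sound
        exact (hR.orb _ _ _ _ h1 (g ⟨ξ, h1⟩).2 h1 η.2 (hg ⟨ξ, h1⟩) h2).1 ⟨0, rfl⟩
  exact ⟨Equiv.ofBijective F hF, fun ξ => ⟨g ξ, hg ξ, rfl⟩⟩

section Zeta

variable {K : DGraph} [Fintype K.E] (w : K.E → ℕ)

/-- the coefficient sums -/
noncomputable def cSum (k L : ℕ) : ℚ :=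
  ∑ i ∈ Finset.range L, ((k : ℚ) / (i + 1)) *
    ((fixF K (i + 1) i.succ_pos).filter (fun ξ => sw w (i + 1) ξ.1 = k)).card

theorem cSum_eq (hw : PosW w) {k N L : ℕ} (hk : 1 ≤ k) (hkN : k < N)
    (hL : ∀ ξ : Path K, N ≤ sw w L ξ) :
    ∃ Qk : Finset (OrbQ K), (∀ q, q ∈ Qk ↔ SQ w q ∣ k) ∧ cSum w k L = ∑ q ∈ Qk, (SQ w q : ℚ) := by
  classical
  let Fk : ℕ → Finset (Per K) := fun i =>
    (fixF K (i + 1) i.succ_pos).filter (fun ξ => sw w (i + 1) ξ.1 = k)
  let p : Per K → ℕ := fun ξ => Function.minimalPeriod Path.sh ξ.1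
  have hp : ∀ ξ, 0 < p ξ := fun ξ => IsPer.minPos ξ.2
  have hS : ∀ ξ : Per K, 0 < SP w ξ.1 := fun ξ => hw _ _ (hp ξ) (IsPer.sh_min ξ.1)
  have hmem : ∀ i (ξ : Per K), ξ ∈ Fk i → ∃ j, i + 1 = p ξ * j ∧ k = j * SP w ξ.1 := by
    intro i ξ h
    obtain ⟨h1, h2⟩ := Finset.mem_filter.1 h
    rw [mem_fixF] at h1
    obtain ⟨j, hj⟩ : p ξ ∣ i + 1 := Function.IsPeriodicPt.minimalPeriod_dvd h1
    refine ⟨j, hj, ?_⟩
    rw [← h2, hj, sw_mul w (IsPer.sh_min ξ.1)]
    rfl
  have h1 : cSum w k L = ∑ i ∈ Finset.range L, ∑ ξ ∈ Fk i, ((SP w ξ.1 : ℚ) / p ξ) := by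
    refine Finset.sum_congr rfl (fun i _ => ?_)
    rw [mul_comm, ← nsmul_eq_mul, ← Finset.sum_const]
    refine Finset.sum_congr rfl (fun ξ hξ => ?_)
    obtain ⟨j, h2, h3⟩ := hmem i ξ hξ
    have hj : j ≠ 0 := by rintro rfl; omega
    have h4 : ((i : ℚ) + 1) = p ξ * j := by exact_mod_cast h2
    have h5 : (k : ℚ) = j * SP w ξ.1 := by exact_mod_cast h3
    rw [h4, h5]
    have h6 : (p ξ : ℚ) ≠ 0 := by exact_mod_cast (hp ξ).ne'
    have h7 : (j : ℚ) ≠ 0 := by exact_mod_cast hj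
    field_simp
  have hdisj : ∀ i ∈ Finset.range L, ∀ j ∈ Finset.range L, i ≠ j → Disjoint (Fk i) (Fk j) := by
    intro i _ j _ hij
    rw [Finset.disjoint_left]
    intro ξ h2 h3
    obtain ⟨a, ha, ha'⟩ := hmem i ξ h2
    obtain ⟨b, hb, hb'⟩ := hmem j ξ h3
    have hab : a = b := Nat.eq_of_mul_eq_mul_right (hS ξ) (ha'.symm.trans hb')
    subst hab
    omega
  let Pk : Finset (Per K) := (Finset.range L).biUnion Fk
  have h2 : cSum w k L = ∑ ξ ∈ Pk, ((SP w ξ.1 : ℚ) / p ξ) := by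
    rw [h1, Finset.sum_biUnion hdisj]
  have hPk : ∀ ξ : Per K, ξ ∈ Pk ↔ SP w ξ.1 ∣ k := by
    intro ξ
    constructor
    · intro h
      obtain ⟨i, _, hi⟩ := Finset.mem_biUnion.1 h
      obtain ⟨j, _, hj⟩ := hmem i ξ hi
      exact ⟨j, by rw [hj, mul_comm]⟩
    · rintro ⟨j, hj⟩
      have hj0 : 0 < j := by
        rcases Nat.eq_zero_or_pos j with rfl | h
        · omega
        · exact h
      have hpj : 0 < p ξ * j := Nat.mul_pos (hp ξ) hj0
      have hsw : sw w (p ξ * j) ξ.1 = k := by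
        rw [sw_mul w (IsPer.sh_min ξ.1), hj, mul_comm]; rfl
      refine Finset.mem_biUnion.2 ⟨p ξ * j - 1, ?_, ?_⟩
      · rw [Finset.mem_range]
        by_contra hcon
        have h3 := sw_mono w (show L ≤ p ξ * j by omega) ξ.1
        have h4 := hL ξ.1
        omega
      · have e : p ξ * j - 1 + 1 = p ξ * j := by omega
        refine Finset.mem_filter.2 ⟨?_, ?_⟩
        · rw [mem_fixF, e]
          exact sh_iter_mul (IsPer.sh_min ξ.1) j
        · rw [e, hsw]
  refine ⟨Pk.image (Quotient.mk _), ?_, ?_⟩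
  · intro q
    rw [Finset.mem_image]
    constructor
    · rintro ⟨ξ, hξ, rfl⟩
      exact (hPk ξ).1 hξ
    · intro h
      induction q using Quotient.inductionOn with
      | h ξ => exact ⟨ξ, (hPk ξ).2 h, rfl⟩
  · rw [h2, ← Finset.sum_fiberwise_of_maps_to
      (g := (Quotient.mk (orbSetoid K) : Per K → OrbQ K)) (t := Pk.image (Quotient.mk _))
      (fun ξ hξ => Finset.mem_image_of_mem _ hξ)]
    refine Finset.sum_congr rfl (fun q hq => ?_)
    obtain ⟨ξ₀, hξ₀, rfl⟩ := Finset.mem_image.1 hq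
    have hconst : ∀ ξ ∈ Pk.filter (fun ξ => (Quotient.mk (orbSetoid K) ξ) = Quotient.mk _ ξ₀),
        ((SP w ξ.1 : ℚ) / p ξ) = (SP w ξ₀.1 : ℚ) / p ξ₀ := by
      intro ξ hξ
      have h3 : Orb ξ.1 ξ₀.1 := Quotient.exact (Finset.mem_filter.1 hξ).2
      have h4 := SP_orb w ξ.2 h3
      have h5 : p ξ = p ξ₀ := by
        obtain ⟨n, hn⟩ := h3
        show Function.minimalPeriod Path.sh ξ.1 = Function.minimalPeriod Path.sh ξ₀.1
        rw [← hn, minPeriod_iter ξ.2]
      rw [h4, h5]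
    rw [Finset.sum_congr rfl hconst, Finset.sum_const, nsmul_eq_mul]
    have hcard : (Pk.filter (fun ξ => (Quotient.mk (orbSetoid K) ξ) = Quotient.mk _ ξ₀)).card =
        p ξ₀ := by
      have himg : Pk.filter (fun ξ => (Quotient.mk (orbSetoid K) ξ) = Quotient.mk _ ξ₀) =
          (Finset.range (p ξ₀)).image (fun j => (⟨Path.sh^[j] ξ₀.1, ξ₀.2.iter j⟩ : Per K)) := by
        ext ξ
        rw [Finset.mem_filter, Finset.mem_image]
        constructor
        · rintro ⟨_, h3⟩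
          have h4 : Orb ξ₀.1 ξ.1 := Quotient.exact h3.symm
          obtain ⟨n, hn⟩ := h4
          refine ⟨n % p ξ₀, Finset.mem_range.2 (Nat.mod_lt _ (hp ξ₀)), Subtype.ext ?_⟩
          show Path.sh^[n % p ξ₀] ξ₀.1 = ξ.1
          rw [← hn]
          conv_rhs => rw [← Nat.mod_add_div n (p ξ₀)]
          rw [Function.iterate_add_apply, sh_iter_mul (IsPer.sh_min ξ₀.1)]
        · rintro ⟨j, _, rfl⟩
          refine ⟨(hPk _).2 ?_, Quotient.sound ?_⟩
          · rw [← SP_orb w ξ₀.2 ⟨j, rfl⟩]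
            exact (hPk ξ₀).1 hξ₀
          · exact (orb_iff ξ₀.2).2 ⟨0, j, rfl⟩
      rw [himg, Finset.card_image_of_injOn, Finset.card_range]
      intro i hi j hj h
      have h3 : Path.sh^[i] ξ₀.1 = Path.sh^[j] ξ₀.1 := congrArg Subtype.val h
      exact Function.iterate_injOn_Iio_minimalPeriod
        (by simpa using hi) (by simpa using hj) h3
    rw [hcard]
    have h6 : (p ξ₀ : ℚ) ≠ 0 := by exact_mod_cast (hp ξ₀).ne'
    show (p ξ₀ : ℚ) * ((SP w ξ₀.1 : ℚ) / p ξ₀) = (SP w ξ₀.1 : ℚ)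
    field_simp

end Zeta

section Det

variable {K : DGraph} [Fintype K.V] [DecidableEq K.V] [Fintype K.E] {w : K.E → ℕ}

theorem coeff_traces (hns : NoSource K) (k L : ℕ) :
    (∑ i ∈ Finset.range L, (wMat K w ^ i * (wMat K w).map euler).trace).coeff k = cSum w k L := by
  rw [Polynomial.finset_sum_coeff]
  refine Finset.sum_congr rfl (fun i _ => ?_)
  have h1 := trace_pow_derivation euler (wMat K w) i
  have h2 := congrArg (fun p : ℚ[X] => p.coeff k) h1
  have e1 : ((i : ℚ[X]) + 1) = Polynomial.C ((i : ℚ) + 1) := by simp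
  rw [coeff_euler, e1, Polynomial.coeff_C_mul, trace_pow_wMat w hns (Nat.succ_pos i)] at h2
  rw [Polynomial.finset_sum_coeff] at h2
  simp only [Polynomial.coeff_X_pow] at h2
  have h3 : (∑ ξ ∈ fixF K (i + 1) i.succ_pos, if k = sw w (i + 1) ξ.1 then (1 : ℚ) else 0) =
      ((fixF K (i + 1) i.succ_pos).filter (fun ξ => sw w (i + 1) ξ.1 = k)).card := by
    rw [Finset.sum_boole]
    congr 2
    ext ξ
    simp only [Finset.mem_filter, eq_comm]
  rw [h3] at h2
  have h4 : ((i : ℚ) + 1) ≠ 0 := by positivity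
  rw [div_mul_eq_mul_div, eq_div_iff h4, mul_comm, ← h2]

theorem wMat_pow_mem (hns : NoSource K) {N L : ℕ} (hL : ∀ ξ : Path K, N ≤ sw w L ξ) (u v : K.V) :
    (wMat K w ^ L) u v ∈ Ideal.span {(X : ℚ[X]) ^ N} := by
  classical
  rw [wMat_pow w hns]
  refine Ideal.sum_mem _ (fun x _ => ?_)
  split_ifs with h
  · obtain ⟨ξ, h1, _, _⟩ := h
    rw [Ideal.mem_span_singleton]
    apply pow_dvd_pow
    have h2 := hL ξ
    rw [sw, ← Fin.sum_univ_eq_sum_range (fun j => w (ξ j))] at h2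
    simpa [h1] using h2
  · exact Ideal.zero_mem _

theorem det_coeff_zero (hns : NoSource K) (hw : PosW w) : (1 - wMat K w).det.coeff 0 = 1 := by
  obtain ⟨L, hL⟩ := hw.unb 1
  have h1 : ∀ p : ℚ[X], p.coeff 0 = Polynomial.evalRingHom 0 p := fun p => by
    rw [Polynomial.coeff_zero_eq_eval_zero]; rfl
  rw [h1, RingHom.map_det, RingHom.mapMatrix_apply]
  set B : Matrix K.V K.V ℚ := (wMat K w).map (Polynomial.evalRingHom 0) with hB
  have h2 : (1 - wMat K w).map (Polynomial.evalRingHom 0) = 1 - B := by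
    rw [hB, ← RingHom.mapMatrix_apply, ← RingHom.mapMatrix_apply, map_sub, map_one]
  rw [h2]
  have h3 : B ^ L = 0 := by
    rw [hB, ← RingHom.mapMatrix_apply, ← map_pow, RingHom.mapMatrix_apply]
    ext u v
    rw [Matrix.map_apply, Matrix.zero_apply]
    have h4 := wMat_pow_mem hns hL u v
    rw [Ideal.mem_span_singleton, pow_one] at h4
    obtain ⟨r, hr⟩ := h4
    rw [hr]; simp
  have h5 : IsNilpotent (B.charpoly - X ^ Fintype.card K.V) :=
    Matrix.isNilpotent_charpoly_sub_pow_of_isNilpotent ⟨L, h3⟩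
  have h6 : B.charpoly = X ^ Fintype.card K.V := sub_eq_zero.1 (h5.eq_zero)
  have h7 := Matrix.eval_charpoly B 1
  rw [h6] at h7
  simpa using h7.symm

theorem det_recursion (hns : NoSource K) {N L k : ℕ} (hk : k < N)
    (hL : ∀ ξ : Path K, N ≤ sw w L ξ) :
    k * (1 - wMat K w).det.coeff k = -∑ x ∈ Finset.HasAntidiagonal.antidiagonal k,
      (1 - wMat K w).det.coeff x.1 * cSum w x.2 L := by
  have h1 := det_congr euler (Ideal.span {(X : ℚ[X]) ^ N}) (wMat K w) L (wMat_pow_mem hns hL)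
  rw [Ideal.mem_span_singleton, Polynomial.X_pow_dvd_iff] at h1
  have h2 := h1 k hk
  rw [Polynomial.coeff_add, coeff_euler, Polynomial.coeff_mul] at h2
  simp only [coeff_traces hns] at h2
  linarith

end Det

/-- The determinants of two weighted graphs with matching periodic orbits agree. -/
theorem zeta_eq {K₁ K₂ : DGraph} [Fintype K₁.V] [DecidableEq K₁.V] [Fintype K₁.E]
    [Fintype K₂.V] [DecidableEq K₂.V] [Fintype K₂.E] {w₁ : K₁.E → ℕ} {w₂ : K₂.E → ℕ}
    (hn₁ : NoSource K₁) (hn₂ : NoSource K₂) (hw₁ : PosW w₁) (hw₂ : PosW w₂)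
    {R : Path K₁ → Path K₂ → Prop} (hR : Matching R)
    (hS : ∀ ξ η, IsPer ξ → IsPer η → R ξ η → SP w₁ ξ = SP w₂ η) :
    (1 - wMat K₁ w₁).det = (1 - wMat K₂ w₂).det := by
  obtain ⟨β, hβ⟩ := matching_equiv hR
  have hSβ : ∀ q, SQ w₂ (β q) = SQ w₁ q := by
    intro q
    induction q using Quotient.inductionOn with
    | h ξ =>
      obtain ⟨η, h1, h2⟩ := hβ ξ
      rw [h2]
      exact (hS _ _ ξ.2 η.2 h1).symm
  have hc : ∀ k N L, k < N → (∀ ξ : Path K₁, N ≤ sw w₁ L ξ) → (∀ ξ : Path K₂, N ≤ sw w₂ L ξ) →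
      cSum w₁ k L = cSum w₂ k L := by
    intro k N L hk h1 h2
    rcases Nat.eq_zero_or_pos k with rfl | hk0
    · simp [cSum]
    · obtain ⟨Q₁, h3, h4⟩ := cSum_eq w₁ hw₁ hk0 hk h1
      obtain ⟨Q₂, h5, h6⟩ := cSum_eq w₂ hw₂ hk0 hk h2
      rw [h4, h6]
      refine Finset.sum_equiv β (fun q => ?_) (fun q _ => ?_)
      · rw [h3, h5, hSβ]
      · rw [hSβ]
  ext k
  induction k using Nat.strong_induction_on with
  | _ k ih =>
    rcases Nat.eq_zero_or_pos k with rfl | hk0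
    · rw [det_coeff_zero hn₁ hw₁, det_coeff_zero hn₂ hw₂]
    · obtain ⟨L₁, hL₁⟩ := hw₁.unb (k + 1)
      obtain ⟨L₂, hL₂⟩ := hw₂.unb (k + 1)
      have h1 : ∀ ξ : Path K₁, k + 1 ≤ sw w₁ (max L₁ L₂) ξ := fun ξ =>
        (hL₁ ξ).trans (sw_mono w₁ (le_max_left _ _) ξ)
      have h2 : ∀ ξ : Path K₂, k + 1 ≤ sw w₂ (max L₁ L₂) ξ := fun ξ =>
        (hL₂ ξ).trans (sw_mono w₂ (le_max_right _ _) ξ)
      have e1 := det_recursion hn₁ (Nat.lt_succ_self k) h1
      have e2 := det_recursion hn₂ (Nat.lt_succ_self k) h2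
      have e3 : ∑ x ∈ Finset.HasAntidiagonal.antidiagonal k,
          (1 - wMat K₁ w₁).det.coeff x.1 * cSum w₁ x.2 (max L₁ L₂) =
          ∑ x ∈ Finset.HasAntidiagonal.antidiagonal k,
          (1 - wMat K₂ w₂).det.coeff x.1 * cSum w₂ x.2 (max L₁ L₂) := by
        refine Finset.sum_congr rfl (fun x hx => ?_)
        have hx' := Finset.HasAntidiagonal.mem_antidiagonal.1 hx
        rw [hc x.2 (k + 1) _ (by omega) h1 h2]
        rcases Nat.eq_zero_or_pos x.2 with h0 | h0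
        · rw [h0]
          have : cSum w₂ 0 (max L₁ L₂) = 0 := by simp [cSum]
          rw [this, mul_zero, mul_zero]
        · rw [ih x.1 (by omega)]
      rw [e3, ← e2] at e1
      have hk' : (k : ℚ) ≠ 0 := by exact_mod_cast hk0.ne'
      exact mul_left_cancel₀ hk' e1

end ParrySullivan
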